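import Mathlib
import Pool.Agent.MP_c1dca2_ag.SUP.Defs

/-!
# [TIF LINK] divisors and classes of a Dedekind domain
-/

set_option autoImplicit false
set_option linter.unusedSectionVars false

open SUP

namespace TIFL

section dedekind

/-- the maximal ideals -/
abbrev XX (R : Type) [CommRing R] : Type := IsDedekindDomain.HeightOneSpectrum R

variable {R : Type} [CommRing R] [IsDedekindDomain R]

/-- the multiplicity of `v` in `I` -/
noncomputable def mI (I : Ideal R) (v : XX R) : ℕ :=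
  (Associates.mk v.asIdeal).count (Associates.mk I).factors

open Classical in
/-- the divisor of a nonzero ideal -/
noncomputable def dI (I : Ideal R) : XX R →₀ ℤ :=
  if h : I ≠ 0 then Finsupp.ofSupportFinite (fun v : XX R => (mI I v : ℤ))
    (Filter.eventually_cofinite.1 (Associates.finite_factors h)) else 0

theorem dI_apply {I : Ideal R} (h : I ≠ ⊥) (v : XX R) : dI I v = mI I v := by
  have h' : I ≠ 0 := h
  unfold dI
  rw [dif_pos h']
  rfl

theorem mI_mul {I J : Ideal R} (hI : I ≠ ⊥) (hJ : J ≠ ⊥) (v : XX R) :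
    mI (I * J) v = mI I v + mI J v := by
  unfold mI
  have e : Associates.mk (I * J) = Associates.mk I * Associates.mk J := rfl
  rw [e]
  exact Associates.count_mul (Associates.mk_ne_zero.2 hI) (Associates.mk_ne_zero.2 hJ)
    v.associates_irreducible

theorem dI_mul {I J : Ideal R} (hI : I ≠ ⊥) (hJ : J ≠ ⊥) : dI (I * J) = dI I + dI J := by
  have hIJ : I * J ≠ ⊥ := mul_ne_zero hI hJ
  ext v
  rw [Finsupp.add_apply, dI_apply hIJ, dI_apply hI, dI_apply hJ, mI_mul hI hJ]
  push_cast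
  rfl

theorem mI_top (v : XX R) : mI (⊤ : Ideal R) v = 0 := by
  have h := mI_mul (R := R) (I := ⊤) (J := ⊤) top_ne_bot top_ne_bot v
  rw [Ideal.top_mul] at h
  omega

theorem dI_top : dI (⊤ : Ideal R) = 0 := by
  ext v
  rw [dI_apply top_ne_bot, mI_top]
  rfl

theorem mI_ne_zero_iff {I : Ideal R} (hI : I ≠ ⊥) (v : XX R) : mI I v ≠ 0 ↔ I ≤ v.asIdeal := by
  unfold mI
  rw [Associates.count_ne_zero_iff_dvd hI v.irreducible, Ideal.dvd_iff_le]

theorem mI_self (v : XX R) : mI v.asIdeal v = 1 := by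
  unfold mI
  exact Associates.count_self v.associates_irreducible

theorem mI_ne {v w : XX R} (h : v ≠ w) : mI w.asIdeal v = 0 := by
  by_contra hcon
  have h1 := (mI_ne_zero_iff w.ne_bot v).1 hcon
  have h2 := w.isMaximal.eq_of_le v.isMaximal.ne_top h1
  exact h (IsDedekindDomain.HeightOneSpectrum.ext h2.symm)

theorem dI_prime (v : XX R) : dI v.asIdeal = Finsupp.single v 1 := by
  classical
  ext w
  rw [dI_apply v.ne_bot, Finsupp.single_apply]
  split_ifs with h
  · rw [h, mI_self]; rfl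
  · rw [mI_ne (Ne.symm h)]; rfl

theorem dI_inj {I J : Ideal R} (hI : I ≠ ⊥) (hJ : J ≠ ⊥) (h : dI I = dI J) : I = J := by
  rw [← Ideal.finprod_heightOneSpectrum_factorization hI,
    ← Ideal.finprod_heightOneSpectrum_factorization hJ]
  refine finprod_congr fun v => ?_
  unfold IsDedekindDomain.HeightOneSpectrum.maxPowDividing
  have h1 := DFunLike.congr_fun h v
  rw [dI_apply hI, dI_apply hJ] at h1
  have h2 : mI I v = mI J v := by exact_mod_cast h1
  unfold mI at h2
  rw [h2]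

theorem dI_nonneg (I : Ideal R) : 0 ≤ dI I := by
  intro v
  by_cases hI : I = ⊥
  · subst hI
    have : dI (⊥ : Ideal R) = 0 := by
      unfold dI
      rw [dif_neg]
      exact fun h => h rfl
    rw [this]
  · rw [dI_apply hI]
    exact Int.natCast_nonneg _

theorem dI_pow {I : Ideal R} (hI : I ≠ ⊥) (n : ℕ) : dI (I ^ n) = n • dI I := by
  induction n with
  | zero => rw [pow_zero, zero_smul, Ideal.one_eq_top]; exact dI_top (R := R)
  | succ n ih => rw [pow_succ, dI_mul (pow_ne_zero n hI) hI, ih, succ_nsmul]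

theorem dI_surj (D : XX R →₀ ℤ) (hD : 0 ≤ D) : ∃ I : Ideal R, I ≠ ⊥ ∧ dI I = D := by
  classical
  induction D using Finsupp.induction with
  | zero => exact ⟨(⊤ : Ideal R), top_ne_bot, dI_top (R := R)⟩
  | single_add v n D hv hn ih =>
    have h1 : 0 ≤ D := by
      intro w
      by_cases hw : w = v
      · subst hw
        rw [Finsupp.notMem_support_iff.1 hv]
        exact le_refl _
      · have := hD w
        rwa [Finsupp.add_apply, Finsupp.single_apply, if_neg (Ne.symm hw), zero_add] at this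
    have h2 : 0 ≤ n := by
      have := hD v
      rwa [Finsupp.add_apply, Finsupp.single_eq_same, Finsupp.notMem_support_iff.1 hv,
        add_zero] at this
    obtain ⟨I, hI, hI'⟩ := ih h1
    obtain ⟨m, rfl⟩ := Int.eq_ofNat_of_zero_le h2
    refine ⟨v.asIdeal ^ m * I, mul_ne_zero (pow_ne_zero _ v.ne_bot) hI, ?_⟩
    rw [dI_mul (pow_ne_zero _ v.ne_bot) hI, dI_pow v.ne_bot, dI_prime, hI']
    congr 1
    rw [Finsupp.smul_single, nsmul_eq_mul, mul_one]

/-- every divisor is a difference -/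
theorem exists_sub (D : XX R →₀ ℤ) : ∃ I J : Ideal R, I ≠ ⊥ ∧ J ≠ ⊥ ∧ D = dI I - dI J := by
  obtain ⟨I, hI, hI'⟩ := dI_surj (D ⊔ 0) le_sup_right
  obtain ⟨J, hJ, hJ'⟩ := dI_surj (D ⊔ 0 - D) (by
    intro v
    rw [Finsupp.sub_apply, Finsupp.sup_apply]
    exact sub_nonneg.2 le_sup_left)
  refine ⟨I, J, hI, hJ, ?_⟩
  rw [hI', hJ', sub_sub_cancel]

/-- the class of a divisor -/
noncomputable def cD (D : XX R →₀ ℤ) : ClassGroup R := D.prod fun v n => cls v.asIdeal ^ n

theorem cD_zero : cD (0 : XX R →₀ ℤ) = 1 := Finsupp.prod_zero_index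

theorem cD_add (D D' : XX R →₀ ℤ) : cD (D + D') = cD D * cD D' := by
  classical
  unfold cD
  exact Finsupp.prod_add_index' (fun v => zpow_zero _) (fun v m n => zpow_add _ _ _)

theorem cD_neg (D : XX R →₀ ℤ) : cD (-D) = (cD D)⁻¹ := by
  have h := cD_add D (-D)
  rw [add_neg_cancel, cD_zero] at h
  exact (inv_eq_of_mul_eq_one_right h.symm).symm

theorem cD_sub (D D' : XX R →₀ ℤ) : cD (D - D') = cD D / cD D' := by
  rw [sub_eq_add_neg, cD_add, cD_neg, div_eq_mul_inv]

theorem cD_nsmul (n : ℕ) (D : XX R →₀ ℤ) : cD (n • D) = cD D ^ n := by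
  induction n with
  | zero => rw [zero_smul, cD_zero, pow_zero]
  | succ n ih => rw [succ_nsmul, cD_add, ih, pow_succ]

theorem cD_single (v : XX R) (n : ℤ) : cD (Finsupp.single v n) = cls v.asIdeal ^ n :=
  Finsupp.prod_single_index (zpow_zero _)

/-- the class of an ideal -/
theorem cD_dI {I : Ideal R} (hI : I ≠ ⊥) : cD (dI I) = cls I := by
  -- induction over the prime factors
  have key : ∀ I : Ideal R, I ≠ 0 → cD (dI I) = cls I := by
    intro I hI
    induction I using UniqueFactorizationMonoid.induction_on_prime with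
    | h₁ => exact absurd rfl hI
    | h₂ I h =>
      have : I = ⊤ := by rwa [Ideal.isUnit_iff] at h
      subst this
      rw [dI_top, cD_zero]
      have h1 := cls_mul (B := R) (I := ⊤) (J := ⊤) top_ne_bot top_ne_bot
      rw [Ideal.top_mul] at h1
      exact (by simpa using h1 : cls (⊤ : Ideal R) = 1).symm
    | h₃ I p hI0 hp ih =>
      have hp0 : p ≠ ⊥ := hp.ne_zero
      rw [dI_mul hp0 hI0, cD_add, cls_mul hp0 hI0, ih hI0]
      congr 1
      have h1 := dI_prime (⟨p, Ideal.isPrime_of_prime hp, hp0⟩ : XX R)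
      change dI p = _ at h1
      rw [h1, cD_single, zpow_one]
  exact key I hI

theorem cD_surj (C : ClassGroup R) : ∃ D, cD D = C := by
  obtain ⟨I, hI, rfl⟩ := exists_cls C
  exact ⟨dI I, cD_dI hI⟩

/-- a divisor with trivial class is principal -/
theorem exists_of_cD {D : XX R →₀ ℤ} (h : cD D = 1) : ∃ u w : R, u ≠ 0 ∧ w ≠ 0 ∧
    D = dI (Ideal.span {u}) - dI (Ideal.span {w}) := by
  obtain ⟨I, J, hI, hJ, rfl⟩ := exists_sub D
  rw [cD_sub, cD_dI hI, cD_dI hJ, div_eq_one] at h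
  obtain ⟨x, y, hx, hy, hxy⟩ := (cls_eq_iff hI hJ).1 h
  have hx' : Ideal.span {x} ≠ ⊥ := fun h => hx (Ideal.span_singleton_eq_bot.1 h)
  have hy' : Ideal.span {y} ≠ ⊥ := fun h => hy (Ideal.span_singleton_eq_bot.1 h)
  refine ⟨y, x, hy, hx, ?_⟩
  have h1 := congrArg dI hxy
  rw [dI_mul hx' hI, dI_mul hy' hJ] at h1
  rw [sub_eq_sub_iff_add_eq_add, add_comm (dI I), h1]

end dedekind

section functoriality

variable {R : Type} [CommRing R] [IsDedekindDomain R]

/-- the action of an automorphism on the maximal ideals -/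
noncomputable def hm (ψ : R ≃+* R) (v : XX R) : XX R where
  asIdeal := v.asIdeal.map ψ
  isPrime := Ideal.map_isPrime_of_equiv ψ
  ne_bot := map_ne_bot ψ v.ne_bot

theorem hm_asIdeal (ψ : R ≃+* R) (v : XX R) : (hm ψ v).asIdeal = v.asIdeal.map ψ := rfl

theorem hm_hm (ψ ψ' ψ'' : R ≃+* R) (h : ∀ b, ψ'' b = ψ' (ψ b)) (v : XX R) :
    hm ψ' (hm ψ v) = hm ψ'' v :=
  IsDedekindDomain.HeightOneSpectrum.ext (map_map_equiv ψ ψ' ψ'' h v.asIdeal)

theorem hm_id (ψ : R ≃+* R) (h : ∀ b, ψ b = b) (v : XX R) : hm ψ v = v := by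
  have e : ψ = RingEquiv.refl R := RingEquiv.ext h
  refine IsDedekindDomain.HeightOneSpectrum.ext ?_
  rw [hm_asIdeal, e]
  exact Ideal.map_id _

theorem hm_inj (ψ : R ≃+* R) : Function.Injective (hm ψ) := by
  intro v w h
  have h1 : hm ψ.symm (hm ψ v) = hm ψ.symm (hm ψ w) := by rw [h]
  rw [hm_hm ψ ψ.symm (RingEquiv.refl R) (fun b => (ψ.symm_apply_apply b).symm),
    hm_hm ψ ψ.symm (RingEquiv.refl R) (fun b => (ψ.symm_apply_apply b).symm),
    hm_id _ (fun _ => rfl), hm_id _ (fun _ => rfl)] at h1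
  exact h1

theorem hm_surj (ψ : R ≃+* R) : Function.Surjective (hm ψ) := by
  intro v
  refine ⟨hm ψ.symm v, ?_⟩
  rw [hm_hm ψ.symm ψ (RingEquiv.refl R) (fun b => (ψ.apply_symm_apply b).symm),
    hm_id _ (fun _ => rfl)]

theorem dI_map (ψ : R ≃+* R) {I : Ideal R} (hI : I ≠ ⊥) :
    dI (I.map ψ) = (dI I).mapDomain (hm ψ) := by
  have key : ∀ I : Ideal R, I ≠ 0 → dI (I.map ψ) = (dI I).mapDomain (hm ψ) := by
    intro I hI
    induction I using UniqueFactorizationMonoid.induction_on_prime with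
    | h₁ => exact absurd rfl hI
    | h₂ I h =>
      have : I = ⊤ := by rwa [Ideal.isUnit_iff] at h
      subst this
      rw [Ideal.map_top, dI_top, Finsupp.mapDomain_zero]
    | h₃ I p hI0 hp ih =>
      have hp0 : p ≠ ⊥ := hp.ne_zero
      rw [Ideal.map_mul, dI_mul (map_ne_bot ψ hp0) (map_ne_bot ψ hI0), dI_mul hp0 hI0, ih hI0,
        Finsupp.mapDomain_add]
      congr 1
      have h1 := dI_prime (⟨p, Ideal.isPrime_of_prime hp, hp0⟩ : XX R)
      change dI p = _ at h1
      rw [h1, Finsupp.mapDomain_single]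
      exact dI_prime (hm ψ ⟨p, Ideal.isPrime_of_prime hp, hp0⟩)
  exact key I hI

theorem cD_map (ψ : R ≃+* R) (D : XX R →₀ ℤ) : cD (D.mapDomain (hm ψ)) = clm ψ (cD D) := by
  obtain ⟨I, J, hI, hJ, rfl⟩ := exists_sub D
  rw [sub_eq_add_neg, Finsupp.mapDomain_add, ← sub_eq_add_neg, cD_sub, map_div, cD_dI hI, cD_dI hJ,
    clm_cls ψ hI, clm_cls ψ hJ, ← cD_dI (map_ne_bot ψ hI), ← cD_dI (map_ne_bot ψ hJ),
    dI_map ψ hI, dI_map ψ hJ]
  have e : Finsupp.mapDomain (hm ψ) (-dI J) = -Finsupp.mapDomain (hm ψ) (dI J) := by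
    rw [← Finsupp.mapDomain.addMonoidHom_apply, ← Finsupp.mapDomain.addMonoidHom_apply, map_neg]
  rw [e, ← sub_eq_add_neg, cD_sub]

end functoriality

end TIFL
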