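import Mathlib
import Pool.Agent.TIFL.Div
import Pool.Agent.TIFC.Defs

/-!
# [TIF LINK] the divisors of the elements of the quotient field
-/

set_option autoImplicit false
set_option linter.unusedSectionVars false

open SUP

namespace TIFL

section dv

variable {R : Type} [CommRing R] [IsDedekindDomain R] {M : Type} [Field M]

open Classical in
/-- the divisor of a quotient of elements of `ev R` -/
noncomputable def dv (ev : R →+* M) (e : Mˣ) : XX R →₀ ℤ :=
  if h : ∃ p : R × R, p.1 ≠ 0 ∧ p.2 ≠ 0 ∧ ev p.1 = e * ev p.2 then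
    dI (Ideal.span {h.choose.1}) - dI (Ideal.span {h.choose.2}) else 0

theorem span_ne {u : R} (hu : u ≠ 0) : Ideal.span {u} ≠ ⊥ :=
  fun h => hu (Ideal.span_singleton_eq_bot.1 h)

theorem dI_span_mul {u w : R} (hu : u ≠ 0) (hw : w ≠ 0) :
    dI (Ideal.span {u * w}) = dI (Ideal.span {u}) + dI (Ideal.span {w}) := by
  rw [← Ideal.span_singleton_mul_span_singleton, dI_mul (span_ne hu) (span_ne hw)]

variable {ev : R →+* M} (hinj : Function.Injective ev)

include hinj

theorem dv_eq {e : Mˣ} {u w : R} (hu : u ≠ 0) (hw : w ≠ 0) (h : ev u = e * ev w) :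
    dv ev e = dI (Ideal.span {u}) - dI (Ideal.span {w}) := by
  have hex : ∃ p : R × R, p.1 ≠ 0 ∧ p.2 ≠ 0 ∧ ev p.1 = e * ev p.2 := ⟨(u, w), hu, hw, h⟩
  unfold dv
  rw [dif_pos hex]
  obtain ⟨h1, h2, h3⟩ := hex.choose_spec
  have h4 : hex.choose.1 * w = u * hex.choose.2 := by
    apply hinj
    rw [map_mul, map_mul, h3, h]
    ring
  have h5 := congrArg (fun z : R => dI (Ideal.span {z})) h4
  simp only [dI_span_mul h1 hw, dI_span_mul hu h2] at h5
  rw [sub_eq_sub_iff_add_eq_add, h5]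

theorem dv_mul {e f : Mˣ} {u w u' w' : R} (hu : u ≠ 0) (hw : w ≠ 0) (h : ev u = e * ev w)
    (hu' : u' ≠ 0) (hw' : w' ≠ 0) (h' : ev u' = f * ev w') : dv ev (e * f) = dv ev e + dv ev f := by
  rw [dv_eq hinj hu hw h, dv_eq hinj hu' hw' h', dv_eq hinj (mul_ne_zero hu hu')
    (mul_ne_zero hw hw') (e := e * f) (by rw [map_mul, map_mul, h, h', Units.val_mul]; ring),
    dI_span_mul hu hu', dI_span_mul hw hw']
  abel

theorem dv_zero {e : Mˣ} {u w : R} (hu : u ≠ 0) (hw : w ≠ 0) (h : ev u = e * ev w) :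
    dv ev e = 0 ↔ ∃ c : R, IsUnit c ∧ (e : M) = ev c := by
  rw [dv_eq hinj hu hw h, sub_eq_zero]
  constructor
  · intro h1
    have h2 := dI_inj (span_ne hu) (span_ne hw) h1
    obtain ⟨c, hc⟩ := (Ideal.span_singleton_eq_span_singleton.1 h2).symm
    refine ⟨c, c.isUnit, ?_⟩
    have hw' : ev w ≠ 0 := (map_ne_zero_iff ev hinj).2 hw
    apply mul_right_cancel₀ hw'
    rw [← h, ← hc, map_mul, mul_comm]
  · rintro ⟨c, hc, hec⟩
    congr 1
    rw [hec, ← map_mul] at h
    have h3 : u = c * w := hinj h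
    rw [h3, Ideal.span_singleton_eq_span_singleton]
    exact ⟨hc.unit⁻¹, by
      rw [mul_comm (c * w), ← mul_assoc]
      rw [IsUnit.val_inv_mul, one_mul]⟩

theorem cD_dv {e : Mˣ} {u w : R} (hu : u ≠ 0) (hw : w ≠ 0) (h : ev u = e * ev w) :
    cD (dv ev e) = 1 := by
  rw [dv_eq hinj hu hw h, cD_sub, cD_dI (span_ne hu), cD_dI (span_ne hw), cls_span hu, cls_span hw,
    div_one]

end dv

/-! ### places -/

section places

variable {R : Type} [CommRing R] [IsDedekindDomain R] {M : Type} [Field M]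

theorem le_of_dI_le {I J : Ideal R} (hI : I ≠ ⊥) (hJ : J ≠ ⊥) (h : dI I ≤ dI J) : J ≤ I := by
  obtain ⟨K, hK, hK'⟩ := dI_surj (dI J - dI I) (sub_nonneg.2 h)
  have h1 : J = I * K := by
    apply dI_inj hJ (mul_ne_zero hI hK)
    rw [dI_mul hI hK, hK', add_sub_cancel]
  rw [h1]
  exact Ideal.mul_le_left (I := I) (J := K)

/-- the quotient `u / w` is a quotient `t / s` with `s` not in the maximal ideal -/
theorem exists_frac (x : XX R) {u w : R} (hu : u ≠ 0) (hw : w ≠ 0)
    (h : dI (Ideal.span {w}) x ≤ dI (Ideal.span {u}) x) :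
    ∃ s t : R, s ∉ x.asIdeal ∧ s * u = t * w ∧
      (dI (Ideal.span {w}) x = dI (Ideal.span {u}) x ↔ t ∉ x.asIdeal) := by
  classical
  obtain ⟨J, hJ, hJ'⟩ := dI_surj (dI (Ideal.span {w}) - Finsupp.single x (dI (Ideal.span {w}) x))
    (by
      intro v
      rw [Finsupp.sub_apply, Finsupp.single_apply]
      by_cases hv : x = v
      · subst hv
        rw [if_pos rfl, sub_self]
        exact le_refl _
      · rw [if_neg hv, sub_zero]
        exact dI_nonneg _ v)
  have hx : dI J x = 0 := by rw [hJ', Finsupp.sub_apply, Finsupp.single_eq_same, sub_self]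
  have hJx : ¬ J ≤ x.asIdeal := by
    intro hle
    rw [dI_apply hJ] at hx
    have h1 := (mI_ne_zero_iff hJ x).2 hle
    exact h1 (by exact_mod_cast hx)
  obtain ⟨s, hsJ, hsx⟩ := SetLike.not_le_iff_exists.1 hJx
  have hs : s ≠ 0 := fun h0 => hsx (h0 ▸ x.asIdeal.zero_mem)
  have h2 : dI (Ideal.span {w}) ≤ dI (Ideal.span {s * u}) := by
    rw [dI_span_mul hs hu]
    intro v
    rw [Finsupp.add_apply]
    by_cases hv : v = x
    · subst hv
      have := dI_nonneg (Ideal.span {s}) v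
      rw [Finsupp.coe_zero, Pi.zero_apply] at this
      omega
    · have h3 : dI J v ≤ dI (Ideal.span {s}) v := by
        have h4 : Ideal.span {s} ≤ J := (Ideal.span_singleton_le_iff_mem _).2 hsJ
        obtain ⟨K, hK⟩ := Ideal.dvd_iff_le.2 h4
        have hK0 : K ≠ ⊥ := by
          intro hK0
          rw [hK0, Ideal.mul_bot] at hK
          exact span_ne hs hK
        rw [hK, dI_mul hJ hK0, Finsupp.add_apply]
        have := dI_nonneg K v
        rw [Finsupp.coe_zero, Pi.zero_apply] at this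
        omega
      rw [hJ', Finsupp.sub_apply, Finsupp.single_apply, if_neg (Ne.symm hv), sub_zero] at h3
      have := dI_nonneg (Ideal.span {u}) v
      rw [Finsupp.coe_zero, Pi.zero_apply] at this
      omega
  have h3 := le_of_dI_le (span_ne hw) (span_ne (mul_ne_zero hs hu)) h2
  obtain ⟨t, ht⟩ := Ideal.mem_span_singleton.1 (h3 (Ideal.mem_span_singleton_self _))
  have ht' : s * u = t * w := by rw [ht, mul_comm]
  have ht0 : t ≠ 0 := by
    rintro rfl
    rw [zero_mul] at ht'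
    exact mul_ne_zero hs hu ht'
  refine ⟨s, t, hsx, ht', ?_⟩
  have h4 := congrArg (fun z : R => dI (Ideal.span {z}) x) ht'
  simp only [dI_span_mul hs hu, dI_span_mul ht0 hw, Finsupp.add_apply] at h4
  have hm : ∀ z : R, z ≠ 0 → (dI (Ideal.span {z}) x = 0 ↔ z ∉ x.asIdeal) := by
    intro z hz
    rw [dI_apply (span_ne hz)]
    have h5 := mI_ne_zero_iff (span_ne hz) x
    rw [Ideal.span_singleton_le_iff_mem] at h5
    constructor
    · intro h6 h7
      exact h5.2 h7 (by exact_mod_cast h6)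
    · intro h6
      by_contra h7
      exact h6 (h5.1 (by exact_mod_cast h7))
  have h5 : dI (Ideal.span {s}) x = 0 := (hm s hs).2 hsx
  rw [h5, zero_add] at h4
  rw [← hm t ht0]
  omega

theorem mem_unit_iff (V : ValuationSubring M) (e : Mˣ) :
    e ∈ V.unitGroup ↔ (e : M) ∈ V ∧ ((e⁻¹ : Mˣ) : M) ∈ V := by
  constructor
  · intro h
    have h' : e⁻¹ ∈ V.unitGroup := V.unitGroup.inv_mem h
    rw [ValuationSubring.mem_unitGroup_iff] at h h'
    rw [← ValuationSubring.valuation_le_one_iff, ← ValuationSubring.valuation_le_one_iff]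
    exact ⟨h.le, h'.le⟩
  · rintro ⟨h, h'⟩
    rw [ValuationSubring.mem_unitGroup_iff]
    exact (ValuationSubring.valuation_eq_one_iff V ⟨e, h⟩).1
      (IsUnit.of_mul_eq_one ⟨((e⁻¹ : Mˣ) : M), h'⟩ (Subtype.ext (Units.mul_inv e)))

/-- the valuation ring of a maximal ideal -/
theorem exists_place {ev : R →+* M} (hinj : Function.Injective ev) (x : XX R) :
    ∃ V : ValuationSubring M, (∀ r, ev r ∈ V) ∧ V ≠ ⊤ ∧
      ∀ (e : Mˣ) (u w : R), u ≠ 0 → w ≠ 0 → ev u = e * ev w →
        (e ∈ V.unitGroup ↔ dv ev e x = 0) := by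
  let S : Subring M := ev.range
  let q : Ideal S := x.asIdeal.map ev.rangeRestrict
  have hsur : Function.Surjective ev.rangeRestrict := ev.rangeRestrict_surjective
  have hq : ∀ r : R, (⟨ev r, ⟨r, rfl⟩⟩ : S) ∈ q ↔ r ∈ x.asIdeal := by
    intro r
    have h1 : (⟨ev r, ⟨r, rfl⟩⟩ : S) = ev.rangeRestrict r := rfl
    rw [h1, Ideal.mem_map_iff_of_surjective _ hsur]
    constructor
    · rintro ⟨r', hr', h⟩
      have : r' = r := hinj (congrArg Subtype.val h)
      rwa [← this]
    · intro h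
      exact ⟨r, h, rfl⟩
  have hqp : q.IsPrime := by
    refine Ideal.map_isPrime_of_surjective hsur ?_
    rw [(RingHom.ker_eq_bot_iff_eq_zero _).2]
    · exact bot_le
    · intro r hr
      apply hinj
      rw [map_zero]
      exact congrArg Subtype.val hr
  obtain ⟨V, hV⟩ := LocalSubring.exists_le_valuationSubring (LocalSubring.ofPrime S q)
  have hle : S ≤ V.toSubring :=
    le_trans (LocalSubring.le_ofPrime S q) (LocalSubring.toSubring_mono hV)
  have hmem : ∀ r, ev r ∈ V := fun r => hle ⟨r, rfl⟩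
  have hne : ∀ r : R, r ≠ 0 → ev r ≠ 0 := fun r hr => (map_ne_zero_iff ev hinj).2 hr
  have hunit : ∀ r, r ∉ x.asIdeal → (ev r)⁻¹ ∈ V := by
    intro r hr
    have hr0 : r ≠ 0 := fun h => hr (h ▸ x.asIdeal.zero_mem)
    have h1 : IsUnit (algebraMap S (LocalSubring.ofPrime S q).toSubring ⟨ev r, ⟨r, rfl⟩⟩) :=
      (IsLocalization.AtPrime.isUnit_to_map_iff _ q _).2 (fun h => hr ((hq r).1 h))
    obtain ⟨y, hy⟩ := h1.exists_right_inv
    have h2 : ev r * (y : M) = 1 := congrArg Subtype.val hy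
    have h3 : (y : M) = (ev r)⁻¹ := (eq_inv_of_mul_eq_one_right h2)
    rw [← h3]
    exact LocalSubring.toSubring_mono hV y.2
  have hnon : ∀ r, r ∈ x.asIdeal → r ≠ 0 → (ev r)⁻¹ ∉ V := by
    intro r hr hr0 hcon
    obtain ⟨h1, h2⟩ := LocalSubring.le_def.1 hV
    let z : (LocalSubring.ofPrime S q).toSubring :=
      algebraMap S (LocalSubring.ofPrime S q).toSubring ⟨ev r, ⟨r, rfl⟩⟩
    have h3 : IsUnit (Subring.inclusion h1 z) := by
      refine IsUnit.of_mul_eq_one ⟨(ev r)⁻¹, hcon⟩ ?_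
      exact Subtype.ext (mul_inv_cancel₀ (hne r hr0))
    have h4 : IsUnit z := h2.map_nonunit z h3
    exact (IsLocalization.AtPrime.isUnit_to_map_iff _ q _).1 h4 ((hq r).2 hr)
  refine ⟨V, hmem, ?_, ?_⟩
  · obtain ⟨r, hr, hr0⟩ := Submodule.exists_mem_ne_zero_of_ne_bot x.ne_bot
    intro htop
    exact hnon r hr hr0 (htop ▸ ValuationSubring.mem_top _)
  · -- first the case of a nonnegative order
    have key : ∀ (e : Mˣ) (u w : R), u ≠ 0 → w ≠ 0 → ev u = e * ev w →
        dI (Ideal.span {w}) x ≤ dI (Ideal.span {u}) x →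
          (e ∈ V.unitGroup ↔ dv ev e x = 0) := by
      intro e u w hu hw h hle
      obtain ⟨s, t, hs, hst, hiff⟩ := exists_frac x hu hw hle
      have hs0 : s ≠ 0 := fun h => hs (h ▸ x.asIdeal.zero_mem)
      have h1 : dv ev e x = 0 ↔ t ∉ x.asIdeal := by
        rw [← hiff, dv_eq hinj hu hw h, Finsupp.sub_apply]
        constructor <;> intro h <;> omega
      have ht0 : t ≠ 0 := by
        rintro rfl
        rw [zero_mul] at hst
        exact mul_ne_zero hs0 hu hst
      have h2 : (e : M) = ev t * (ev s)⁻¹ := by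
        rw [eq_mul_inv_iff_mul_eq₀ (hne s hs0)]
        apply mul_right_cancel₀ (hne w hw)
        rw [← map_mul, ← hst, map_mul, h]
        ring
      have h3 : ((e⁻¹ : Mˣ) : M) = ev s * (ev t)⁻¹ := by
        rw [Units.val_inv_eq_inv_val, h2, mul_inv, inv_inv, mul_comm]
      rw [h1, mem_unit_iff, h2, h3]
      have hsV : (ev s)⁻¹ ∈ V := hunit s hs
      constructor
      · rintro ⟨-, h4⟩ htx
        apply hnon t htx ht0
        have h5 := V.mul_mem _ _ h4 hsV
        rwa [mul_comm (ev s), mul_assoc, mul_inv_cancel₀ (hne s hs0), mul_one] at h5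
      · intro ht
        exact ⟨V.mul_mem _ _ (hmem t) hsV, V.mul_mem _ _ (hmem s) (hunit t ht)⟩
    intro e u w hu hw h
    rcases le_total (dI (Ideal.span {w}) x) (dI (Ideal.span {u}) x) with hle | hle
    · exact key e u w hu hw h hle
    · have h' : ev w = ((e⁻¹ : Mˣ) : M) * ev u := by
        rw [h, ← mul_assoc, Units.inv_mul, one_mul]
      have h1 := key e⁻¹ w u hw hu h' hle
      rw [inv_mem_iff, dv_eq hinj hw hu h', Finsupp.sub_apply] at h1
      rw [h1, dv_eq hinj hu hw h, Finsupp.sub_apply]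
      constructor <;> intro h <;> omega

end places

end TIFL
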