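import Mathlib
import Pool.Agent.TIFL.Dv
import Pool.Agent.TIFC.Defs

/-!
# [TIF LINK] the package of a Dedekind domain
-/

set_option autoImplicit false
set_option linter.unusedSectionVars false

open SUP Pool.Agent.TBR Pool.Agent.TIFC

namespace TIFL

section

variable {k M : Type} [Field k] [Field M] [Algebra k M] {R : Type} [CommRing R]
  [IsDedekindDomain R]

/-- `ev` embeds the ring `R` of functions into `E`, with quotient field `E`; the units are the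
elements of `A`; the group `N` acts on `R` by `ρ` -/
structure Pk (A E : IntermediateField k M) (N : Subgroup (M ≃ₐ[k] M)) (ev : R →+* M)
    (ρ : (M ≃ₐ[k] M) → R ≃+* R) : Prop where
  inj : Function.Injective ev
  mem : ∀ r, ev r ∈ E
  quo : ∀ x ∈ E, ∃ u w : R, w ≠ 0 ∧ ev u = x * ev w
  con : ∀ a ∈ A, ∃ r, ev r = a
  uni : ∀ r, IsUnit r → ev r ∈ A
  act : ∀ σ ∈ N, ∀ r, ev (ρ σ r) = σ (ev r)
  lev : ∀ r, ∃ S : Finset M, (S : Set M) ⊆ A ∧ ∀ σ ∈ N, ∀ τ ∈ N, Ag (S : Set M) σ τ →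
    ρ σ r = ρ τ r

variable {A E : IntermediateField k M} {N : Subgroup (M ≃ₐ[k] M)} {ev : R →+* M}
  {ρ : (M ≃ₐ[k] M) → R ≃+* R}

theorem Pk.quo' (h : Pk A E N ev ρ) (e : Mˣ) (he : (e : M) ∈ E) :
    ∃ u w : R, u ≠ 0 ∧ w ≠ 0 ∧ ev u = e * ev w := by
  obtain ⟨u, w, hw, hu⟩ := h.quo e he
  refine ⟨u, w, ?_, hw, hu⟩
  intro h0
  rw [h0, map_zero] at hu
  have h1 : ev w ≠ 0 := (map_ne_zero_iff ev h.inj).2 hw
  exact mul_ne_zero e.ne_zero h1 hu.symm

theorem Pk.mono {N' : Subgroup (M ≃ₐ[k] M)} (h : Pk A E N ev ρ) (hN : N' ≤ N) :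
    Pk A E N' ev ρ where
  inj := h.inj
  mem := h.mem
  quo := h.quo
  con := h.con
  uni := h.uni
  act σ hσ := h.act σ (hN hσ)
  lev r := by
    obtain ⟨S, hS, h'⟩ := h.lev r
    exact ⟨S, hS, fun σ hσ τ hτ => h' σ (hN hσ) τ (hN hτ)⟩

theorem Pk.act_ne (_h : Pk A E N ev ρ) (σ : M ≃ₐ[k] M) {u : R} (hu : u ≠ 0) : ρ σ u ≠ 0 := by
  rw [Ne, EmbeddingLike.map_eq_zero_iff]
  exact hu

theorem Pk.hm_lev (h : Pk A E N ev ρ) (x : XX R) : ∃ S : Finset M, (S : Set M) ⊆ A ∧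
    ∀ σ ∈ N, ∀ τ ∈ N, Ag (S : Set M) σ τ → hm (ρ σ) x = hm (ρ τ) x := by
  classical
  obtain ⟨t, ht⟩ := (isNoetherianRing_iff_ideal_fg R).1 inferInstance x.asIdeal
  choose S hS hS' using h.lev
  refine ⟨t.biUnion S, ?_, ?_⟩
  · intro y hy
    obtain ⟨r, -, hr⟩ := Finset.mem_biUnion.1 hy
    exact hS r hr
  · intro σ hσ τ hτ hst
    refine IsDedekindDomain.HeightOneSpectrum.ext ?_
    rw [hm_asIdeal, hm_asIdeal, ← ht, Ideal.map_span, Ideal.map_span]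
    congr 1
    refine Set.image_congr fun r hr => ?_
    exact hS' r σ hσ τ hτ fun y hy => hst y (Finset.mem_biUnion.2 ⟨r, hr, hy⟩)

theorem Pk.cv (h : Pk A E N ev ρ) :
    Cv A E N (fun σ => hm (ρ σ)) (fun σ => clm (ρ σ)) (dv ev) cD where
  dv_mul e f he hf := by
    obtain ⟨u, w, hu, hw, h1⟩ := h.quo' e he
    obtain ⟨u', w', hu', hw', h1'⟩ := h.quo' f hf
    exact dv_mul h.inj hu hw h1 hu' hw' h1'
  dv_zero e he := by
    obtain ⟨u, w, hu, hw, h1⟩ := h.quo' e he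
    rw [dv_zero h.inj hu hw h1]
    constructor
    · rintro ⟨c, hc, hec⟩
      rw [hec]
      exact h.uni c hc
    · intro heA
      obtain ⟨r, hr⟩ := h.con e heA
      obtain ⟨s, hs⟩ := h.con _ (A.inv_mem heA)
      refine ⟨r, IsUnit.of_mul_eq_one s (h.inj ?_), hr.symm⟩
      rw [map_mul, hr, hs, map_one, mul_inv_cancel₀ e.ne_zero]
  cD_add := cD_add
  cD_one D := by
    constructor
    · intro hD
      obtain ⟨u, w, hu, hw, hD'⟩ := exists_of_cD hD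
      have hu' : ev u ≠ 0 := (map_ne_zero_iff ev h.inj).2 hu
      have hw' : ev w ≠ 0 := (map_ne_zero_iff ev h.inj).2 hw
      refine ⟨Units.mk0 (ev u / ev w) (div_ne_zero hu' hw'),
        div_mem (h.mem u) (h.mem w), ?_⟩
      rw [hD', dv_eq h.inj hu hw]
      rw [Units.val_mk0, div_mul_cancel₀ _ hw']
    · rintro ⟨e, he, rfl⟩
      obtain ⟨u, w, hu, hw, h1⟩ := h.quo' e he
      exact cD_dv h.inj hu hw h1
  cD_sur := cD_surj
  xa_one x := by
    refine hm_id _ (fun r => h.inj ?_) x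
    rw [h.act 1 N.one_mem]
    rfl
  xa_mul σ hσ τ hτ x := by
    refine (hm_hm (ρ τ) (ρ σ) (ρ (σ * τ)) (fun r => h.inj ?_) x).symm
    rw [h.act _ (N.mul_mem hσ hτ), h.act σ hσ, h.act τ hτ]
    rfl
  dv_act σ hσ e he := by
    obtain ⟨u, w, hu, hw, h1⟩ := h.quo' e he
    have h2 : ev (ρ σ u) = ((σ • e : Mˣ) : M) * ev (ρ σ w) := by
      rw [h.act σ hσ, h.act σ hσ, h1, map_mul]
      rfl
    have e1 : ∀ D D' : XX R →₀ ℤ, Finsupp.mapDomain (hm (ρ σ)) (D - D') =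
        Finsupp.mapDomain (hm (ρ σ)) D - Finsupp.mapDomain (hm (ρ σ)) D' := by
      intro D D'
      rw [← Finsupp.mapDomain.addMonoidHom_apply, ← Finsupp.mapDomain.addMonoidHom_apply,
        ← Finsupp.mapDomain.addMonoidHom_apply, map_sub]
    rw [dv_eq h.inj hu hw h1, dv_eq h.inj (h.act_ne σ hu) (h.act_ne σ hw) h2, e1,
      ← dI_map _ (span_ne hu), ← dI_map _ (span_ne hw), Ideal.map_span, Ideal.map_span,
      Set.image_singleton, Set.image_singleton]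
  cD_act σ _ D := cD_map (ρ σ) D
  xa_lc := h.hm_lev
  pl x := by
    obtain ⟨V, h1, h2, h3⟩ := exists_place h.inj x
    refine ⟨V, ?_, h2, ?_⟩
    · intro a ha
      obtain ⟨r, rfl⟩ := h.con a ha
      exact h1 r
    · intro e he
      obtain ⟨u, w, hu, hw, h4⟩ := h.quo' e he
      exact h3 e u w hu hw h4

end

end TIFL
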