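import Mathlib
import Pool.Agent.TIFL.Pk
import Pool.Agent.MP_c1dca2_ag.GT.A10
import Pool.Agent.TIF.Defs

/-!
# [TIF LINK] the rings `WB T_F` for the intermediate fields `F` of `M / k` and a point with
coordinates in `M`
-/

set_option autoImplicit false
set_option linter.unusedSectionVars false

open Polynomial GT Pool.Agent.TBR Pool.Agent.TIFC

namespace TIFL

section

variable {k M : Type} [Field k] [Field M] [Algebra k M] {d : ℕ} [NeZero d] (T₀ : Tab k d)

/-- the table over `F` -/
noncomputable abbrev TF (F : IntermediateField k M) : Tab F d := T₀.map (algebraMap k F)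

/-- the ring of functions over `F` -/
abbrev RF (F : IntermediateField k M) : Type := WB (TF T₀ F)

open Classical in
/-- the restriction of an automorphism of `M` to `F` (if `F` is preserved) -/
noncomputable def res (F : IntermediateField k M) (σ : M ≃ₐ[k] M) : F ≃ₐ[k] F :=
  if h : ∀ x, σ x ∈ F ↔ x ∈ F then
    AlgEquiv.ofBijective
      (((σ : M →ₐ[k] M).comp F.val).codRestrict F.toSubalgebra
        (fun x => (h x).2 x.2) : F →ₐ[k] F.toSubalgebra)
      ⟨fun x y hxy => Subtype.ext (σ.injective (congrArg Subtype.val hxy)),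
        fun y => ⟨⟨σ.symm y, (h _).1 (by rw [σ.apply_symm_apply]; exact y.2)⟩,
          Subtype.ext (σ.apply_symm_apply _)⟩⟩
  else AlgEquiv.refl

theorem res_coe {F : IntermediateField k M} {σ : M ≃ₐ[k] M} (h : ∀ x, σ x ∈ F ↔ x ∈ F) (x : F) :
    ((res F σ x : F) : M) = σ x := by
  unfold res
  rw [dif_pos h]
  rfl

variable {T₀}

theorem TF_map {F : Type} [Field F] [Algebra k F] (g : F ≃ₐ[k] F) :
    (T₀.map (algebraMap k F)).map ((g : F ≃+* F) : F →+* F) = T₀.map (algebraMap k F) := by
  rw [Tab.map_map]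
  congr 1
  ext x
  exact g.commutes x

variable (T₀) in
/-- the action of the automorphisms of `M` on the functions -/
noncomputable def ra (F : IntermediateField k M) (σ : M ≃ₐ[k] M) : RF T₀ F ≃+* RF T₀ F :=
  bE ((res F σ : F ≃ₐ[k] F) : F ≃+* F) (TF_map (res F σ))

theorem ra_co {F : IntermediateField k M} (σ : M ≃ₐ[k] M) (b : RF T₀ F) (j : ZMod d) :
    (ra T₀ F σ b).co j = (b.co j).map (((res F σ : F ≃ₐ[k] F) : F ≃+* F) : F →+* F) := rfl

/-- the field of the coordinates of a point -/
noncomputable def cor (P : WB T₀ →ₐ[k] M) : IntermediateField k M :=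
  IntermediateField.adjoin k (Set.range P)

theorem solF (F : IntermediateField k M) (P : WB T₀ →ₐ[k] M) :
    Sol (TF T₀ F) (algebraMap F M) (P (WB.x T₀)) (fun j => P (WB.f T₀ j)) :=
  Sol.change (T := T₀) (T' := TF T₀ F) (u := algebraMap k F) rfl
    (g' := algebraMap F M) (IsScalarTower.algebraMap_eq k F M).symm
    (sol_of (P : WB T₀ →+* M) (fun r => P.commutes r))

/-- the evaluation of the functions over `F` at the point `P` -/
noncomputable def ev (F : IntermediateField k M) (P : WB T₀ →ₐ[k] M) : RF T₀ F →ₐ[F] M where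
  __ := lift (solF F P)
  commutes' r := lift_algebraMap' _ r

theorem ev_apply (F : IntermediateField k M) (P : WB T₀ →ₐ[k] M) (b : RF T₀ F) :
    ev F P b = ∑ j, (b.co j).eval₂ (algebraMap F M) (P (WB.x T₀)) * P (WB.f T₀ j) := rfl

theorem ev_x (F : IntermediateField k M) (P : WB T₀ →ₐ[k] M) :
    ev F P (WB.x (TF T₀ F)) = P (WB.x T₀) := lift_x (solF F P)

theorem ev_f (F : IntermediateField k M) (P : WB T₀ →ₐ[k] M) (j : ZMod d) :
    ev F P (WB.f (TF T₀ F) j) = P (WB.f T₀ j) := lift_f (solF F P) j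

theorem ev_algebraMap (F : IntermediateField k M) (P : WB T₀ →ₐ[k] M) (p : F[X]) :
    ev F P (algebraMap F[X] (RF T₀ F) p) = p.eval₂ (algebraMap F M) (P (WB.x T₀)) :=
  lift_algebraMap (solF F P) p

end

end TIFL
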