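import Mathlib
import Pool.Agent.TIFL.D

/-!
# [TIF LINK] the package of `WB T_F` and a point which is generic over `F`
-/

set_option autoImplicit false
set_option linter.unusedSectionVars false

open Polynomial GT Pool.Agent.TBR Pool.Agent.TIFC

namespace TIFL

section

variable {k M : Type} [Field k] [Field M] [Algebra k M] {d : ℕ} [NeZero d] {T₀ : Tab k d}

theorem ev_inj {F : IntermediateField k M} {P : WB T₀ →ₐ[k] M}
    (hP : Transcendental F (P (WB.x T₀))) : Function.Injective (ev F P) := by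
  have hint : Algebra.IsIntegral F[X] (RF T₀ F) := inferInstance
  have hdom : IsDomain (RF T₀ F) := inferInstance
  have h1 : RingHom.ker (ev F P) = ⊥ := by
    refine Ideal.eq_bot_of_comap_eq_bot (R := F[X]) ?_
    rw [eq_bot_iff]
    intro p hp
    rw [Ideal.mem_comap, RingHom.mem_ker, ev_algebraMap] at hp
    rw [Ideal.mem_bot]
    by_contra hne
    exact hP ⟨p, hne, hp⟩
  exact (RingHom.injective_iff_ker_eq_bot (ev F P : RF T₀ F →+* M)).2 h1

theorem eval₂_mem {F : Type} [Field F] [Algebra F M] (E : IntermediateField k M)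
    (hF : ∀ a : F, algebraMap F M a ∈ E) {x : M} (hx : x ∈ E) (p : F[X]) :
    p.eval₂ (algebraMap F M) x ∈ E := by
  induction p using Polynomial.induction_on' with
  | add p q hp hq => rw [eval₂_add]; exact E.add_mem hp hq
  | monomial n a => rw [eval₂_monomial]; exact E.mul_mem (hF a) (pow_mem hx n)

theorem le_AA (F : IntermediateField k M) (S : Set M) : F ≤ AA F S := le_sup_left

theorem subset_AA (F : IntermediateField k M) (S : Set M) : S ⊆ AA F S :=
  fun _ hx => (le_sup_right : IntermediateField.adjoin k S ≤ AA F S)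
    (IntermediateField.subset_adjoin k S hx)

theorem ev_mem (F : IntermediateField k M) (P : WB T₀ →ₐ[k] M) (b : RF T₀ F) :
    ev F P b ∈ AA F (Set.range P) := by
  rw [ev_apply]
  refine sum_mem fun j _ => mul_mem (eval₂_mem _ (fun a => le_AA F _ a.2) ?_ _) ?_
  · exact subset_AA F _ ⟨_, rfl⟩
  · exact subset_AA F _ ⟨_, rfl⟩

/-- the inclusion of the functions over `k` -/
noncomputable def b0 (F : IntermediateField k M) : WB T₀ →+* RF T₀ F := bmap (algebraMap k F) rfl

theorem ev_b0 (F : IntermediateField k M) (P : WB T₀ →ₐ[k] M) (b : WB T₀) :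
    ev F P (b0 F b) = P b := by
  have h := lift_unique (T := T₀) (g := algebraMap k M) (P : WB T₀ →+* M) (fun r => P.commutes r) b
  refine Eq.trans ?_ h.symm
  rw [ev_apply, lift_apply]
  refine Finset.sum_congr rfl fun j _ => ?_
  unfold b0
  rw [bmap_co, eval₂_map, ← IsScalarTower.algebraMap_eq]
  rfl

theorem ev_quo {F : IntermediateField k M} {P : WB T₀ →ₐ[k] M}
    (hP : Transcendental F (P (WB.x T₀))) (x : M) (hx : x ∈ AA F (Set.range P)) :
    ∃ u w : RF T₀ F, w ≠ 0 ∧ ev F P u = x * ev F P w := by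
  have hinj := ev_inj hP
  let Q : IntermediateField k M :=
    { carrier := {x | ∃ u w : RF T₀ F, w ≠ 0 ∧ ev F P u = x * ev F P w}
      mul_mem' := by
        rintro x y ⟨u, w, hw, h⟩ ⟨u', w', hw', h'⟩
        exact ⟨u * u', w * w', mul_ne_zero hw hw', by rw [map_mul, map_mul, h, h']; ring⟩
      add_mem' := by
        rintro x y ⟨u, w, hw, h⟩ ⟨u', w', hw', h'⟩
        exact ⟨u * w' + u' * w, w * w', mul_ne_zero hw hw', by
          rw [map_add, map_mul, map_mul, map_mul, h, h']; ring⟩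
      algebraMap_mem' := by
        intro r
        refine ⟨algebraMap F (RF T₀ F) (algebraMap k F r), 1, one_ne_zero, ?_⟩
        rw [map_one, mul_one, AlgHom.commutes, ← IsScalarTower.algebraMap_apply]
      inv_mem' := by
        rintro x ⟨u, w, hw, h⟩
        by_cases hx : x = 0
        · refine ⟨0, 1, one_ne_zero, ?_⟩
          rw [hx, inv_zero, zero_mul, map_zero]
        · have hw' : ev F P w ≠ 0 := (map_ne_zero_iff _ hinj).2 hw
          refine ⟨w, u, ?_, ?_⟩
          · rintro rfl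
            rw [map_zero] at h
            exact mul_ne_zero hx hw' h.symm
          · rw [h, ← mul_assoc, inv_mul_cancel₀ hx, one_mul] }
  have h1 : F ≤ Q := by
    intro a ha
    refine ⟨algebraMap F (RF T₀ F) ⟨a, ha⟩, 1, one_ne_zero, ?_⟩
    rw [map_one, mul_one, AlgHom.commutes]
    rfl
  have h2 : IntermediateField.adjoin k (Set.range P) ≤ Q := by
    rw [IntermediateField.adjoin_le_iff]
    rintro _ ⟨b, rfl⟩
    refine ⟨b0 F b, 1, one_ne_zero, ?_⟩
    rw [map_one, mul_one]
    exact ev_b0 F P b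
  exact (sup_le h1 h2 : AA F (Set.range P) ≤ Q) hx

theorem ev_ra {F : IntermediateField k M} {P : WB T₀ →ₐ[k] M} {σ : M ≃ₐ[k] M}
    (hσ : ∀ x, σ x ∈ F ↔ x ∈ F) (hP : ∀ b, σ (P b) = P b) (b : RF T₀ F) :
    ev F P (ra T₀ F σ b) = σ (ev F P b) := by
  rw [ev_apply, ev_apply, map_sum]
  refine Finset.sum_congr rfl fun j _ => ?_
  have h1 : σ ((b.co j).eval₂ (algebraMap F M) (P (WB.x T₀))) =
      (b.co j).eval₂ (((σ : M ≃+* M) : M →+* M).comp (algebraMap F M)) (σ (P (WB.x T₀))) :=
    Polynomial.hom_eval₂ _ (algebraMap F M) ((σ : M ≃+* M) : M →+* M) _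
  rw [map_mul, hP, h1, hP, ra_co, eval₂_map]
  congr 2
  refine RingHom.ext fun a => ?_
  exact res_coe hσ a

theorem exists_lev {F : IntermediateField k M} (b : RF T₀ F) :
    ∃ S : Finset M, (S : Set M) ⊆ F ∧ ∀ σ τ : M ≃ₐ[k] M, (∀ x, σ x ∈ F ↔ x ∈ F) →
      (∀ x, τ x ∈ F ↔ x ∈ F) → Ag (S : Set M) σ τ → ra T₀ F σ b = ra T₀ F τ b := by
  classical
  refine ⟨Finset.univ.biUnion fun j : ZMod d => (b.co j).support.image
    fun n => (((b.co j).coeff n : F) : M), ?_, ?_⟩
  · intro y hy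
    obtain ⟨j, -, hj⟩ := Finset.mem_biUnion.1 hy
    obtain ⟨n, -, rfl⟩ := Finset.mem_image.1 hj
    exact ((b.co j).coeff n).2
  · intro σ τ hσ hτ hst
    refine WB.ext (funext fun j => ?_)
    rw [ra_co, ra_co]
    ext n
    rw [coeff_map, coeff_map]
    by_cases hn : n ∈ (b.co j).support
    · have h1 := hst (((b.co j).coeff n : F) : M) (Finset.mem_biUnion.2 ⟨j, Finset.mem_univ _,
        Finset.mem_image.2 ⟨n, hn, rfl⟩⟩)
      have h2 := res_coe hσ ((b.co j).coeff n)
      have h3 := res_coe hτ ((b.co j).coeff n)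
      exact (h2.trans (h1.trans h3.symm))
    · rw [notMem_support_iff.1 hn, map_zero, map_zero]

/-- the package of `WB T_F` and a point which is generic over `F` -/
theorem pk {F : IntermediateField k M} [IsDedekindDomain (RF T₀ F)] {P : WB T₀ →ₐ[k] M}
    (hP : Transcendental F (P (WB.x T₀))) {N : Subgroup (M ≃ₐ[k] M)}
    (hF : ∀ σ ∈ N, ∀ x, σ x ∈ F ↔ x ∈ F) (hN : N ≤ Fx k (Set.range P)) :
    Pk F (AA F (Set.range P)) N (ev F P : RF T₀ F →+* M) (ra T₀ F) where
  inj := ev_inj hP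
  mem := ev_mem F P
  quo := ev_quo hP
  con a ha := ⟨algebraMap F (RF T₀ F) ⟨a, ha⟩, by
    rw [RingHom.coe_coe, AlgHom.commutes]
    rfl⟩
  uni r hr := by
    obtain ⟨c, -, rfl⟩ := eq_const_of_isUnit hr
    rw [RingHom.coe_coe, AlgHom.commutes]
    exact c.2
  act σ hσ r := ev_ra (hF σ hσ) (fun b => hN hσ _ ⟨b, rfl⟩) r
  lev r := by
    obtain ⟨S, hS, h⟩ := exists_lev r
    exact ⟨S, hS, fun σ hσ τ hτ => h σ τ (hF σ hσ) (hF τ hτ)⟩

end

end TIFL
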