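import Mathlib
import Pool.Agent.TIFL.E1

/-!
# [TIF LINK] two independent generic points
-/

set_option autoImplicit false
set_option linter.unusedSectionVars false

open Polynomial GT Pool.Agent.TBR Pool.Agent.TIFC

namespace TIFL

section

variable {k M : Type} [Field k] [Field M] [Algebra k M]

/-- the elements algebraic over `L` -/
noncomputable def cl (L : IntermediateField k M) : IntermediateField k M :=
  (algebraicClosure L M).restrictScalars k

theorem mem_cl {L : IntermediateField k M} {x : M} : x ∈ cl L ↔ IsAlgebraic L x :=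
  mem_algebraicClosure_iff

theorem le_cl (L : IntermediateField k M) : L ≤ cl L := fun x hx =>
  mem_cl.2 (isAlgebraic_algebraMap (⟨x, hx⟩ : L))

theorem isAlg_mono {L L' : IntermediateField k M} (h : L ≤ L') {x : M} (hx : IsAlgebraic L x) :
    IsAlgebraic L' x := by
  obtain ⟨p, hp0, hp⟩ := hx
  refine ⟨p.map (IntermediateField.inclusion h : L →+* L'),
    (Polynomial.map_ne_zero_iff (IntermediateField.inclusion_injective h)).2 hp0, ?_⟩
  rw [Polynomial.aeval_def, Polynomial.eval₂_map]
  exact hp

theorem cl_of_le {L L' : IntermediateField k M} (h : L' ≤ cl L) {x : M} (hx : IsAlgebraic L' x) :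
    x ∈ cl L := by
  have h1 : IsAlgebraic (algebraicClosure L M) x := isAlg_mono (L' := cl L) h hx
  exact mem_cl.2 (h1.restrictScalars L)

theorem cl_mono {L L' : IntermediateField k M} (h : L ≤ L') : cl L ≤ cl L' := fun _ hx =>
  mem_cl.2 (isAlg_mono h (mem_cl.1 hx))

theorem cl_cl {L : IntermediateField k M} {x : M} (hx : IsAlgebraic (cl L) x) : x ∈ cl L :=
  cl_of_le le_rfl hx

theorem cl_le_cl {L L' : IntermediateField k M} (h : L ≤ cl L') : cl L ≤ cl L' := fun _ hx =>
  cl_of_le h (mem_cl.1 hx)

instance cl_isAlgClosed [IsAlgClosed M] (L : IntermediateField k M) : IsAlgClosed (cl L) := by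
  have h : IsAlgClosed (algebraicClosure L M) := IsAlgClosure.isAlgClosed (R := L)
  exact h

theorem mem_cl_of_mem_adjoin {L : IntermediateField k M} {S : Set M} (h : S ⊆ cl L) :
    IntermediateField.adjoin k S ≤ cl L := IntermediateField.adjoin_le_iff.2 h

theorem cl_stab {L : IntermediateField k M} {σ : M ≃ₐ[k] M} (h : ∀ x ∈ L, σ x ∈ cl L)
    (h' : ∀ x ∈ L, σ.symm x ∈ cl L) (x : M) : σ x ∈ cl L ↔ x ∈ cl L := by
  have key : ∀ τ : M ≃ₐ[k] M, (∀ x ∈ L, τ x ∈ cl L) → ∀ x ∈ cl L, τ x ∈ cl L := by
    intro τ hτ x hx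
    have h1 : IsAlgebraic (L.map (τ : M →ₐ[k] M)) (τ x) := by
      obtain ⟨p, hp0, hp⟩ := mem_cl.1 hx
      let j : L →+* L.map (τ : M →ₐ[k] M) := (L.intermediateFieldMap τ : L ≃+* L.map (τ : M →ₐ[k] M))
      refine ⟨p.map j, (Polynomial.map_ne_zero_iff j.injective).2 hp0, ?_⟩
      rw [Polynomial.aeval_def, Polynomial.eval₂_map]
      have h2 : (algebraMap (L.map (τ : M →ₐ[k] M)) M).comp j =
          ((τ : M ≃+* M) : M →+* M).comp (algebraMap L M) := rfl
      rw [h2]
      have h3 := Polynomial.hom_eval₂ p (algebraMap L M) ((τ : M ≃+* M) : M →+* M) x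
      refine h3.symm.trans ?_
      have h4 : Polynomial.eval₂ (algebraMap L M) x p = 0 := hp
      rw [h4]
      exact map_zero _
    refine cl_of_le ?_ h1
    rintro _ ⟨y, hy, rfl⟩
    exact hτ y hy
  constructor
  · intro hx
    have := key σ.symm h' _ hx
    rwa [σ.symm_apply_apply] at this
  · exact key σ h x

open scoped IntermediateField.algebraAdjoinAdjoin in
/-- the exchange lemma -/
theorem exchange {x y : M} (hx : Transcendental k x)
    (hy : Transcendental (IntermediateField.adjoin k {x}) y) :
    Transcendental (IntermediateField.adjoin k {y}) x := by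
  have h1 : AlgebraicIndependent k (fun _ : Unit => x) :=
    (algebraicIndependent_singleton_iff ()).2 hx
  have h2 : Transcendental (Algebra.adjoin k (Set.range fun _ : Unit => x)) y := by
    rw [Set.range_const]
    intro h
    apply hy
    obtain ⟨p, hp0, hp⟩ := h
    have hle : Algebra.adjoin k {x} ≤ (IntermediateField.adjoin k {x}).toSubalgebra :=
      IntermediateField.algebra_adjoin_le_adjoin k {x}
    refine ⟨p.map (Subalgebra.inclusion hle : Algebra.adjoin k {x} →+*
      (IntermediateField.adjoin k {x}).toSubalgebra),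
      (Polynomial.map_ne_zero_iff (Subalgebra.inclusion_injective hle)).2 hp0, ?_⟩
    rw [Polynomial.aeval_def, Polynomial.eval₂_map]
    exact hp
  have h3 := (h1.option_iff_transcendental y).2 h2
  have h4 := h3.transcendental_adjoin (s := {none}) (i := some ()) (by simp)
  rw [Set.image_singleton] at h4
  simp only [Option.elim] at h4
  intro h
  apply h4
  exact h.restrictScalars (Algebra.adjoin k {y})

end

end TIFL
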