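import Mathlib
import Pool.Agent.TIFL.E2

/-!
# [TIF LINK] two independent generic points: the situation
-/

set_option autoImplicit false
set_option linter.unusedSectionVars false

open Polynomial GT Pool.Agent.TBR Pool.Agent.TIFC

namespace TIFL

section

variable {k M : Type} [Field k] [Field M] [Algebra k M] {d : ℕ} [NeZero d] {T₀ : Tab k d}

theorem mem_cor (P : WB T₀ →ₐ[k] M) (b : WB T₀) : P b ∈ cor P :=
  IntermediateField.subset_adjoin k _ ⟨b, rfl⟩

theorem cor_le_cl (P : WB T₀ →ₐ[k] M) : cor P ≤ cl (IntermediateField.adjoin k {P (WB.x T₀)}) := by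
  refine mem_cl_of_mem_adjoin ?_
  rintro _ ⟨b, rfl⟩
  have hint : IsIntegral k[X] b := Algebra.IsIntegral.isIntegral b
  obtain ⟨p, hm, hp⟩ := hint
  let L := IntermediateField.adjoin k {P (WB.x T₀)}
  let φ : k[X] →+* L := eval₂RingHom (algebraMap k L)
    ⟨P (WB.x T₀), IntermediateField.mem_adjoin_simple_self k _⟩
  have hφ : (algebraMap L M).comp φ = (P : WB T₀ →+* M).comp (algebraMap k[X] (WB T₀)) := by
    refine Polynomial.ringHom_ext (fun a => ?_) ?_
    · simp only [φ, RingHom.comp_apply, coe_eval₂RingHom, eval₂_C]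
      have h1 : algebraMap k[X] (WB T₀) (C a) = algebraMap k (WB T₀) a := by
        rw [IsScalarTower.algebraMap_apply k k[X] (WB T₀), Polynomial.algebraMap_eq]
      rw [h1, ← IsScalarTower.algebraMap_apply]
      exact (P.commutes a).symm
    · simp only [φ, RingHom.comp_apply, coe_eval₂RingHom, eval₂_X]
      rfl
  refine mem_cl.2 ⟨p.map φ, (hm.map φ).ne_zero, ?_⟩
  rw [aeval_def, eval₂_map, hφ]
  have h3 := Polynomial.hom_eval₂ p (algebraMap k[X] (WB T₀)) (P : WB T₀ →+* M) b
  refine h3.symm.trans ?_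
  rw [hp]
  exact map_zero _

/-- two independent generic points of the curve; `M` is an algebraic closure of the field of their
coordinates -/
structure Gpt (P Q : WB T₀ →ₐ[k] M) : Prop where
  p : Transcendental k (P (WB.x T₀))
  q : Transcendental (cor P) (Q (WB.x T₀))
  alg : ∀ x : M, IsAlgebraic (cor P ⊔ cor Q : IntermediateField k M) x

theorem transc_mono {L L' : IntermediateField k M} (h : L ≤ L') {x : M}
    (hx : Transcendental L' x) : Transcendental L x := fun h' => hx (isAlg_mono h h')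

theorem isAlg_bot {x : M} (hx : IsAlgebraic k x) (L : IntermediateField k M) : IsAlgebraic L x :=
  hx.tower_top L

theorem Gpt.symm {P Q : WB T₀ →ₐ[k] M} (h : Gpt P Q) : Gpt Q P where
  p := fun h' => h.q (isAlg_bot h' _)
  q := by
    have h1 : Transcendental (IntermediateField.adjoin k {P (WB.x T₀)}) (Q (WB.x T₀)) :=
      transc_mono (IntermediateField.adjoin_le_iff.2
        (Set.singleton_subset_iff.2 (mem_cor P _))) h.q
    have h2 := exchange h.p h1
    intro h3
    exact h2 (mem_cl.1 (cl_of_le (cor_le_cl Q) h3))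
  alg x := by
    rw [sup_comm]
    exact h.alg x

theorem Gpt.tp {P Q : WB T₀ →ₐ[k] M} (h : Gpt P Q) :
    Transcendental (cl (cor Q)) (P (WB.x T₀)) := fun h' => h.symm.q (mem_cl.1 (cl_cl h'))

theorem adjoin_le_fix {S : Set M} {σ : M ≃ₐ[k] M} (h : ∀ x ∈ S, σ x = x) :
    ∀ x ∈ IntermediateField.adjoin k S, σ x = x := by
  intro x hx
  induction hx using IntermediateField.adjoin_induction with
  | mem x hx => exact h x hx
  | algebraMap x => exact σ.commutes x
  | add x y _ _ hx hy => rw [map_add, hx, hy]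
  | inv x _ hx => rw [map_inv₀, hx]
  | mul x y _ _ hx hy => rw [map_mul, hx, hy]

theorem AA_fix {A : IntermediateField k M} {S : Set M} {σ : M ≃ₐ[k] M} (hA : ∀ x ∈ A, σ x = x)
    (hS : ∀ x ∈ S, σ x = x) : ∀ x ∈ AA A S, σ x = x := by
  have h1 : AA A S ≤ IntermediateField.adjoin k ((A : Set M) ∪ S) := by
    refine sup_le ?_ (IntermediateField.adjoin.mono k _ _ Set.subset_union_right)
    intro x hx
    exact IntermediateField.subset_adjoin k _ (Or.inl hx)
  intro x hx
  refine adjoin_le_fix (S := (A : Set M) ∪ S) ?_ x (h1 hx)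
  rintro y (hy | hy)
  · exact hA y hy
  · exact hS y hy

theorem adjoin_stab {S : Set M} {σ : M ≃ₐ[k] M} {E : IntermediateField k M} (h : ∀ x ∈ S, σ x ∈ E) :
    ∀ x ∈ IntermediateField.adjoin k S, σ x ∈ E := by
  intro x hx
  induction hx using IntermediateField.adjoin_induction with
  | mem x hx => exact h x hx
  | algebraMap x => rw [σ.commutes]; exact E.algebraMap_mem x
  | add x y _ _ hx hy => rw [map_add]; exact E.add_mem hx hy
  | inv x _ hx => rw [map_inv₀]; exact E.inv_mem hx
  | mul x y _ _ hx hy => rw [map_mul]; exact E.mul_mem hx hy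

theorem AA_stab {A : IntermediateField k M} {S : Set M} {σ : M ≃ₐ[k] M} (hA : ∀ x ∈ A, σ x ∈ A)
    (hS : ∀ x ∈ S, σ x ∈ AA A S) : ∀ x ∈ AA A S, σ x ∈ AA A S := by
  have h1 : AA A S ≤ IntermediateField.adjoin k ((A : Set M) ∪ S) := by
    refine sup_le ?_ (IntermediateField.adjoin.mono k _ _ Set.subset_union_right)
    intro x hx
    exact IntermediateField.subset_adjoin k _ (Or.inl hx)
  intro x hx
  refine adjoin_stab (S := (A : Set M) ∪ S) ?_ x (h1 hx)
  rintro y (hy | hy)
  · exact le_AA A S (hA y hy)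
  · exact hS y hy

/-- finite orbits -/
theorem orb_of {K : IntermediateField k M} {D : Subgroup (M ≃ₐ[k] M)}
    (hD : D ≤ Fx k (K : Set M)) {E : Set M} (halg : ∀ x ∈ E, IsAlgebraic K x) : Orb D E := by
  intro x hx
  obtain ⟨p, hp, hpx⟩ := halg x hx
  refine (p.rootSet_finite M).subset ?_
  rintro y ⟨σ, hσ, rfl⟩
  rw [Polynomial.mem_rootSet]
  refine ⟨hp, ?_⟩
  have h1 : (p.map (algebraMap K M)).map ((σ : M ≃ₐ[k] M) : M →+* M) = p.map (algebraMap K M) := by
    rw [Polynomial.map_map]
    congr 1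
    ext a
    exact hD hσ _ a.2
  have h2 : Polynomial.eval (σ x) (p.map (algebraMap K M)) = 0 := by
    rw [← h1, Polynomial.eval_map]
    show Polynomial.eval₂ ((σ : M ≃ₐ[k] M) : M →+* M) (((σ : M ≃ₐ[k] M) : M →+* M) x) _ = 0
    rw [Polynomial.eval₂_at_apply, Polynomial.eval_map]
    have h3 : Polynomial.eval₂ (algebraMap K M) x p = 0 := hpx
    rw [h3]
    exact map_zero _
  rw [Polynomial.eval_map] at h2
  exact h2

theorem clo_Ge (S : Set M) : Clo (Ge k S) := by
  intro σ hσ
  refine ⟨fun x hx => ?_, fun x hx => ?_⟩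
  · obtain ⟨τ, hτ, h⟩ := hσ {x}
    rw [h x (by simp)]
    exact hτ.1 x hx
  · obtain ⟨τ, hτ, h⟩ := hσ {x}
    rw [h x (by simp)]
    exact hτ.2 x hx

/-- the group of the automorphisms over the coordinates -/
abbrev NN' (P Q : WB T₀ →ₐ[k] M) : Subgroup (M ≃ₐ[k] M) := Fx k (Set.range P ∪ Set.range Q)

/-- the geometric group -/
abbrev NN (P Q : WB T₀ →ₐ[k] M) : Subgroup (M ≃ₐ[k] M) := Ge k (Set.range P ∪ Set.range Q)

theorem NN_le (P Q : WB T₀ →ₐ[k] M) : NN P Q ≤ NN' P Q := inf_le_left

theorem NN'_swap (P Q : WB T₀ →ₐ[k] M) : NN' P Q = NN' Q P := by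
  unfold NN'
  rw [Set.union_comm]

theorem NN_swap (P Q : WB T₀ →ₐ[k] M) : NN P Q = NN Q P := by
  unfold NN
  rw [Set.union_comm]

theorem NN'_fixQ {P Q : WB T₀ →ₐ[k] M} {σ : M ≃ₐ[k] M} (hσ : σ ∈ NN' P Q) :
    ∀ x ∈ cor Q, σ x = x := adjoin_le_fix fun x hx => hσ x (Or.inr hx)

theorem NN'_fixP {P Q : WB T₀ →ₐ[k] M} {σ : M ≃ₐ[k] M} (hσ : σ ∈ NN' P Q) :
    ∀ x ∈ cor P, σ x = x := adjoin_le_fix fun x hx => hσ x (Or.inl hx)

theorem NN'_le_Fx (P Q : WB T₀ →ₐ[k] M) :
    NN' P Q ≤ Fx k ((cor P ⊔ cor Q : IntermediateField k M) : Set M) := by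
  intro σ hσ x hx
  have h1 : cor P ⊔ cor Q ≤ IntermediateField.adjoin k (Set.range P ∪ Set.range Q) :=
    sup_le (IntermediateField.adjoin.mono k _ _ Set.subset_union_left)
      (IntermediateField.adjoin.mono k _ _ Set.subset_union_right)
  exact adjoin_le_fix (S := Set.range P ∪ Set.range Q) hσ x (h1 hx)

theorem NN'_stab {P Q : WB T₀ →ₐ[k] M} {σ : M ≃ₐ[k] M} (hσ : σ ∈ NN' P Q) (x : M) :
    σ x ∈ cl (cor Q) ↔ x ∈ cl (cor Q) := by
  refine cl_stab ?_ ?_ x
  · intro x hx
    rw [NN'_fixQ hσ x hx]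
    exact le_cl _ hx
  · intro x hx
    have h1 := NN'_fixQ ((NN' P Q).inv_mem hσ) x hx
    have h2 : σ.symm x = x := h1
    rw [h2]
    exact le_cl _ hx

variable (T₀) in
open Classical in
/-- finitely many generators of `WB T₀` -/
noncomputable def gens : Finset (WB T₀) := insert (WB.x T₀) (Finset.univ.image (WB.f T₀))

theorem cor_eq (P : WB T₀ →ₐ[k] M) :
    (cor P : IntermediateField k M) = IntermediateField.adjoin k (P '' (gens T₀ : Set (WB T₀))) := by
  classical
  apply le_antisymm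
  · unfold cor
    rw [IntermediateField.adjoin_le_iff]
    rintro _ ⟨b, rfl⟩
    have h := lift_unique (T := T₀) (g := algebraMap k M) (P : WB T₀ →+* M)
      (fun r => P.commutes r) b
    rw [lift_apply] at h
    have h' : P b = ∑ j, (b.co j).eval₂ (algebraMap k M) (P (WB.x T₀)) * P (WB.f T₀ j) := h
    rw [h']
    refine sum_mem fun j _ => mul_mem (eval₂_mem _ (fun a => ?_) ?_ _) ?_
    · exact IntermediateField.algebraMap_mem _ a
    · refine IntermediateField.subset_adjoin k _ ⟨_, ?_, rfl⟩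
      exact Finset.mem_coe.2 (Finset.mem_insert_self _ _)
    · refine IntermediateField.subset_adjoin k _ ⟨_, ?_, rfl⟩
      exact Finset.mem_coe.2 (Finset.mem_insert_of_mem
        (Finset.mem_image_of_mem _ (Finset.mem_univ _)))
  · exact IntermediateField.adjoin.mono k _ _ (Set.image_subset_range _ _)

theorem Gpt.sit {P Q : WB T₀ →ₐ[k] M} (h : Gpt P Q) :
    Sit (cl (cor Q)) (AA (cl (cor Q)) (Set.range P)) (NN P Q) where
  le := le_AA _ _
  ne := ⟨P (WB.x T₀), subset_AA _ _ ⟨_, rfl⟩, fun h' => h.tp (isAlgebraic_algebraMap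
    (⟨_, h'⟩ : cl (cor Q)))⟩
  trd := by
    intro t ht x
    have hcorP : cor P ≤ cl (AA (cl (cor Q)) {t}) := by
      have h1 : Transcendental (cl (cor Q)) t := fun h' => ht (cl_cl h')
      have h2 : ¬ Transcendental (IntermediateField.adjoin (cl (cor Q)) {t}) (P (WB.x T₀)) := by
        intro h3
        have h4 := exchange h1 h3
        apply h4
        have h5 : IsAlgebraic ((IntermediateField.adjoin (cl (cor Q))
            {P (WB.x T₀)}).restrictScalars k) t := by
          rw [IntermediateField.restrictScalars_adjoin_eq_sup]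
          refine mem_cl.1 (cl_of_le ?_ (h.alg t))
          refine sup_le ?_ ?_
          · refine (cor_le_cl P).trans (cl_mono le_sup_right)
          · exact (le_cl _).trans ((le_sup_left).trans (le_cl _))
        exact h5
      have h6 : IsAlgebraic ((IntermediateField.adjoin (cl (cor Q)) {t}).restrictScalars k)
          (P (WB.x T₀)) := not_not.1 h2
      rw [IntermediateField.restrictScalars_adjoin_eq_sup] at h6
      refine (cor_le_cl P).trans (cl_le_cl ?_)
      rw [IntermediateField.adjoin_le_iff, Set.singleton_subset_iff]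
      exact mem_cl.2 h6
    refine mem_cl.1 (cl_of_le (sup_le hcorP ?_) (h.alg x))
    exact (le_cl _).trans ((le_AA _ _).trans (le_cl _))
  alg x := by
    refine isAlg_mono (sup_le ?_ ?_) (h.alg x)
    · exact le_sup_right
    · exact (le_cl _).trans (le_AA _ _)
  stab σ hσ x := NN'_stab hσ.1 x
  stabE σ hσ := by
    refine AA_stab (fun x hx => (NN'_stab hσ.1 x).2 hx) fun x hx => ?_
    rw [hσ.1 x (Or.inl hx)]
    exact subset_AA _ _ hx
  lin := by
    apply le_antisymm
    · rintro σ ⟨h1, h2⟩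
      exact AA_fix h2 (fun x hx => h1.1 x (Or.inl hx))
    · intro σ hσ
      refine ⟨⟨?_, ?_⟩, fun x hx => hσ x (le_AA _ _ hx)⟩
      · rintro x (hx | hx)
        · exact hσ x (subset_AA _ _ hx)
        · obtain ⟨b, rfl⟩ := hx
          exact hσ _ (le_AA _ _ (le_cl _ (mem_cor Q b)))
      · intro x hx
        exact hσ x (le_AA _ _ (mem_cl.2 (isAlg_bot hx _)))
  fg := by
    classical
    refine ⟨(gens T₀).image P, ?_⟩
    unfold AA
    have h1 := cor_eq P
    unfold cor at h1
    rw [h1, Finset.coe_image]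
  orb := orb_of ((NN_le P Q).trans (NN'_le_Fx P Q)) fun x _ => h.alg x
  clo := clo_Ge _

end

end TIFL
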