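import Mathlib
import Pool.Agent.TIFL.E3
import Pool.Agent.TBM.Br

/-!
# [TIF LINK] change of the field, Kummer elements
-/

set_option autoImplicit false
set_option linter.unusedSectionVars false

open Polynomial GT Pool.Agent.TBR Pool.Agent.TIFC

namespace TIFL

section bc

variable {k M : Type} [Field k] [Field M] [Algebra k M] {d : ℕ} [NeZero d] {T₀ : Tab k d}

/-- the inclusion of the fields -/
abbrev jF {F F' : IntermediateField k M} (h : F ≤ F') : F →+* F' :=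
  (IntermediateField.inclusion h : F →ₐ[k] F')

theorem TF_incl {F F' : IntermediateField k M} (h : F ≤ F') :
    (TF T₀ F).map (jF h) = TF T₀ F' := by
  rw [Tab.map_map]
  congr 1

/-- the inclusion of the rings of functions -/
noncomputable def bc {F F' : IntermediateField k M} (h : F ≤ F') : RF T₀ F →+* RF T₀ F' :=
  bmap (jF h) (TF_incl h)

theorem bc_inj {F F' : IntermediateField k M} (h : F ≤ F') :
    Function.Injective (bc (T₀ := T₀) h) :=
  bmap_inj _ _ (IntermediateField.inclusion_injective h)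

theorem ev_bc {F F' : IntermediateField k M} (h : F ≤ F') (P : WB T₀ →ₐ[k] M) (b : RF T₀ F) :
    ev F' P (bc h b) = ev F P b := by
  rw [ev_apply, ev_apply]
  refine Finset.sum_congr rfl fun j _ => ?_
  unfold bc
  rw [bmap_co, eval₂_map]
  rfl

theorem bc_coeff {F F' : IntermediateField k M} (h : F ≤ F') (b : RF T₀ F) (j : ZMod d) (n : ℕ) :
    ((((bc h b).co j).coeff n : F') : M) = (((b.co j).coeff n : F) : M) := by
  unfold bc
  rw [bmap_co, coeff_map]
  rfl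

theorem ra_bc {F F' : IntermediateField k M} (h : F ≤ F') {σ : M ≃ₐ[k] M}
    (hF' : ∀ x, σ x ∈ F' ↔ x ∈ F') (hσ : ∀ x ∈ F, σ x = x) (b : RF T₀ F) :
    ra T₀ F' σ (bc h b) = bc h b := by
  refine WB.ext (funext fun j => ?_)
  unfold bc
  rw [ra_co, bmap_co, Polynomial.map_map]
  congr 1
  refine RingHom.ext fun a => Subtype.ext ?_
  exact (res_coe hF' _).trans (hσ a a.2)

end bc

section pow

variable {k M : Type} [Field k] [Field M] [Algebra k M] [IsAlgClosed M] {d : ℕ} [NeZero d]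
  {T₀ : Tab k d}

variable (k M) in
/-- the algebraic closure of `k` -/
noncomputable abbrev kk : IntermediateField k M := algebraicClosure k M

instance kk_isAlgClosed : IsAlgClosed (kk k M) := IsAlgClosure.isAlgClosed (R := k)

theorem kk_le_cl (L : IntermediateField k M) : kk k M ≤ cl L := fun _ hx =>
  mem_cl.2 (isAlg_bot (mem_algebraicClosure_iff.1 hx) L)

theorem cor_le_AA (F : IntermediateField k M) (Q : WB T₀ →ₐ[k] M) : cor Q ≤ AA F (Set.range Q) :=
  le_sup_right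

theorem kQ_le (Q : WB T₀ →ₐ[k] M) : AA (kk k M) (Set.range Q) ≤ cl (cor Q) :=
  sup_le (kk_le_cl _) (le_cl _)

/-- a function of `Q` which is a function over `L` of the independent point `P` is constant in `P` -/
theorem mem_of_mem {P : WB T₀ →ₐ[k] M} {L A : IntermediateField k M} (hLA : L ≤ A)
    (hP : Transcendental A (P (WB.x T₀))) {y : M} (hy : y ∈ AA L (Set.range P)) (hyA : y ∈ A) :
    y ∈ L := by
  obtain ⟨u, w, hw, h⟩ := ev_quo (transc_mono hLA hP) y hy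
  have h1 : bc hLA u = (⟨y, hyA⟩ : A) • bc hLA w := by
    apply ev_inj hP
    rw [ev_bc, h, map_smul, ev_bc]
    rfl
  have h2 : ∃ j n, (w.co j).coeff n ≠ 0 := by
    by_contra hcon
    push Not at hcon
    apply hw
    refine WB.ext (funext fun j => ?_)
    ext n
    rw [hcon j n]
    rfl
  obtain ⟨j, n, hjn⟩ := h2
  have h3 := congrArg (fun b : RF T₀ A => (((b.co j).coeff n : A) : M)) h1
  simp only [WB.co_smul', coeff_smul] at h3
  have h4 : ((((u.co j).coeff n : L) : M)) = y * (((w.co j).coeff n : L) : M) := by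
    rw [← bc_coeff hLA, ← bc_coeff hLA]
    exact h3
  have h5 : (((w.co j).coeff n : L) : M) ≠ 0 := by
    intro h0
    exact hjn (Subtype.ext h0)
  have h6 : y = (((u.co j).coeff n : L) : M) / (((w.co j).coeff n : L) : M) := by
    rw [h4, mul_div_cancel_right₀ _ h5]
  rw [h6]
  exact L.div_mem ((u.co j).coeff n).2 ((w.co j).coeff n).2

theorem Gpt.exists_pow {P Q : WB T₀ →ₐ[k] M} (h : Gpt P Q) (p : ℕ) [ExpChar M p] {g : M}
    (hg : g ∈ cl (cor Q)) (hN : ∀ σ ∈ NN P Q, σ g = g) :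
    ∃ s : ℕ, g ^ p ^ s ∈ AA (kk k M) (Set.range Q) := by
  obtain ⟨s, hs⟩ := perf p (AA (AA (kk k M) (Set.range Q)) (Set.range P)) (fun x => by
    refine isAlg_mono (sup_le ?_ ?_) (h.alg x)
    · exact cor_le_AA _ P
    · exact (cor_le_AA _ Q).trans (le_AA _ _)) g (by
      intro σ hσ
      apply hN
      refine ⟨?_, ?_⟩
      · rintro x (hx | hx)
        · exact hσ x (subset_AA _ _ hx)
        · exact hσ x (le_AA _ _ (subset_AA _ _ hx))
      · intro x hx
        exact hσ x (le_AA _ _ (le_AA _ _ (mem_algebraicClosure_iff.2 hx))))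
  exact ⟨s, mem_of_mem (kQ_le Q) h.tp hs (pow_mem hg _)⟩

/-- the exponent can be chosen congruent to `1` -/
theorem exists_pow_one {p N₀ : ℕ} (hp : Nat.Coprime p N₀) (s : ℕ) :
    ∃ t : ℕ, s ≤ t ∧ p ^ t ≡ 1 [MOD N₀] := by
  rcases Nat.eq_zero_or_pos N₀ with h0 | h0
  · subst h0
    rw [Nat.coprime_zero_right] at hp
    exact ⟨s, le_rfl, by rw [hp, one_pow]⟩
  · refine ⟨Nat.totient N₀ * s, ?_, ?_⟩
    · exact Nat.le_mul_of_pos_left s (Nat.totient_pos.2 h0)
    · have h1 := (Nat.ModEq.pow_totient hp).pow s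
      rwa [one_pow, ← pow_mul] at h1

theorem Gpt.exists_pow' {P Q : WB T₀ →ₐ[k] M} (h : Gpt P Q) (p : ℕ) [ExpChar M p] {N₀ : ℕ}
    (hp : Nat.Coprime p N₀) {g : M}
    (hg : g ∈ cl (cor Q)) (hN : ∀ σ ∈ NN P Q, σ g = g) :
    ∃ s : ℕ, p ^ s ≡ 1 [MOD N₀] ∧ g ^ p ^ s ∈ AA (kk k M) (Set.range Q) := by
  obtain ⟨s, hs⟩ := h.exists_pow p hg hN
  obtain ⟨t, hst, ht⟩ := exists_pow_one hp s
  refine ⟨t, ht, ?_⟩
  obtain ⟨r, rfl⟩ := Nat.exists_eq_add_of_le hst
  rw [pow_add, pow_mul]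
  exact pow_mem hs _

/-- Hilbert 90 -/
theorem exists_kummer {A : IntermediateField k M} {N : Subgroup (M ≃ₐ[k] M)}
    (hNA : ∀ σ ∈ N, ∀ x ∈ A, σ x ∈ A) (horb : Orb N Set.univ) (x : (M ≃ₐ[k] M) → Mˣ)
    (hlo : Lo1 N (A : Set M) x) (hxA : ∀ σ ∈ N, (x σ : M) ∈ A)
    (hx : ∀ σ ∈ N, ∀ τ ∈ N, x (σ * τ) = x σ * σ • x τ) :
    ∃ u : Mˣ, (u : M) ∈ A ∧ ∀ σ ∈ N, σ • u = x σ * u := by
  obtain ⟨S, hS, hS'⟩ := hlo
  obtain ⟨S₁, h1, h2, h3⟩ := exists_stable N (A : Set M) hNA (fun y _ => horb y (Set.mem_univ y)) S hS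
  obtain ⟨y, hy, hy'⟩ := h90u N S₁ h3 x
    (fun σ hσ τ hτ h => hS' σ hσ τ hτ (h.mono (by exact_mod_cast h1))) hx
  refine ⟨y⁻¹, ?_, fun σ hσ => ?_⟩
  · have hle : IntermediateField.adjoin k ((S₁ : Set M) ∪ {w | ∃ σ ∈ N, (x σ : M) = w}) ≤ A := by
      rw [IntermediateField.adjoin_le_iff]
      rintro w (hw | ⟨σ, hσ, rfl⟩)
      · exact h2 hw
      · exact hxA σ hσ
    rw [Units.val_inv_eq_inv_val]
    exact A.inv_mem (hle hy)
  · have h4 := hy' σ hσ
    have h5 : y⁻¹ = (σ • y)⁻¹ * (x σ)⁻¹ := by rw [← mul_inv_rev, h4]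
    rw [smul_inv']
    rw [h5, mul_comm (x σ), mul_assoc, inv_mul_cancel, mul_one]

end pow

end TIFL
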