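import Mathlib
import Pool.Agent.TIFL.F1

/-!
# [TIF LINK] extension of the divisors; functions whose divisor is divisible
-/

set_option autoImplicit false
set_option linter.unusedSectionVars false

open Polynomial GT Pool.Agent.TBR Pool.Agent.TIFC

namespace TIFL

section ext

variable {R R' : Type} [CommRing R] [IsDedekindDomain R] [CommRing R'] [IsDedekindDomain R']
  {j : R →+* R'} (hj : Function.Injective j) (hmax : ∀ q : XX R, (q.asIdeal.map j).IsPrime)

theorem map_bot_iff (hj : Function.Injective j) {I : Ideal R} (hI : I ≠ ⊥) : I.map j ≠ ⊥ := by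
  obtain ⟨r, hr, hr0⟩ := Submodule.exists_mem_ne_zero_of_ne_bot hI
  intro h
  have h1 : j r ∈ I.map j := Ideal.mem_map_of_mem j hr
  rw [h, Ideal.mem_bot, map_eq_zero_iff j hj] at h1
  exact hr0 h1

/-- the extension of a maximal ideal -/
def ext (q : XX R) : XX R' where
  asIdeal := q.asIdeal.map j
  isPrime := hmax q
  ne_bot := map_bot_iff hj q.ne_bot

theorem ext_asIdeal (q : XX R) : (ext hj hmax q).asIdeal = q.asIdeal.map j := rfl

theorem ext_inj : Function.Injective (ext hj hmax) := by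
  have key : ∀ q : XX R, (ext hj hmax q).asIdeal.comap j = q.asIdeal := by
    intro q
    have h1 : q.asIdeal ≤ (ext hj hmax q).asIdeal.comap j := Ideal.le_comap_map
    have h2 : (ext hj hmax q).asIdeal.comap j ≠ ⊤ := by
      rw [Ne, Ideal.comap_eq_top_iff]
      exact (ext hj hmax q).isPrime.ne_top
    exact (q.isMaximal.eq_of_le h2 h1).symm
  intro q q' h
  refine IsDedekindDomain.HeightOneSpectrum.ext ?_
  rw [← key q, ← key q', h]

theorem dI_ext {I : Ideal R} (hI : I ≠ ⊥) :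
    dI (I.map j) = (dI I).mapDomain (ext hj hmax) := by
  have key : ∀ I : Ideal R, I ≠ 0 → dI (I.map j) = (dI I).mapDomain (ext hj hmax) := by
    intro I hI
    induction I using UniqueFactorizationMonoid.induction_on_prime with
    | h₁ => exact absurd rfl hI
    | h₂ I h =>
      have : I = ⊤ := by rwa [Ideal.isUnit_iff] at h
      subst this
      rw [Ideal.map_top, dI_top, dI_top, Finsupp.mapDomain_zero]
    | h₃ I p hI0 hp ih =>
      have hp0 : p ≠ ⊥ := hp.ne_zero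
      rw [Ideal.map_mul, dI_mul (map_bot_iff hj hp0) (map_bot_iff hj hI0), dI_mul hp0 hI0, ih hI0,
        Finsupp.mapDomain_add]
      congr 1
      have h1 := dI_prime (⟨p, Ideal.isPrime_of_prime hp, hp0⟩ : XX R)
      change dI p = _ at h1
      rw [h1, Finsupp.mapDomain_single]
      exact dI_prime (ext hj hmax ⟨p, Ideal.isPrime_of_prime hp, hp0⟩)
  exact key I hI

theorem dv_ext {M : Type} [Field M] {ev : R →+* M} {ev' : R' →+* M} (hinj : Function.Injective ev)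
    (hinj' : Function.Injective ev') (hev : ∀ r, ev' (j r) = ev r) {e : Mˣ} {u w : R} (hu : u ≠ 0)
    (hw : w ≠ 0) (h : ev u = e * ev w) : dv ev' e = (dv ev e).mapDomain (ext hj hmax) := by
  have hu' : j u ≠ 0 := (map_ne_zero_iff j hj).2 hu
  have hw' : j w ≠ 0 := (map_ne_zero_iff j hj).2 hw
  have e1 : ∀ D D' : XX R →₀ ℤ, Finsupp.mapDomain (ext hj hmax) (D - D') =
      Finsupp.mapDomain (ext hj hmax) D - Finsupp.mapDomain (ext hj hmax) D' := by
    intro D D'
    rw [← Finsupp.mapDomain.addMonoidHom_apply, ← Finsupp.mapDomain.addMonoidHom_apply,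
      ← Finsupp.mapDomain.addMonoidHom_apply, map_sub]
  rw [dv_eq hinj hu hw h, dv_eq hinj' hu' hw' (by rw [hev, hev, h]), e1,
    ← dI_ext hj hmax (span_ne hu), ← dI_ext hj hmax (span_ne hw), Ideal.map_span, Ideal.map_span,
    Set.image_singleton, Set.image_singleton]

theorem dv_ext_apply {M : Type} [Field M] {ev : R →+* M} {ev' : R' →+* M}
    (hinj : Function.Injective ev)
    (hinj' : Function.Injective ev') (hev : ∀ r, ev' (j r) = ev r) {e : Mˣ} {u w : R} (hu : u ≠ 0)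
    (hw : w ≠ 0) (h : ev u = e * ev w) (q : XX R) : dv ev' e (ext hj hmax q) = dv ev e q := by
  rw [dv_ext hj hmax hinj hinj' hev hu hw h, Finsupp.mapDomain_apply (ext_inj hj hmax)]

end ext

section cv

variable {k M : Type} [Field k] [Field M] [Algebra k M] {A E : IntermediateField k M}
  {N : Subgroup (M ≃ₐ[k] M)} {X C : Type} [CommGroup C] {xa : (M ≃ₐ[k] M) → X → X}
  {ca : (M ≃ₐ[k] M) → C →* C} {dv : Mˣ → X →₀ ℤ} {cD : (X →₀ ℤ) → C}

theorem cv_dv_one (hC : Cv A E N xa ca dv cD) : dv 1 = 0 :=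
  (hC.dv_zero 1 E.one_mem).2 A.one_mem

theorem cv_dv_pow (hC : Cv A E N xa ca dv cD) {e : Mˣ} (he : (e : M) ∈ E) (n : ℕ) :
    dv (e ^ n) = n • dv e := by
  induction n with
  | zero => rw [pow_zero, zero_smul, cv_dv_one hC]
  | succ n ih =>
    rw [pow_succ, hC.dv_mul _ _ (by rw [Units.val_pow_eq_pow_val]; exact pow_mem he n) he, ih,
      succ_nsmul]

theorem mem_prod_pow {ι : Type} (s : Finset ι) {f : ι → Mˣ} (hf : ∀ i, (f i : M) ∈ E) (q : ι → ℕ) :
    ((∏ i ∈ s, f i ^ q i : Mˣ) : M) ∈ E := by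
  rw [Units.coe_prod]
  exact prod_mem fun i _ => by
    rw [Units.val_pow_eq_pow_val]
    exact pow_mem (hf i) _

theorem cv_dv_prod (hC : Cv A E N xa ca dv cD) {ι : Type} (s : Finset ι) {f : ι → Mˣ}
    (hf : ∀ i, (f i : M) ∈ E) (q : ι → ℕ) :
    dv (∏ i ∈ s, f i ^ q i) = ∑ i ∈ s, q i • dv (f i) := by
  classical
  induction s using Finset.induction_on with
  | empty => rw [Finset.prod_empty, Finset.sum_empty, cv_dv_one hC]
  | insert i s hi ih =>
    rw [Finset.prod_insert hi, Finset.sum_insert hi, hC.dv_mul _ _ (by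
      rw [Units.val_pow_eq_pow_val]; exact pow_mem (hf i) _) (mem_prod_pow s hf q), ih,
      cv_dv_pow hC (hf i)]

theorem cv_dv_inv (hC : Cv A E N xa ca dv cD) {e : Mˣ} (he : (e : M) ∈ E) :
    dv e⁻¹ = -dv e := by
  have he' : ((e⁻¹ : Mˣ) : M) ∈ E := by
    rw [Units.val_inv_eq_inv_val]; exact E.inv_mem he
  have h := hC.dv_mul e e⁻¹ he he'
  rw [mul_inv_cancel, cv_dv_one hC] at h
  exact (neg_eq_of_add_eq_zero_right h.symm).symm

theorem cv_cD_zero (hC : Cv A E N xa ca dv cD) : cD 0 = 1 := by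
  have h := hC.cD_add 0 0
  rw [add_zero] at h
  exact (mul_eq_left.1 h.symm)

theorem cv_cD_nsmul (hC : Cv A E N xa ca dv cD) (n : ℕ) (D : X →₀ ℤ) :
    cD (n • D) = cD D ^ n := by
  induction n with
  | zero => rw [zero_smul, cv_cD_zero hC, pow_zero]
  | succ n ih => rw [succ_nsmul, hC.cD_add, ih, pow_succ]

theorem cv_cD_neg (hC : Cv A E N xa ca dv cD) (D : X →₀ ℤ) : cD (-D) = (cD D)⁻¹ := by
  have h := hC.cD_add D (-D)
  rw [add_neg_cancel, cv_cD_zero hC] at h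
  exact (inv_eq_of_mul_eq_one_right h.symm).symm

theorem cv_cD_sum (hC : Cv A E N xa ca dv cD) {ι : Type} (s : Finset ι) (D : ι → X →₀ ℤ) :
    cD (∑ i ∈ s, D i) = ∏ i ∈ s, cD (D i) := by
  classical
  induction s using Finset.induction_on with
  | empty => rw [Finset.prod_empty, Finset.sum_empty, cv_cD_zero hC]
  | insert i s hi ih => rw [Finset.prod_insert hi, Finset.sum_insert hi, hC.cD_add, ih]

/-- a function whose divisor is divisible by `N₀` -/
theorem cv_gen (hC : Cv A E N xa ca dv cD) [IsAlgClosed A] (hle : A ≤ E) {m N₀ : ℕ} (hN₀ : 0 < N₀)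
    (I : Fin m → X →₀ ℤ) (f : Fin m → Mˣ) (hf : ∀ i, (f i : M) ∈ E)
    (hf' : ∀ i, dv (f i) = N₀ • I i)
    (hgen : ∀ y : C, y ^ N₀ = 1 → ∃ q : Fin m → ℕ, y = ∏ i, cD (I i) ^ q i) (g : Mˣ)
    (hg : (g : M) ∈ E) (hdiv : ∀ x, (N₀ : ℤ) ∣ dv g x) :
    ∃ (q : Fin m → ℕ) (e : Mˣ), (e : M) ∈ E ∧ g = e ^ N₀ * ∏ i, f i ^ q i := by
  classical
  have hD : ∃ D : X →₀ ℤ, N₀ • D = dv g := by
    refine ⟨(dv g).mapRange (fun z => z / (N₀ : ℤ)) (Int.zero_ediv _), ?_⟩
    ext x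
    rw [Finsupp.smul_apply, Finsupp.mapRange_apply, nsmul_eq_mul]
    exact Int.mul_ediv_cancel' (hdiv x)
  obtain ⟨D, hD⟩ := hD
  have h1 : cD D ^ N₀ = 1 := by
    rw [← cv_cD_nsmul hC, hD]
    exact (hC.cD_one _).2 ⟨g, hg, rfl⟩
  obtain ⟨q, hq⟩ := hgen _ h1
  have h2 : cD (D + -∑ i, q i • I i) = 1 := by
    rw [hC.cD_add, cv_cD_neg hC, cv_cD_sum hC, hq]
    simp only [cv_cD_nsmul hC]
    exact mul_inv_cancel _
  obtain ⟨e, he, he'⟩ := (hC.cD_one _).1 h2
  have hP : ((∏ i, f i ^ q i : Mˣ) : M) ∈ E := mem_prod_pow _ hf q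
  have heN : ((e ^ N₀ : Mˣ) : M) ∈ E := by
    rw [Units.val_pow_eq_pow_val]; exact pow_mem he _
  have hprod : ((e ^ N₀ * ∏ i, f i ^ q i : Mˣ) : M) ∈ E := by
    rw [Units.val_mul]; exact E.mul_mem heN hP
  have hinv : (((e ^ N₀ * ∏ i, f i ^ q i)⁻¹ : Mˣ) : M) ∈ E := by
    rw [Units.val_inv_eq_inv_val]; exact E.inv_mem hprod
  have hc : (((g * (e ^ N₀ * ∏ i, f i ^ q i)⁻¹) : Mˣ) : M) ∈ A := by
    rw [← hC.dv_zero _ (by rw [Units.val_mul]; exact E.mul_mem hg hinv),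
      hC.dv_mul _ _ hg hinv, cv_dv_inv hC hprod, hC.dv_mul _ _ heN hP, cv_dv_pow hC he,
      cv_dv_prod hC _ hf, he', ← hD]
    have h3 : ∑ i, q i • dv (f i) = N₀ • ∑ i, q i • I i := by
      rw [Finset.smul_sum]
      refine Finset.sum_congr rfl fun i _ => ?_
      rw [hf', smul_comm]
    rw [h3, smul_add, smul_neg]
    abel
  obtain ⟨c, hc'⟩ := IsAlgClosed.exists_pow_nat_eq (⟨_, hc⟩ : A) hN₀
  have hc0 : (c : M) ≠ 0 := by
    intro h0
    have h4 : c = 0 := Subtype.ext h0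
    rw [h4, zero_pow hN₀.ne'] at hc'
    have h5 := congrArg (fun z : A => (z : M)) hc'
    exact (Units.ne_zero (g * (e ^ N₀ * ∏ i, f i ^ q i)⁻¹)) h5.symm
  refine ⟨q, Units.mk0 (c : M) hc0 * e, ?_, ?_⟩
  · rw [Units.val_mul]
    exact E.mul_mem (hle c.2) he
  · have h6 : Units.mk0 (c : M) hc0 ^ N₀ = g * (e ^ N₀ * ∏ i, f i ^ q i)⁻¹ := by
      refine Units.ext ?_
      rw [Units.val_pow_eq_pow_val, Units.val_mk0]
      exact congrArg (fun z : A => (z : M)) hc'
    rw [mul_pow, h6, mul_assoc, inv_mul_cancel_right]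

end cv

end TIFL
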