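import Mathlib
import Pool.Agent.TIFL.F2
import Pool.Agent.TIFS.W9
import Pool.Agent.TIFB.Mat

/-!
# [TIF LINK] torsion classes over the constants
-/

set_option autoImplicit false
set_option linter.unusedSectionVars false

open Polynomial GT Pool.Agent.TBR Pool.Agent.TIFC

namespace TIFL

open Pool.Agent.TIFS (Pt bp ker_bp bcl bcl_cls iX)

section

variable {k M : Type} [Field k] [Field M] [Algebra k M] [IsAlgClosed M] {d : ℕ} [NeZero d]
  {T₀ : Tab k d}

theorem bc_prime {F F' : IntermediateField k M} [IsAlgClosed F] [IsDedekindDomain (RF T₀ F)]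
    (h : F ≤ F') (q : XX (RF T₀ F)) : (q.asIdeal.map (bc h)).IsPrime := by
  obtain ⟨P, hP⟩ := exists_hom q.asIdeal q.isMaximal q.ne_bot
  rw [← hP]
  have h1 := ker_bp (jF h) (TF_incl (T₀ := T₀) h) P
  unfold bc
  rw [h1]
  exact RingHom.ker_isPrime _

/-- the class map of the inclusion -/
noncomputable abbrev bl {F F' : IntermediateField k M} [IsDedekindDomain (RF T₀ F)]
    [IsDedekindDomain (RF T₀ F')] (h : F ≤ F') : ClassGroup (RF T₀ F) →* ClassGroup (RF T₀ F') :=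
  bcl (jF h) (TF_incl h)

theorem bl_cls {F F' : IntermediateField k M} [IsDedekindDomain (RF T₀ F)]
    [IsDedekindDomain (RF T₀ F')] (h : F ≤ F') {I : Ideal (RF T₀ F)} (hI : I ≠ ⊥) :
    bl h (SUP.cls I) = SUP.cls (I.map (bc h)) := bcl_cls _ _ hI

/-- an ideal over the constants which becomes principal in the power `N₀` -/
structure JD {F : IntermediateField k M} (N₀ : ℕ) (J : Ideal (RF T₀ F)) (f : RF T₀ F) : Prop where
  ne : J ≠ ⊥
  ne' : f ≠ 0
  pow : J ^ N₀ = Ideal.span {f}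

/-- the value of `f` at the point `P` -/
noncomputable def fv {F : IntermediateField k M} {P : WB T₀ →ₐ[k] M}
    (hP : Transcendental F (P (WB.x T₀))) {f : RF T₀ F} (hf : f ≠ 0) : Mˣ :=
  Units.mk0 (ev F P f) ((map_ne_zero_iff _ (ev_inj hP)).2 hf)

theorem fv_val {F : IntermediateField k M} {P : WB T₀ →ₐ[k] M}
    (hP : Transcendental F (P (WB.x T₀))) {f : RF T₀ F} (hf : f ≠ 0) :
    ((fv hP hf : Mˣ) : M) = ev F P f := rfl

theorem dv_fv {F F' : IntermediateField k M} [IsDedekindDomain (RF T₀ F)]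
    [IsDedekindDomain (RF T₀ F')] (h : F ≤ F')
    {P : WB T₀ →ₐ[k] M} (hP : Transcendental F (P (WB.x T₀)))
    (hP' : Transcendental F' (P (WB.x T₀))) {N₀ : ℕ} {J : Ideal (RF T₀ F)} {f : RF T₀ F}
    (hJ : JD N₀ J f) :
    dv (ev F' P : RF T₀ F' →+* M) (fv hP hJ.ne') = N₀ • dI (J.map (bc h)) := by
  have hbc : bc h f ≠ 0 := (map_ne_zero_iff _ (bc_inj h)).2 hJ.ne'
  have h1 : (ev F' P : RF T₀ F' →+* M) (bc h f) = (fv hP hJ.ne' : Mˣ) *
      (ev F' P : RF T₀ F' →+* M) 1 := by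
    rw [map_one, mul_one, fv_val]
    exact ev_bc h P f
  have hinj : Function.Injective (ev F' P : RF T₀ F' →+* M) := ev_inj hP'
  rw [dv_eq hinj hbc one_ne_zero h1, Ideal.span_singleton_one, dI_top, sub_zero]
  have h2 : Ideal.span {bc h f} = (J.map (bc h)) ^ N₀ := by
    rw [← Ideal.map_pow, hJ.pow, Ideal.map_span, Set.image_singleton]
  rw [h2, dI_pow (map_bot_iff (bc_inj h) hJ.ne)]

theorem dv_fv' {F : IntermediateField k M} [IsDedekindDomain (RF T₀ F)]
    {P : WB T₀ →ₐ[k] M} (hP : Transcendental F (P (WB.x T₀))) {N₀ : ℕ} {J : Ideal (RF T₀ F)}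
    {f : RF T₀ F} (hJ : JD N₀ J f) :
    dv (ev F P : RF T₀ F →+* M) (fv hP hJ.ne') = N₀ • dI J := by
  have hinj : Function.Injective (ev F P : RF T₀ F →+* M) := ev_inj hP
  have h1 : (ev F P : RF T₀ F →+* M) f = (fv hP hJ.ne' : Mˣ) * (ev F P : RF T₀ F →+* M) 1 := by
    rw [map_one, mul_one, fv_val]
    rfl
  rw [dv_eq hinj hJ.ne' one_ne_zero h1, Ideal.span_singleton_one, dI_top, sub_zero, ← hJ.pow,
    dI_pow hJ.ne]

theorem map_fix {F F' : IntermediateField k M} [IsDedekindDomain (RF T₀ F')] (h : F ≤ F')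
    {σ : M ≃ₐ[k] M} (hF' : ∀ x, σ x ∈ F' ↔ x ∈ F') (hσ : ∀ x ∈ F, σ x = x)
    (J : Ideal (RF T₀ F)) : (J.map (bc h)).map (ra T₀ F' σ) = J.map (bc h) := by
  have h1 : ((ra T₀ F' σ : RF T₀ F' ≃+* RF T₀ F') : RF T₀ F' →+* RF T₀ F').comp (bc h) = bc h :=
    RingHom.ext fun b => ra_bc h hF' hσ b
  have h2 := Ideal.map_map (I := J) (bc h) ((ra T₀ F' σ : RF T₀ F' ≃+* RF T₀ F') :
    RF T₀ F' →+* RF T₀ F')
  rw [h1] at h2
  exact h2

/-- the point over `A` -/
noncomputable def ptA {A : IntermediateField k M} {Q : WB T₀ →ₐ[k] M} (hQ : ∀ b, Q b ∈ A) :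
    Pt (TF T₀ A) where
  toFun b := ⟨ev A Q b, by
    rw [ev_apply]
    exact sum_mem fun j _ => mul_mem (eval₂_mem _ (fun a => a.2) (hQ _) _) (hQ _)⟩
  map_one' := Subtype.ext (map_one (ev A Q))
  map_zero' := Subtype.ext (map_zero (ev A Q))
  map_mul' a b := Subtype.ext (map_mul (ev A Q) a b)
  map_add' a b := Subtype.ext (map_add (ev A Q) a b)
  commutes' r := Subtype.ext ((ev A Q).commutes r)

theorem ptA_val {A : IntermediateField k M} {Q : WB T₀ →ₐ[k] M} (hQ : ∀ b, Q b ∈ A)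
    (b : RF T₀ A) : ((ptA hQ b : A) : M) = ev A Q b := rfl

end

end TIFL
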