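import Mathlib
import Pool.Agent.TIFL.F3

/-!
# [TIF LINK] the Kummer character of the point `Q`
-/

set_option autoImplicit false
set_option linter.unusedSectionVars false

open Polynomial GT Pool.Agent.TBR Pool.Agent.TIFC

namespace TIFL

open Pool.Agent.TIFS (Pt bp ker_bp bcl bcl_cls iX exists_rep exists_gen cls_iX_nsmul iX_ne iX_nsmul kw
  e_map clm_bE)
open Pool.Agent.TIFB Pool.Agent.TIFA

section

variable {k M : Type} [Field k] [Field M] [Algebra k M] [IsAlgClosed M] {d : ℕ} [NeZero d]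
  {T₀ : Tab k d} {ℓ : ℕ} [Fact ℓ.Prime] {h : ℕ}

theorem NN_fixk {P Q : WB T₀ →ₐ[k] M} {σ : M ≃ₐ[k] M} (hσ : σ ∈ NN P Q) :
    ∀ x ∈ kk k M, σ x = x := fun x hx => hσ.2 x (mem_algebraicClosure_iff.1 hx)

theorem Q_mem (Q : WB T₀ →ₐ[k] M) (b : WB T₀) : Q b ∈ cl (cor Q) := le_cl _ (mem_cor Q b)

/-- the ideals and functions of a torsion basis -/
theorem exists_JD [IsDedekindDomain (RF T₀ (kk k M))] {n : ℕ}
    {t : ClassGroup (RF T₀ (kk k M))} (ht : t ^ n = 1) :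
    ∃ (X : Multiset (Pt (TF T₀ (kk k M)))) (f : RF T₀ (kk k M)), lc f = 1 ∧
      iX (n • X) = Ideal.span {f} ∧ SUP.cls (iX X) = t ∧ JD n (iX X) f := by
  obtain ⟨X, hX⟩ := exists_rep t
  have h1 : SUP.cls (iX (n • X)) = 1 := by rw [cls_iX_nsmul, hX, ht]
  obtain ⟨f, hf, hf'⟩ := exists_gen (iX_ne (n • X)) h1
  refine ⟨X, f, hf, hf', hX, iX_ne X, ?_, ?_⟩
  · rintro rfl
    have h2 := iX_ne (n • X)
    rw [hf', Ideal.span_singleton_eq_bot.2 rfl] at h2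
    exact h2 rfl
  · rw [← iX_nsmul, hf']

theorem kwQ {P Q : WB T₀ →ₐ[k] M} [IsDedekindDomain (RF T₀ (kk k M))]
    [IsDedekindDomain (RF T₀ (cl (cor Q)))]
    {tau : ℕ → (Fin h → ℤ_[ℓ]) → ClassGroup (RF T₀ (kk k M))} (tb : TBs ℓ h tau)
    {zeta : ℕ → kk k M} {E : Matrix (Fin h) (Fin h) ℤ_[ℓ]}
    (hE : ∀ n x y, Pool.Agent.TIFS.e (ℓ ^ n) (tau n x) (tau n y) =
      zeta n ^ (PadicInt.toZModPow n (x ⬝ᵥ E.mulVec y)).val) (n : ℕ)
    {z : ClassGroup (RF T₀ (cl (cor Q)))} (hz : z ^ ℓ ^ n = SUP.cls (RingHom.ker (ptA (Q_mem Q))))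
    {δ : (M ≃ₐ[k] M) → Fin h → ℤ_[ℓ]}
    (hδ : ∀ σ ∈ NN P Q, SUP.clm (ra T₀ (cl (cor Q)) σ) z = z * bl (kk_le_cl _) (tau n (δ σ)))
    {X : Multiset (Pt (TF T₀ (kk k M)))} {f : RF T₀ (kk k M)} (lf : lc f = 1)
    (hf : iX (ℓ ^ n • X) = Ideal.span {f}) (i : Fin h)
    (hX : SUP.cls (iX X) = tau n (Pi.single i 1)) :
    ∃ w : M, w ∈ cl (cor Q) ∧ w ^ ℓ ^ n = ev (kk k M) Q f ∧ ∀ σ ∈ NN P Q,
      σ w = (zeta n : M) ^ (PadicInt.toZModPow n ((E.mulVec (δ σ)) i)).val * w := by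
  have hκA : kk k M ≤ cl (cor Q) := kk_le_cl _
  obtain ⟨w, hw, hσw⟩ := kw (jF hκA) (TF_incl (T₀ := T₀) hκA) lf hf (ptA (Q_mem Q)) hz
  have hval : ∀ b : RF T₀ (kk k M), ((ptA (Q_mem Q) (bmap (jF hκA) (TF_incl (T₀ := T₀) hκA) b) :
      cl (cor Q)) : M) = ev (kk k M) Q b := by
    intro b
    rw [ptA_val]
    exact ev_bc hκA Q b
  refine ⟨w, w.2, ?_, ?_⟩
  · have h1 := congrArg (fun a : cl (cor Q) => (a : M)) hw
    rw [← hval f]
    exact h1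
  · intro σ hσ
    have hst := fun x => NN'_stab hσ.1 x
    have h1 := hσw (((res (cl (cor Q)) σ : cl (cor Q) ≃ₐ[k] cl (cor Q)) :
      cl (cor Q) ≃+* cl (cor Q)) : cl (cor Q) →+* cl (cor Q)) (TF_map (res (cl (cor Q)) σ))
      (fun x => Subtype.ext ((res_coe hst _).trans (NN_fixk hσ x x.2)))
      (fun b => by
        refine Subtype.ext ((res_coe hst _).trans ?_)
        rw [hval b]
        have h2 : ev (kk k M) Q b ∈ AA (kk k M) (Set.range Q) := ev_mem _ _ _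
        exact AA_fix (NN_fixk hσ) (fun x hx => hσ.1 x (Or.inr hx)) _ h2)
    have h3 : bcl (((res (cl (cor Q)) σ : cl (cor Q) ≃ₐ[k] cl (cor Q)) :
      cl (cor Q) ≃+* cl (cor Q)) : cl (cor Q) →+* cl (cor Q)) (TF_map (res (cl (cor Q)) σ)) z =
        z * bl hκA (tau n (δ σ)) := by
      rw [← hδ σ hσ]
      exact (clm_bE _ _ _).symm
    rw [h3, mul_div_cancel_left, hX] at h1
    have h4 : Pool.Agent.TIFS.e (ℓ ^ n) (bcl (jF hκA) (TF_incl (T₀ := T₀) hκA)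
        (tau n (Pi.single i 1))) (bl hκA (tau n (δ σ))) =
        jF hκA (zeta n ^ (PadicInt.toZModPow n ((E.mulVec (δ σ)) i)).val) := by
      rw [e_map (jF hκA) (TF_incl (T₀ := T₀) hκA) (tb.toTS.tors n _) (tb.toTS.tors n _), hE]
      congr 4
      rw [single_one_dotProduct]
    rw [h4] at h1
    have h5 := congrArg (fun a : cl (cor Q) => (a : M)) h1
    have h6 : ((((res (cl (cor Q)) σ : cl (cor Q) ≃ₐ[k] cl (cor Q)) w : cl (cor Q)) : M)) = σ w :=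
      res_coe hst w
    rw [← h6]
    refine h5.trans ?_
    push_cast
    rfl

end

end TIFL
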