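import Mathlib
import Pool.Agent.TIFL.G1
import Pool.Agent.TIFC.Spec

/-!
# [TIF LINK] characters and Kummer elements
-/

set_option autoImplicit false
set_option linter.unusedSectionVars false

open Polynomial GT Pool.Agent.TBR Pool.Agent.TIFC

namespace TIFL

section

variable {k M : Type} [Field k] [Field M] [Algebra k M]

theorem smul_unit_val (σ : M ≃ₐ[k] M) (w : Mˣ) : ((σ • w : Mˣ) : M) = σ w := rfl

theorem prim_modEq {N₀ : ℕ} {ζ : Mˣ} (hζ : IsPrimitiveRoot ζ N₀) {a b : ℕ} :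
    ζ ^ a = ζ ^ b ↔ a ≡ b [MOD N₀] := by
  rw [pow_eq_pow_iff_modEq, ← hζ.eq_orderOf]

/-- the character of a root -/
theorem exists_chr {N : Subgroup (M ≃ₐ[k] M)} {N₀ : ℕ} (hN₀ : 0 < N₀) {ζ : Mˣ}
    (hζ : IsPrimitiveRoot ζ N₀) (hζN : ∀ σ ∈ N, σ • ζ = ζ) {w f : Mˣ} (hw : w ^ N₀ = f)
    (hf : ∀ σ ∈ N, σ • f = f) : ∃ χ : (M ≃ₐ[k] M) → ℕ, Chr N N₀ χ ∧
      (∀ σ ∈ N, σ • w = ζ ^ χ σ * w) ∧ ∀ A : Set M, (w : M) ∈ A → Lo1 N A χ := by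
  classical
  have hex : ∀ σ ∈ N, ∃ i, i < N₀ ∧ σ • w = ζ ^ i * w := by
    intro σ hσ
    have h1 : ((σ • w * w⁻¹ : Mˣ) : M) ^ N₀ = 1 := by
      rw [← Units.val_pow_eq_pow_val, mul_pow, ← smul_pow', hw, hf σ hσ, inv_pow, hw, mul_inv_cancel,
        Units.val_one]
    have hζ' : IsPrimitiveRoot (ζ : M) N₀ := IsPrimitiveRoot.coe_units_iff.2 hζ
    have : NeZero N₀ := ⟨hN₀.ne'⟩
    obtain ⟨i, hi, hi'⟩ := hζ'.eq_pow_of_pow_eq_one h1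
    refine ⟨i, hi, ?_⟩
    have h2 : ζ ^ i = σ • w * w⁻¹ := Units.ext (by
      rw [Units.val_pow_eq_pow_val]; exact hi')
    rw [h2, inv_mul_cancel_right]
  let χ : (M ≃ₐ[k] M) → ℕ := fun σ => if h : ∃ i, i < N₀ ∧ σ • w = ζ ^ i * w then h.choose else 0
  have hχ : ∀ σ ∈ N, χ σ < N₀ ∧ σ • w = ζ ^ χ σ * w := by
    intro σ hσ
    have h := hex σ hσ
    simp only [χ, dif_pos h]
    exact h.choose_spec
  refine ⟨χ, ⟨fun σ hσ => (hχ σ hσ).1, ?_⟩, fun σ hσ => (hχ σ hσ).2, ?_⟩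
  · intro σ hσ τ hτ
    rw [← prim_modEq hζ]
    have h1 := (hχ _ (N.mul_mem hσ hτ)).2
    rw [mul_smul, (hχ τ hτ).2, smul_mul', smul_pow', hζN σ hσ, (hχ σ hσ).2] at h1
    rw [← mul_assoc] at h1
    rw [← mul_right_cancel h1, pow_add, mul_comm]
  · intro A hA
    refine ⟨{(w : M)}, by simpa using hA, ?_⟩
    intro σ hσ τ hτ h
    have h1 : σ • w = τ • w := Units.ext (h _ (by simp))
    have h2 : (χ σ) ≡ (χ τ) [MOD N₀] := by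
      rw [← prim_modEq hζ]
      have h3 := (hχ σ hσ).2
      rw [h1, (hχ τ hτ).2] at h3
      exact (mul_right_cancel h3).symm
    exact Nat.ModEq.eq_of_lt_of_lt h2 (hχ σ hσ).1 (hχ τ hτ).1

end

section

variable {k M : Type} [Field k] [Field M] [Algebra k M] [IsAlgClosed M] {d : ℕ} [NeZero d]
  {T₀ : Tab k d}

theorem Gpt.exists_u {P Q : WB T₀ →ₐ[k] M} (h : Gpt P Q) (p : ℕ) [ExpChar M p] {N₀ : ℕ}
    (hp : Nat.Coprime p N₀) {ζ : Mˣ} (hζ : IsPrimitiveRoot ζ N₀) (hζk : (ζ : M) ∈ kk k M)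
    {j : (M ≃ₐ[k] M) → ℕ} (hj : Chr (NN P Q) N₀ j)
    (hj' : Lo1 (NN P Q) (cl (cor Q) : Set M) j) :
    ∃ u : Mˣ, (u : M) ∈ cl (cor Q) ∧ (∀ σ ∈ NN P Q, σ • u = ζ ^ j σ * u) ∧
      ((u ^ N₀ : Mˣ) : M) ∈ AA (kk k M) (Set.range Q) := by
  have hζN : ∀ σ ∈ NN P Q, σ • ζ = ζ := fun σ hσ => Units.ext (NN_fixk hσ _ hζk)
  obtain ⟨u, hu, hu'⟩ := exists_kummer (A := cl (cor Q)) (N := NN P Q)
    (fun σ hσ x hx => (NN'_stab hσ.1 x).2 hx)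
    h.sit.orb (fun σ => ζ ^ j σ) (by
      obtain ⟨S, hS, hS'⟩ := hj'
      exact ⟨S, hS, fun σ hσ τ hτ hst => congrArg (fun m => ζ ^ m) (hS' σ hσ τ hτ hst)⟩)
    (fun σ _ => by
      rw [Units.val_pow_eq_pow_val]
      exact pow_mem (kk_le_cl _ hζk) _)
    (fun σ hσ τ hτ => by
      rw [smul_pow', hζN σ hσ, ← pow_add, prim_modEq hζ]
      exact hj.add σ hσ τ hτ)
  have hg : ∀ σ ∈ NN P Q, σ ((u ^ N₀ : Mˣ) : M) = ((u ^ N₀ : Mˣ) : M) := by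
    intro σ hσ
    rw [← smul_unit_val, smul_pow', hu' σ hσ, mul_pow, ← pow_mul, mul_comm (j σ), pow_mul,
      hζ.pow_eq_one, one_pow, one_mul]
  obtain ⟨s, hs, hs'⟩ := h.exists_pow' p hp (g := ((u ^ N₀ : Mˣ) : M)) (by
    rw [Units.val_pow_eq_pow_val]; exact pow_mem hu _) hg
  refine ⟨u ^ p ^ s, ?_, ?_, ?_⟩
  · rw [Units.val_pow_eq_pow_val]; exact pow_mem hu _
  · intro σ hσ
    rw [smul_pow', hu' σ hσ, mul_pow, ← pow_mul]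
    congr 1
    rw [prim_modEq hζ]
    simpa using hs.mul_left (j σ)
  · rw [← pow_mul, mul_comm, pow_mul, Units.val_pow_eq_pow_val]
    exact hs'

end

end TIFL
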