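import Mathlib
import Pool.Agent.TIFL.G2

/-!
# [TIF LINK] the three packages, the data of the endgame
-/

set_option autoImplicit false
set_option linter.unusedSectionVars false

open Polynomial GT Pool.Agent.TBR Pool.Agent.TIFC

namespace TIFL

open Pool.Agent.TIFS (Pt bp ker_bp bcl bcl_cls iX)
open Pool.Agent.TIFB Pool.Agent.TIFA

section

variable {k M : Type} [Field k] [Field M] [Algebra k M] [IsAlgClosed M] {d : ℕ} [NeZero d]
  {T₀ : Tab k d}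

variable (T₀) in
/-- the action on the points -/
noncomputable abbrev xaF (F : IntermediateField k M) [IsDedekindDomain (RF T₀ F)]
    (σ : M ≃ₐ[k] M) : XX (RF T₀ F) → XX (RF T₀ F) := hm (ra T₀ F σ)

variable (T₀) in
/-- the action on the classes -/
noncomputable abbrev caF (F : IntermediateField k M) [IsDedekindDomain (RF T₀ F)]
    (σ : M ≃ₐ[k] M) : ClassGroup (RF T₀ F) →* ClassGroup (RF T₀ F) := SUP.clm (ra T₀ F σ)

/-- the divisor of a function -/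
noncomputable abbrev dvF (F : IntermediateField k M) [IsDedekindDomain (RF T₀ F)]
    (P : WB T₀ →ₐ[k] M) : Mˣ → XX (RF T₀ F) →₀ ℤ := dv (ev F P : RF T₀ F →+* M)

theorem Gpt.cvA {P Q : WB T₀ →ₐ[k] M} (h : Gpt P Q) [IsDedekindDomain (RF T₀ (cl (cor Q)))] :
    Cv (cl (cor Q)) (AA (cl (cor Q)) (Set.range P)) (NN' P Q) (xaF T₀ (cl (cor Q)))
      (caF T₀ (cl (cor Q))) (dvF (cl (cor Q)) P) cD :=
  (pk (N := NN' P Q) h.tp (fun _ hσ x => NN'_stab hσ x) (fun _ hσ x hx => hσ x (Or.inl hx))).cv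

theorem kk_stab (σ : M ≃ₐ[k] M) (x : M) : σ x ∈ kk k M ↔ x ∈ kk k M := by
  rw [mem_algebraicClosure_iff, mem_algebraicClosure_iff]
  exact isAlgebraic_algHom_iff (σ : M →ₐ[k] M) σ.injective

theorem Gpt.tk {P Q : WB T₀ →ₐ[k] M} (h : Gpt P Q) :
    Transcendental (kk k M) (Q (WB.x T₀)) := transc_mono (kk_le_cl _) h.symm.tp

theorem Gpt.cvk {P Q : WB T₀ →ₐ[k] M} (h : Gpt P Q) [IsDedekindDomain (RF T₀ (kk k M))] :
    Cv (kk k M) (AA (kk k M) (Set.range Q)) (NN' P Q) (xaF T₀ (kk k M))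
      (caF T₀ (kk k M)) (dvF (kk k M) Q) cD :=
  (pk (N := NN' P Q) h.tk (fun σ _ x => kk_stab σ x) (fun _ hσ x hx => hσ x (Or.inr hx))).cv

theorem bl_fix {F : IntermediateField k M} [IsDedekindDomain (RF T₀ (kk k M))]
    [IsDedekindDomain (RF T₀ F)] (h : kk k M ≤ F) {σ : M ≃ₐ[k] M} (hF : ∀ x, σ x ∈ F ↔ x ∈ F)
    (hσ : ∀ x ∈ kk k M, σ x = x) (D : ClassGroup (RF T₀ (kk k M))) :
    caF T₀ F σ (bl h D) = bl h D := by
  obtain ⟨I, hI, rfl⟩ := SUP.exists_cls D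
  rw [bl_cls h hI, SUP.clm_cls _ (map_bot_iff (bc_inj h) hI), map_fix h hF hσ]

/-- the data of the endgame -/
structure Lv (P Q : WB T₀ →ₐ[k] M) [IsDedekindDomain (RF T₀ (kk k M))]
    [IsDedekindDomain (RF T₀ (cl (cor Q)))] [IsDedekindDomain (RF T₀ (cl (cor P)))]
    (ℓ : ℕ) [Fact ℓ.Prime] (h : ℕ)
    (tau : ℕ → (Fin h → ℤ_[ℓ]) → ClassGroup (RF T₀ (kk k M)))
    (z : ℕ → ClassGroup (RF T₀ (cl (cor Q)))) (δ : (M ≃ₐ[k] M) → Fin h → ℤ_[ℓ])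
    (zeta : ℕ → kk k M) (E : Matrix (Fin h) (Fin h) ℤ_[ℓ]) : Prop where
  g : Gpt P Q
  tb : TBs ℓ h tau
  tbA : TBs ℓ h (fun n x => bl (kk_le_cl (cor Q)) (tau n x))
  injB : ∀ D : ClassGroup (RF T₀ (kk k M)), bl (kk_le_cl (cor P)) D = 1 → D = 1
  z0 : z 0 = SUP.cls (RingHom.ker (ptA (Q_mem Q)))
  zs : ∀ n, z (n + 1) ^ ℓ = z n
  zδ : ∀ n, ∀ σ ∈ NN P Q, caF T₀ (cl (cor Q)) σ (z n) = z n * bl (kk_le_cl _) (tau n (δ σ))
  prim : ∀ n, IsPrimitiveRoot (zeta n) (ℓ ^ n)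
  hE : ∀ n x y, Pool.Agent.TIFS.e (ℓ ^ n) (tau n x) (tau n y) =
      zeta n ^ (PadicInt.toZModPow n (x ⬝ᵥ E.mulVec y)).val
  det : IsUnit E.det

variable {P Q : WB T₀ →ₐ[k] M} [IsDedekindDomain (RF T₀ (kk k M))]
    [IsDedekindDomain (RF T₀ (cl (cor Q)))] [IsDedekindDomain (RF T₀ (cl (cor P)))]
    {ℓ : ℕ} [Fact ℓ.Prime] {h : ℕ}
    {tau : ℕ → (Fin h → ℤ_[ℓ]) → ClassGroup (RF T₀ (kk k M))}
    {z : ℕ → ClassGroup (RF T₀ (cl (cor Q)))} {δ : (M ≃ₐ[k] M) → Fin h → ℤ_[ℓ]}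
    {zeta : ℕ → kk k M} {E : Matrix (Fin h) (Fin h) ℤ_[ℓ]}

theorem Lv.zn (L : Lv P Q ℓ h tau z δ zeta E) (n : ℕ) :
    z n ^ ℓ ^ n = SUP.cls (RingHom.ker (ptA (Q_mem Q))) := by
  rw [← L.z0]
  induction n with
  | zero => rw [pow_zero, pow_one]
  | succ n ih => rw [pow_succ', pow_mul, L.zs, ih]

theorem Lv.trv (L : Lv P Q ℓ h tau z δ zeta E) {σ : M ≃ₐ[k] M} (hσ : σ ∈ NN P Q) (n : ℕ)
    (x : Fin h → ℤ_[ℓ]) :
    caF T₀ (cl (cor Q)) σ (bl (kk_le_cl _) (tau n x)) = bl (kk_le_cl _) (tau n x) :=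
  bl_fix _ (fun x => NN'_stab hσ.1 x) (NN_fixk hσ) _

/-- the root of unity in `M` -/
noncomputable def zu (L : Lv P Q ℓ h tau z δ zeta E) (n : ℕ) : Mˣ :=
  Units.mk0 ((zeta n : kk k M) : M) (by
    intro h0
    have h1 : zeta n = 0 := Subtype.ext h0
    exact (L.prim n).ne_zero (pow_pos (Fact.out : ℓ.Prime).pos n).ne' h1)

theorem zu_val (L : Lv P Q ℓ h tau z δ zeta E) (n : ℕ) : ((zu L n : Mˣ) : M) = zeta n := rfl

theorem zu_mem (L : Lv P Q ℓ h tau z δ zeta E) (n : ℕ) : ((zu L n : Mˣ) : M) ∈ kk k M :=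
  (zeta n).2

theorem zu_prim (L : Lv P Q ℓ h tau z δ zeta E) (n : ℕ) : IsPrimitiveRoot (zu L n) (ℓ ^ n) := by
  rw [← IsPrimitiveRoot.coe_units_iff]
  exact (L.prim n).map_of_injective (f := algebraMap (kk k M) M) (algebraMap (kk k M) M).injective

theorem zu_fix (L : Lv P Q ℓ h tau z δ zeta E) (n : ℕ) {σ : M ≃ₐ[k] M} (hσ : σ ∈ NN P Q) :
    σ • zu L n = zu L n := Units.ext (NN_fixk hσ _ (zu_mem L n))

end

section tau

variable {J : Type} [CommGroup J] {ℓ : ℕ} [Fact ℓ.Prime] {h : ℕ}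
  {tau : ℕ → (Fin h → ℤ_[ℓ]) → J}

theorem toZ_zero_iff {n : ℕ} {c : ℤ_[ℓ]} :
    PadicInt.toZModPow n c = 0 ↔ ∃ b, c = (ℓ : ℤ_[ℓ]) ^ n * b := by
  rw [← RingHom.mem_ker, PadicInt.ker_toZModPow, Ideal.mem_span_singleton]
  rfl

theorem tau_eq_iff (tb : TBs ℓ h tau) {n : ℕ} {x y : Fin h → ℤ_[ℓ]} :
    tau n x = tau n y ↔ ∀ i, PadicInt.toZModPow n (x i) = PadicInt.toZModPow n (y i) := by
  have h0 : tau n (x - y) * tau n y = tau n x := by
    rw [← tb.add, sub_add_cancel]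
  have h1 : tau n x = tau n y ↔ tau n (x - y) = 1 := by
    rw [← h0]
    exact mul_eq_right
  rw [h1, tb.ker]
  constructor
  · rintro ⟨w, hw⟩ i
    rw [← sub_eq_zero, ← map_sub, toZ_zero_iff]
    exact ⟨w i, by
      have := congrFun hw i
      exact this⟩
  · intro h2
    have h3 : ∀ i, ∃ b, x i - y i = (ℓ : ℤ_[ℓ]) ^ n * b := by
      intro i
      rw [← toZ_zero_iff, map_sub, h2 i, sub_self]
    choose b hb using h3
    exact ⟨b, funext hb⟩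

theorem toZ_val (n : ℕ) (c : ℤ_[ℓ]) :
    PadicInt.toZModPow n (((PadicInt.toZModPow n c).val : ℕ) : ℤ_[ℓ]) = PadicInt.toZModPow n c := by
  have : NeZero (ℓ ^ n) := ⟨pow_ne_zero n (Fact.out : ℓ.Prime).ne_zero⟩
  rw [map_natCast, ZMod.natCast_zmod_val]

theorem tau_one (tb : TBs ℓ h tau) {n : ℕ} {x : Fin h → ℤ_[ℓ]} :
    tau n x = 1 ↔ ∀ i, PadicInt.toZModPow n (x i) = 0 := by
  rw [← tb.toTS.zero n, tau_eq_iff tb]
  refine forall_congr' fun i => ?_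
  rw [Pi.zero_apply, map_zero]

theorem tau_sum (tb : TBs ℓ h tau) (n : ℕ) {ι : Type} (s : Finset ι) (x : ι → Fin h → ℤ_[ℓ]) :
    tau n (∑ i ∈ s, x i) = ∏ i ∈ s, tau n (x i) := by
  classical
  induction s using Finset.induction_on with
  | empty => rw [Finset.sum_empty, Finset.prod_empty, tb.toTS.zero]
  | insert i s hi ih => rw [Finset.sum_insert hi, Finset.prod_insert hi, tb.add, ih]

/-- products of the classes of the basis -/
theorem tau_nat (tb : TBs ℓ h tau) (n : ℕ) (m : Fin h → ℕ) :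
    ∏ i, tau n (Pi.single i 1) ^ m i = tau n (fun i => (m i : ℤ_[ℓ])) := by
  classical
  have h1 : (fun i => (m i : ℤ_[ℓ])) = ∑ i, m i • (Pi.single i (1 : ℤ_[ℓ]) : Fin h → ℤ_[ℓ]) := by
    funext j
    rw [Finset.sum_apply, Finset.sum_eq_single j]
    · rw [Pi.smul_apply, Pi.single_eq_same, nsmul_eq_mul, mul_one]
    · intro i _ hij
      rw [Pi.smul_apply, Pi.single_eq_of_ne hij.symm, smul_zero]
    · intro h; exact absurd (Finset.mem_univ _) h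
  rw [h1, tau_sum tb]
  exact Finset.prod_congr rfl fun i _ => (tb.toTS.nsmul n _ _).symm

/-- the class of a vector as a product of the classes of the basis -/
theorem tau_prod (tb : TBs ℓ h tau) (n : ℕ) (x : Fin h → ℤ_[ℓ]) :
    ∏ i, tau n (Pi.single i 1) ^ (PadicInt.toZModPow n (x i)).val = tau n x := by
  rw [tau_nat tb, tau_eq_iff tb]
  exact fun i => toZ_val n (x i)

end tau

end TIFL
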