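import Mathlib
import Pool.Agent.TIFL.G3

/-!
# [TIF LINK] the divisors of the functions of `Q`
-/

set_option autoImplicit false
set_option linter.unusedSectionVars false

open Polynomial GT Pool.Agent.TBR Pool.Agent.TIFC

namespace TIFL

open Pool.Agent.TIFS (Pt bp ker_bp bcl bcl_cls iX)
open Pool.Agent.TIFB Pool.Agent.TIFA

section tau

variable {J : Type} [CommGroup J] {ℓ : ℕ} [Fact ℓ.Prime] {h : ℕ}
  {tau : ℕ → (Fin h → ℤ_[ℓ]) → J}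

theorem tau_neg (tb : TBs ℓ h tau) (n : ℕ) (x : Fin h → ℤ_[ℓ]) : tau n (-x) = (tau n x)⁻¹ := by
  have h1 := tb.add n (-x) x
  rw [neg_add_cancel, tb.toTS.zero] at h1
  exact eq_inv_of_mul_eq_one_left h1.symm

theorem tau_zsmul (tb : TBs ℓ h tau) (n : ℕ) (m : ℤ) (x : Fin h → ℤ_[ℓ]) :
    tau n (m • x) = tau n x ^ m := by
  obtain ⟨a, rfl | rfl⟩ := m.eq_nat_or_neg
  · rw [natCast_zsmul, zpow_natCast, tb.toTS.nsmul]
  · rw [neg_smul, tau_neg tb, natCast_zsmul, tb.toTS.nsmul, zpow_neg, zpow_natCast]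

theorem tau_int (tb : TBs ℓ h tau) (n : ℕ) (m : Fin h → ℤ)
    (hm : ∏ i, tau n (Pi.single i 1) ^ m i = 1) (i : Fin h) : ((ℓ ^ n : ℕ) : ℤ) ∣ m i := by
  classical
  have h1 : (fun i => (m i : ℤ_[ℓ])) = ∑ i, m i • (Pi.single i (1 : ℤ_[ℓ]) : Fin h → ℤ_[ℓ]) := by
    funext j
    rw [Finset.sum_apply, Finset.sum_eq_single j]
    · rw [Pi.smul_apply, Pi.single_eq_same, zsmul_eq_mul, mul_one]
    · intro i _ hij
      rw [Pi.smul_apply, Pi.single_eq_of_ne hij.symm, smul_zero]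
    · intro h; exact absurd (Finset.mem_univ _) h
  have h2 : tau n (fun i => (m i : ℤ_[ℓ])) = 1 := by
    rw [h1, tau_sum tb, ← hm]
    exact Finset.prod_congr rfl fun i _ => tau_zsmul tb n _ _
  have h3 := (tau_one tb).1 h2 i
  rw [map_intCast] at h3
  exact (ZMod.intCast_zmod_eq_zero_iff_dvd _ _).1 h3

end tau

section

variable {k M : Type} [Field k] [Field M] [Algebra k M] [IsAlgClosed M] {d : ℕ} [NeZero d]
  {T₀ : Tab k d} {P Q : WB T₀ →ₐ[k] M}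

theorem Gpt.cvA' (h : Gpt P Q) [IsDedekindDomain (RF T₀ (cl (cor Q)))] :
    Cv (cl (cor Q)) (AA (cl (cor Q)) (Set.range P)) (NN P Q) (xaF T₀ (cl (cor Q)))
      (caF T₀ (cl (cor Q))) (dvF (cl (cor Q)) P) cD := Cv.mono (NN_le P Q) h.cvA

theorem Gpt.cvB' (h : Gpt P Q) [IsDedekindDomain (RF T₀ (cl (cor P)))] :
    Cv (cl (cor P)) (AA (cl (cor P)) (Set.range Q)) (NN P Q) (xaF T₀ (cl (cor P)))
      (caF T₀ (cl (cor P))) (dvF (cl (cor P)) Q) cD := by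
  rw [NN_swap]
  exact h.symm.cvA'

theorem Gpt.sitB (h : Gpt P Q) :
    Sit (cl (cor P)) (AA (cl (cor P)) (Set.range Q)) (NN P Q) := by
  rw [NN_swap]
  exact h.symm.sit

theorem Gpt.cvk' (h : Gpt P Q) [IsDedekindDomain (RF T₀ (kk k M))] :
    Cv (kk k M) (AA (kk k M) (Set.range Q)) (NN P Q) (xaF T₀ (kk k M))
      (caF T₀ (kk k M)) (dvF (kk k M) Q) cD := Cv.mono (NN_le P Q) h.cvk

theorem fixkP {σ : M ≃ₐ[k] M} (hσ : σ ∈ NN P Q) : ∀ x ∈ AA (kk k M) (Set.range P), σ x = x :=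
  AA_fix (NN_fixk hσ) fun x hx => hσ.1 x (Or.inl hx)

theorem fixkQ {σ : M ≃ₐ[k] M} (hσ : σ ∈ NN P Q) : ∀ x ∈ AA (kk k M) (Set.range Q), σ x = x :=
  AA_fix (NN_fixk hσ) fun x hx => hσ.1 x (Or.inr hx)

theorem mem_cl_of_pow {L : IntermediateField k M} {x : M} {n : ℕ} (hn : 0 < n)
    (h : x ^ n ∈ cl L) : x ∈ cl L := by
  apply cl_cl
  have h1 : IsAlgebraic (cl L) (x ^ n) := isAlgebraic_algebraMap (⟨_, h⟩ : cl L)
  exact h1.of_pow hn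

variable [IsDedekindDomain (RF T₀ (kk k M))]
    [IsDedekindDomain (RF T₀ (cl (cor Q)))] [IsDedekindDomain (RF T₀ (cl (cor P)))]
    {ℓ : ℕ} [Fact ℓ.Prime] {h : ℕ}
    {tau : ℕ → (Fin h → ℤ_[ℓ]) → ClassGroup (RF T₀ (kk k M))}
    {z : ℕ → ClassGroup (RF T₀ (cl (cor Q)))} {δ : (M ≃ₐ[k] M) → Fin h → ℤ_[ℓ]}
    {zeta : ℕ → kk k M} {E : Matrix (Fin h) (Fin h) ℤ_[ℓ]}

theorem Lv.div_g (L : Lv P Q ℓ h tau z δ zeta E) (p : ℕ) [ExpChar M p] (n : ℕ)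
    (hp : Nat.Coprime (ℓ ^ n) p)
    (Jd : Fin h → Ideal (RF T₀ (kk k M))) (f : Fin h → RF T₀ (kk k M))
    (hJ : ∀ i, JD (ℓ ^ n) (Jd i) (f i)) (hcl : ∀ i, SUP.cls (Jd i) = tau n (Pi.single i 1))
    (u g : Fin h → Mˣ) (hg : ∀ i, (g i : M) ∈ AA (kk k M) (Set.range Q))
    (hu : ∀ i, u i ^ ℓ ^ n = g i) (j : Fin h → (M ≃ₐ[k] M) → ℕ)
    (hj : ∀ i, Chr (NN P Q) (ℓ ^ n) (j i)) (hjl : ∀ i, Lo1 (NN P Q) Set.univ (j i))
    (huj : ∀ i, ∀ σ ∈ NN P Q, σ • u i = zu L n ^ j i σ * u i)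
    (a : (M ≃ₐ[k] M) → (M ≃ₐ[k] M) → Mˣ)
    (ha : Tri (NN P Q) (fun σ τ => a σ τ * ∏ i, fv L.g.symm.tk (hJ i).ne' ^ car (ℓ ^ n) (j i) σ τ))
    (hun : ∀ V : ValuationSubring M, (∀ x : k, algebraMap k M x ∈ V) → V ≠ ⊤ →
      Tri (NN P Q ⊓ St k V) a) (i : Fin h) (q : XX (RF T₀ (kk k M))) :
    ((ℓ ^ n : ℕ) : ℤ) ∣ dvF (kk k M) Q (g i) q := by
  have hN₀ : 0 < ℓ ^ n := pow_pos (Fact.out : ℓ.Prime).pos n
  have hζN : ∀ σ ∈ NN P Q, σ • zu L n = zu L n := fun σ hσ => zu_fix L n hσ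
  have hζ1 : zu L n ^ ℓ ^ n = 1 := (zu_prim L n).pow_eq_one
  obtain ⟨F, hF⟩ : ∃ F : Fin h → Mˣ, ∀ i, F i = fv L.g.symm.tk (hJ i).ne' := ⟨_, fun _ => rfl⟩
  have hFk : ∀ i, (F i : M) ∈ AA (kk k M) (Set.range P) := fun i => by
    rw [hF, fv_val]; exact ev_mem _ _ _
  have hFN : ∀ i, ∀ σ ∈ NN P Q, σ • F i = F i := fun i σ hσ =>
    Units.ext (fixkP hσ _ (hFk i))
  -- the roots of the functions of `P`
  have hw : ∀ i, ∃ w : Mˣ, w ^ ℓ ^ n = F i := by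
    intro i
    obtain ⟨w, hw⟩ := IsAlgClosed.exists_pow_nat_eq (F i : M) hN₀
    have hw0 : w ≠ 0 := by
      rintro rfl
      rw [zero_pow hN₀.ne'] at hw
      exact (F i).ne_zero hw.symm
    exact ⟨Units.mk0 w hw0, Units.ext (by rw [Units.val_pow_eq_pow_val, Units.val_mk0, hw])⟩
  choose w hw using hw
  have hwB : ∀ i, (w i : M) ∈ cl (cor P) := fun i => by
    apply mem_cl_of_pow hN₀
    rw [← Units.val_pow_eq_pow_val, hw]
    exact kQ_le P (hFk i)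
  choose χ hχ hwχ hχl using fun i => exists_chr hN₀ (zu_prim L n) hζN (hw i) (hFN i)
  have hsymb := symb (N := NN P Q) (ℓ ^ n) hN₀ (zu L n) hζ1 hζN w u F g hw hu χ j hχ hj
    (fun i => hχl i _ (Set.mem_univ _)) hjl hwχ huj
  -- the point
  have hprime := bc_prime (T₀ := T₀) (kk_le_cl (cor P))
  obtain ⟨x, hx⟩ : ∃ x, x = ext (bc_inj (T₀ := T₀) (kk_le_cl (cor P))) hprime q := ⟨_, rfl⟩
  have hxN : ∀ σ ∈ NN P Q, xaF T₀ (cl (cor P)) σ x = x := by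
    intro σ hσ
    refine IsDedekindDomain.HeightOneSpectrum.ext ?_
    rw [hm_asIdeal, hx, ext_asIdeal]
    refine map_fix _ (fun y => ?_) (NN_fixk hσ) _
    have hσ' : σ ∈ NN Q P := by rw [NN_swap]; exact hσ
    exact NN'_stab hσ'.1 y
  have hgE : ∀ i, (g i : M) ∈ AA (cl (cor P)) (Set.range Q) := fun i =>
    (sup_le_sup_right (kk_le_cl _) _ : AA (kk k M) (Set.range Q) ≤ AA (cl (cor P)) (Set.range Q))
      (hg i)
  have hgN : ∀ i, ∀ σ ∈ NN P Q, σ • g i = g i := fun i σ hσ => Units.ext (fixkQ hσ _ (hg i))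
  have hres := resid p L.g.sitB L.g.cvB' (ℓ ^ n) hN₀ hp g hgE hgN χ hχ
    (fun i => hχl i _ (hwB i)) x hxN (by
      intro V hV hV'
      have h1 := hun V (fun y => hV _ ((cl (cor P)).algebraMap_mem y)) hV'
      have h2 := ha.mono (inf_le_left : NN P Q ⊓ St k V ≤ NN P Q)
      have h3 := hsymb.mono (inf_le_left : NN P Q ⊓ St k V ≤ NN P Q)
      refine ((h3.mul h2.inv).mul h1).congr fun σ _ τ _ => ?_
      simp only [← hF]
      rw [mul_inv_rev]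
      rw [mul_comm (∏ i, F i ^ car (ℓ ^ n) (j i) σ τ) (∏ i, g i ^ car (ℓ ^ n) (χ i) σ τ)]
      group)
  -- independence of the characters of the roots
  have hk := kumm p L.g.sit L.g.cvA' (ℓ ^ n) hN₀ hp (zu L n) hζ1 w F hw
    (fun i => dI ((Jd i).map (bc (kk_le_cl (cor Q)))))
    (fun i => (sup_le_sup_right (kk_le_cl _) _ :
      AA (kk k M) (Set.range P) ≤ AA (cl (cor Q)) (Set.range P)) (hFk i))
    (fun i => by rw [hF]; exact dv_fv (kk_le_cl (cor Q)) L.g.symm.tk L.g.tp (hJ i)) χ hwχ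
    (fun i => dvF (cl (cor P)) Q (g i) x) hres
  have hk' : ∏ i, (bl (kk_le_cl (cor Q)) (tau n (Pi.single i 1))) ^
      (dvF (cl (cor P)) Q (g i) x) = 1 := by
    rw [← hk]
    refine Finset.prod_congr rfl fun i _ => ?_
    rw [cD_dI (map_bot_iff (bc_inj _) (hJ i).ne), ← bl_cls _ (hJ i).ne, hcl]
  have hfin := tau_int L.tbA n _ hk' i
  obtain ⟨u', w', hw', h1⟩ := ev_quo L.g.tk (g i : M) (hg i)
  have hu' : u' ≠ 0 := by
    rintro rfl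
    rw [map_zero] at h1
    exact mul_ne_zero (g i).ne_zero ((map_ne_zero_iff _ (ev_inj L.g.tk)).2 hw') h1.symm
  rw [hx, dv_ext_apply (bc_inj (T₀ := T₀) (kk_le_cl (cor P))) hprime (ev := (ev (kk k M) Q :
    RF T₀ (kk k M) →+* M)) (ev' := (ev (cl (cor P)) Q : RF T₀ (cl (cor P)) →+* M))
    (ev_inj L.g.tk) (ev_inj L.g.symm.tp) (fun r => ev_bc _ Q r) hu' hw' h1] at hfin
  exact hfin

end

end TIFL
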