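import Mathlib
import Pool.Agent.TIFL.G4

/-!
# [TIF LINK] unramified characters
-/

set_option autoImplicit false
set_option linter.unusedSectionVars false

open Polynomial GT Pool.Agent.TBR Pool.Agent.TIFC

namespace TIFL

open Pool.Agent.TIFS (Pt bp ker_bp bcl bcl_cls iX)
open Pool.Agent.TIFB Pool.Agent.TIFA

section

variable {k M : Type} [Field k] [Field M] [Algebra k M] {A E : IntermediateField k M}
  {N : Subgroup (M ≃ₐ[k] M)} {X C : Type} [CommGroup C] {xa : (M ≃ₐ[k] M) → X → X}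
  {ca : (M ≃ₐ[k] M) → C →* C} {dv : Mˣ → X →₀ ℤ} {cD : (X →₀ ℤ) → C}
  {a : (M ≃ₐ[k] M) → (M ≃ₐ[k] M) → Mˣ} {b : (M ≃ₐ[k] M) → C}

/-- the classes are a cocycle -/
theorem rel_coc (hC : Cv A E N xa ca dv cD) (h : Rel A E N xa dv cD a b) {σ τ : M ≃ₐ[k] M}
    (hσ : σ ∈ N) (hτ : τ ∈ N) : b (σ * τ) = b σ * ca σ (b τ) := by
  obtain ⟨ha, D, -, hD, hD'⟩ := h
  have h1 : cD (dv (a σ τ)) = 1 := (hC.cD_one _).2 ⟨a σ τ, ha.mem σ hσ τ hτ, rfl⟩
  have h2 : D (σ * τ) = dv (a σ τ) + (D σ + (D τ).mapDomain (xa σ)) := by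
    rw [hD' σ hσ τ hτ]
    abel
  rw [← hD _ (N.mul_mem hσ hτ), h2, hC.cD_add, h1, one_mul, hC.cD_add, hC.cD_act σ hσ, hD σ hσ,
    hD τ hτ]

theorem rel_lo (h : Rel A E N xa dv cD a b) : Lo1 N (A : Set M) b := by
  obtain ⟨-, D, ⟨S, hS, hS'⟩, hD, -⟩ := h
  exact ⟨S, hS, fun σ hσ τ hτ hst => by rw [← hD σ hσ, ← hD τ hτ, hS' σ hσ τ hτ hst]⟩

end

section

variable {k M : Type} [Field k] [Field M] [Algebra k M] [IsAlgClosed M] {d : ℕ} [NeZero d]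
  {T₀ : Tab k d} {P Q : WB T₀ →ₐ[k] M} [IsDedekindDomain (RF T₀ (kk k M))]
    [IsDedekindDomain (RF T₀ (cl (cor Q)))] [IsDedekindDomain (RF T₀ (cl (cor P)))]
    {ℓ : ℕ} [Fact ℓ.Prime] {h : ℕ}
    {tau : ℕ → (Fin h → ℤ_[ℓ]) → ClassGroup (RF T₀ (kk k M))}
    {z : ℕ → ClassGroup (RF T₀ (cl (cor Q)))} {δ : (M ≃ₐ[k] M) → Fin h → ℤ_[ℓ]}
    {zeta : ℕ → kk k M} {E : Matrix (Fin h) (Fin h) ℤ_[ℓ]}

/-- unramified characters with values in the torsion -/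
theorem Lv.unr (L : Lv P Q ℓ h tau z δ zeta E) (p : ℕ) [ExpChar M p] (n : ℕ)
    (hp : Nat.Coprime (ℓ ^ n) p) (a : (M ≃ₐ[k] M) → (M ≃ₐ[k] M) → Mˣ)
    (b : (M ≃ₐ[k] M) → ClassGroup (RF T₀ (cl (cor Q))))
    (hab : Rel (cl (cor Q)) (AA (cl (cor Q)) (Set.range P)) (NN P Q) (xaF T₀ (cl (cor Q)))
      (dvF (cl (cor Q)) P) cD a b)
    (hb : ∀ σ ∈ NN P Q, b σ ^ ℓ ^ n = 1)
    (hun : ∀ V : ValuationSubring M, (∀ x : k, algebraMap k M x ∈ V) → V ≠ ⊤ →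
      Tri (NN P Q ⊓ St k V) a) :
    ∃ Φ : Matrix (Fin h) (Fin h) ℤ_[ℓ], ∀ σ ∈ NN P Q,
      b σ = bl (kk_le_cl _) (tau n (Φ.mulVec (δ σ))) := by
  classical
  have hN₀ : 0 < ℓ ^ n := pow_pos (Fact.out : ℓ.Prime).pos n
  have : NeZero (ℓ ^ n) := ⟨hN₀.ne'⟩
  have hex : ∀ σ, ∃ x, σ ∈ NN P Q → bl (kk_le_cl (cor Q)) (tau n x) = b σ := by
    intro σ
    by_cases hσ : σ ∈ NN P Q
    · obtain ⟨x, hx⟩ := L.tbA.sur n (b σ) (hb σ hσ)
      exact ⟨x, fun _ => hx⟩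
    · exact ⟨0, fun h => absurd h hσ⟩
  choose β hβ using hex
  have hmul : ∀ σ ∈ NN P Q, ∀ τ ∈ NN P Q, b (σ * τ) = b σ * b τ := by
    intro σ hσ τ hτ
    rw [rel_coc L.g.cvA' hab hσ hτ, ← hβ τ hτ, L.trv hσ]
  obtain ⟨j, hjd⟩ : ∃ j : Fin h → (M ≃ₐ[k] M) → ℕ, ∀ i σ,
    j i σ = (PadicInt.toZModPow n (β σ i)).val := ⟨_, fun _ _ => rfl⟩
  have hjz : ∀ i σ, ((j i σ : ℕ) : ZMod (ℓ ^ n)) = PadicInt.toZModPow n (β σ i) := by
    intro i σ
    rw [hjd, ZMod.natCast_zmod_val]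
  have hj : ∀ i, Chr (NN P Q) (ℓ ^ n) (j i) := by
    intro i
    refine ⟨fun σ _ => by rw [hjd]; exact ZMod.val_lt _, fun σ hσ τ hτ => ?_⟩
    rw [← ZMod.natCast_eq_natCast_iff, Nat.cast_add, hjz, hjz, hjz, ← map_add]
    have h1 : bl (kk_le_cl (cor Q)) (tau n (β (σ * τ))) =
        bl (kk_le_cl (cor Q)) (tau n (β σ + β τ)) := by
      rw [hβ _ ((NN P Q).mul_mem hσ hτ), hmul σ hσ τ hτ, L.tb.add, map_mul, hβ σ hσ, hβ τ hτ]
    exact (tau_eq_iff L.tbA).1 h1 i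
  have hjl : ∀ i, Lo1 (NN P Q) (cl (cor Q) : Set M) (j i) := by
    intro i
    obtain ⟨S, hS, hS'⟩ := rel_lo hab
    refine ⟨S, hS, fun σ hσ τ hτ hst => ?_⟩
    have h1 : bl (kk_le_cl (cor Q)) (tau n (β σ)) = bl (kk_le_cl (cor Q)) (tau n (β τ)) := by
      rw [hβ σ hσ, hβ τ hτ, hS' σ hσ τ hτ hst]
    rw [hjd, hjd, (tau_eq_iff L.tbA).1 h1 i]
  -- the functions
  choose X f lf hf hX hJ using fun i : Fin h =>
    exists_JD (T₀ := T₀) (k := k) (M := M) (n := ℓ ^ n) (L.tb.toTS.tors n (Pi.single i 1))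
  have hcar := rel_car (N := NN P Q) L.g.sit L.g.cvA' (ℓ ^ n) hN₀
    (fun i => dI ((iX (X i)).map (bc (kk_le_cl (cor Q)))))
    (fun i σ hσ => by
      have h1 := dI_map (ra T₀ (cl (cor Q)) σ) (map_bot_iff (bc_inj (T₀ := T₀)
        (kk_le_cl (cor Q))) (hJ i).ne)
      rw [map_fix (kk_le_cl (cor Q)) (fun x => NN'_stab hσ.1 x) (NN_fixk hσ)] at h1
      exact h1.symm)
    (fun i => fv L.g.symm.tk (hJ i).ne')
    (fun i => (sup_le_sup_right (kk_le_cl _) _ :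
      AA (kk k M) (Set.range P) ≤ AA (cl (cor Q)) (Set.range P)) (ev_mem _ _ _))
    (fun i => dv_fv (kk_le_cl (cor Q)) L.g.symm.tk L.g.tp (hJ i))
    (fun i σ hσ => Units.ext (fixkP hσ _ (ev_mem _ _ _))) j hj hjl
  have hab2 := Rel.mul L.g.cvA' hab hcar
  have hb1 : ∀ σ ∈ NN P Q, b σ * ∏ i, (cD (dI ((iX (X i)).map (bc (T₀ := T₀)
      (kk_le_cl (cor Q))))) ^ j i σ)⁻¹ = 1 := by
    intro σ hσ
    rw [Finset.prod_inv_distrib, mul_inv_eq_one, ← hβ σ hσ]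
    have h1 := tau_prod L.tbA n (β σ)
    rw [← h1]
    refine Finset.prod_congr rfl fun i _ => ?_
    rw [cD_dI (map_bot_iff (bc_inj _) (hJ i).ne), ← bl_cls _ (hJ i).ne, hX, hjd]
  have hab3 := Rel.congr hab2 (a' := fun σ τ => a σ τ *
    ∏ i, fv L.g.symm.tk (hJ i).ne' ^ car (ℓ ^ n) (j i) σ τ)
    (b' := fun _ => 1) (fun _ _ _ _ => rfl) hb1
  have htri := tri_of_rel (kk k M) (kk_le_cl _) (fun σ hσ => NN_fixk hσ) (Q (WB.x T₀))
    (Q_mem Q _) (fun x hx => by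
      refine isAlg_mono ?_ (mem_cl.1 (cl_le_cl (cor_le_cl Q) hx))
      exact le_sup_right) L.g.sit L.g.cvA' hab3 1 (fun σ _ => by rw [mul_one, map_one])
  -- Kummer elements
  choose u huA huj hug using fun i => L.g.exists_u p hp.symm (zu_prim L n) (zu_mem L n) (hj i)
    (hjl i)
  have hdiv := fun i => L.div_g p n hp (fun i => iX (X i)) f hJ hX u (fun i => u i ^ ℓ ^ n) hug
    (fun i => rfl) j hj (fun i => by
      obtain ⟨S, hS, hS'⟩ := hjl i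
      exact ⟨S, Set.subset_univ _, hS'⟩) huj a htri hun i
  choose m e he hge using fun i => cv_gen L.g.cvk' (le_AA _ _) hN₀ (fun i => dI (iX (X i)))
    (fun i => fv L.g.tk (hJ i).ne') (fun i => ev_mem _ _ _) (fun i => dv_fv' L.g.tk (hJ i))
    (fun y hy => by
      obtain ⟨x, hx⟩ := L.tb.sur n y hy
      refine ⟨fun i => (PadicInt.toZModPow n (x i)).val, ?_⟩
      rw [← hx, ← tau_prod L.tb n x]
      refine Finset.prod_congr rfl fun i _ => ?_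
      rw [cD_dI (hJ i).ne, hX]) (u i ^ ℓ ^ n) (hug i) (hdiv i)
  choose v hvA hv hvσ using fun i => kwQ (P := P) L.tb L.hE n (L.zn n) (L.zδ n) (lf i) (hf i) i (hX i)
  have hv0 : ∀ i, v i ≠ 0 := by
    intro i h0
    have h1 := hv i
    rw [h0, zero_pow hN₀.ne'] at h1
    exact (fv L.g.tk (hJ i).ne').ne_zero h1.symm
  have hkey : ∀ i, ∀ σ ∈ NN P Q, j i σ ≡
      ∑ l, m i l * (PadicInt.toZModPow n ((E.mulVec (δ σ)) l)).val [MOD ℓ ^ n] := by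
    intro i σ hσ
    obtain ⟨V, hV⟩ : ∃ V : Fin h → Mˣ, ∀ l, V l = Units.mk0 (v l) (hv0 l) := ⟨_, fun _ => rfl⟩
    have hVN : ∀ l, V l ^ ℓ ^ n = fv L.g.tk (hJ l).ne' := by
      intro l
      refine Units.ext ?_
      rw [hV, Units.val_pow_eq_pow_val, Units.val_mk0, hv]
      rfl
    have hVσ : ∀ l, σ • V l = zu L n ^ (PadicInt.toZModPow n ((E.mulVec (δ σ)) l)).val * V l := by
      intro l
      refine Units.ext ?_
      rw [hV, smul_unit_val, Units.val_mk0, hvσ l σ hσ, Units.val_mul, Units.val_pow_eq_pow_val,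
        zu_val, Units.val_mk0]
    have h1 : (u i * (e i * ∏ l, V l ^ m i l)⁻¹) ^ ℓ ^ n = 1 := by
      rw [mul_pow, inv_pow, mul_inv_eq_one, mul_pow, ← Finset.prod_pow, hge i]
      congr 1
      refine Finset.prod_congr rfl fun l _ => ?_
      rw [← pow_mul, mul_comm (m i l), pow_mul, hVN]
    have h2 : ((u i * (e i * ∏ l, V l ^ m i l)⁻¹ : Mˣ) : M) ^ ℓ ^ n = 1 := by
      rw [← Units.val_pow_eq_pow_val, h1, Units.val_one]
    obtain ⟨c, -, hc⟩ := (IsPrimitiveRoot.coe_units_iff.2 (zu_prim L n)).eq_pow_of_pow_eq_one h2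
    have hc' : zu L n ^ c = u i * (e i * ∏ l, V l ^ m i l)⁻¹ :=
      Units.ext (by rw [Units.val_pow_eq_pow_val]; exact hc)
    have hui : u i = zu L n ^ c * (e i * ∏ l, V l ^ m i l) := by
      rw [hc', inv_mul_cancel_right]
    have h3 : σ • u i = zu L n ^ (∑ l, m i l * (PadicInt.toZModPow n ((E.mulVec (δ σ)) l)).val) *
        u i := by
      have h4 : σ • e i = e i := Units.ext (fixkQ hσ _ (he i))
      have h5 : σ • (∏ l, V l ^ m i l) = (∏ l, (σ • V l) ^ m i l) := by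
        rw [Finset.smul_prod']
        exact Finset.prod_congr rfl fun l _ => smul_pow' _ _ _
      rw [hui, smul_mul', smul_mul', h4, h5, smul_pow', zu_fix L n hσ]
      simp only [hVσ, mul_pow, Finset.prod_mul_distrib, ← pow_mul]
      rw [Finset.prod_pow_eq_pow_sum]
      have h6 : ∑ l, (PadicInt.toZModPow n ((E.mulVec (δ σ)) l)).val * m i l =
          ∑ l, m i l * (PadicInt.toZModPow n ((E.mulVec (δ σ)) l)).val :=
        Finset.sum_congr rfl fun l _ => mul_comm _ _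
      rw [h6]
      rw [← mul_assoc, ← mul_assoc, ← mul_assoc, ← mul_assoc]
      congr 1
      rw [mul_assoc, mul_comm (e i), ← mul_assoc]
      congr 1
      exact mul_comm _ _
    rw [huj i σ hσ] at h3
    exact (prim_modEq (zu_prim L n)).1 (mul_right_cancel h3)
  refine ⟨(Matrix.of fun i l => ((m i l : ℕ) : ℤ_[ℓ])) * E, fun σ hσ => ?_⟩
  rw [← hβ σ hσ]
  refine (tau_eq_iff L.tbA).2 fun i => ?_
  rw [← hjz, ← Matrix.mulVec_mulVec]
  have h1 := (ZMod.natCast_eq_natCast_iff _ _ _).2 (hkey i σ hσ)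
  rw [h1, Nat.cast_sum, Matrix.mulVec, dotProduct, map_sum]
  refine Finset.sum_congr rfl fun l _ => ?_
  rw [Nat.cast_mul, ZMod.natCast_zmod_val, Matrix.of_apply, map_mul, map_natCast]

end

end TIFL
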