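import Mathlib
import Pool.Agent.TIFL.G5
import Pool.Agent.TIFB.Lim

/-!
# [TIF LINK] the data of the endgame: independence, the classes with torsion differences
-/

set_option autoImplicit false
set_option linter.unusedSectionVars false

open Polynomial GT Pool.Agent.TBR Pool.Agent.TIFC

namespace TIFL

open Pool.Agent.TIFS (Pt bp ker_bp bcl bcl_cls iX)
open Pool.Agent.TIFB Pool.Agent.TIFA

section

variable {k M : Type} [Field k] [Field M] [Algebra k M] {A E : IntermediateField k M}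
  {N : Subgroup (M ≃ₐ[k] M)} {X C : Type} [CommGroup C] {xa : (M ≃ₐ[k] M) → X → X}
  {ca : (M ≃ₐ[k] M) → C →* C} {dv : Mˣ → X →₀ ℤ} {cD : (X →₀ ℤ) → C}
  {a : (M ≃ₐ[k] M) → (M ≃ₐ[k] M) → Mˣ} {b : (M ≃ₐ[k] M) → C}

theorem mapDomain_congr' {f g : X → X} {D : X →₀ ℤ} (h : ∀ x ∈ D.support, f x = g x) :
    D.mapDomain f = D.mapDomain g := Finsupp.mapDomain_congr h

/-- a coboundary -/
theorem rel_cob (hC : Cv A E N xa ca dv cD) (y : C) :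
    Rel A E N xa dv cD (fun _ _ => 1) (fun σ => ca σ y / y) := by
  classical
  obtain ⟨Y, rfl⟩ := hC.cD_sur y
  have hneg : ∀ D : X →₀ ℤ, cD (-D) = (cD D)⁻¹ := cv_cD_neg hC
  have emap : ∀ (f : X → X) (D D' : X →₀ ℤ), Finsupp.mapDomain f (D - D') =
      Finsupp.mapDomain f D - Finsupp.mapDomain f D' := by
    intro f D D'
    rw [← Finsupp.mapDomain.addMonoidHom_apply, ← Finsupp.mapDomain.addMonoidHom_apply,
      ← Finsupp.mapDomain.addMonoidHom_apply, map_sub]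
  refine ⟨⟨⟨∅, by simp, fun _ _ _ _ _ _ _ _ _ _ => rfl⟩, fun σ _ τ _ => E.one_mem,
    fun σ _ τ _ ρ _ => by rw [smul_one, one_mul], fun _ _ => ⟨rfl, rfl⟩⟩,
    fun σ => Y.mapDomain (xa σ) - Y, ?_, ?_, ?_⟩
  · choose S hS hS' using hC.xa_lc
    refine ⟨Y.support.biUnion S, ?_, ?_⟩
    · intro x hx
      obtain ⟨q, -, hq⟩ := Finset.mem_biUnion.1 hx
      exact hS q hq
    · intro σ hσ τ hτ h
      have h1 : Y.mapDomain (xa σ) = Y.mapDomain (xa τ) := by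
        refine mapDomain_congr' fun q hq => hS' q σ hσ τ hτ fun x hx => ?_
        exact h x (Finset.mem_biUnion.2 ⟨q, hq, hx⟩)
      show Y.mapDomain (xa σ) - Y = Y.mapDomain (xa τ) - Y
      rw [h1]
  · intro σ hσ
    show cD (Finsupp.mapDomain (xa σ) Y - Y) = ca σ (cD Y) / cD Y
    rw [sub_eq_add_neg, hC.cD_add, hC.cD_act σ hσ, hneg, div_eq_mul_inv]
  · intro σ hσ τ hτ
    rw [cv_dv_one hC, emap, ← Finsupp.mapDomain_comp]
    have h1 : xa σ ∘ xa τ = xa (σ * τ) := funext fun x => (hC.xa_mul σ hσ τ hτ x).symm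
    rw [h1]
    ext x
    simp only [Finsupp.sub_apply, Finsupp.zero_apply]
    ring

end

section

variable {k M : Type} [Field k] [Field M] [Algebra k M] [IsAlgClosed M] {d : ℕ} [NeZero d]
  {T₀ : Tab k d} {P Q : WB T₀ →ₐ[k] M} [IsDedekindDomain (RF T₀ (kk k M))]
    [IsDedekindDomain (RF T₀ (cl (cor Q)))] [IsDedekindDomain (RF T₀ (cl (cor P)))]
    {ℓ : ℕ} [Fact ℓ.Prime] {h : ℕ}
    {tau : ℕ → (Fin h → ℤ_[ℓ]) → ClassGroup (RF T₀ (kk k M))}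
    {z : ℕ → ClassGroup (RF T₀ (cl (cor Q)))} {δ : (M ≃ₐ[k] M) → Fin h → ℤ_[ℓ]}
    {zeta : ℕ → kk k M} {E : Matrix (Fin h) (Fin h) ℤ_[ℓ]}

/-- the Kummer cocycle of `Q` generates -/
theorem Lv.inj (L : Lv P Q ℓ h tau z δ zeta E) (p : ℕ) [ExpChar M p] (n : ℕ)
    (hp : Nat.Coprime (ℓ ^ n) p) (Φ : Matrix (Fin h) (Fin h) ℤ_[ℓ])
    (hΦ : ∀ σ ∈ NN P Q, bl (kk_le_cl (cor Q)) (tau n (Φ.mulVec (δ σ))) = 1) :
    ∃ Φ', Φ = (ℓ : ℤ_[ℓ]) ^ n • Φ' := by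
  classical
  have hN₀ : 0 < ℓ ^ n := pow_pos (Fact.out : ℓ.Prime).pos n
  have : NeZero (ℓ ^ n) := ⟨hN₀.ne'⟩
  have hζ1 : zu L n ^ ℓ ^ n = 1 := (zu_prim L n).pow_eq_one
  choose X f lf hf hX hJ using fun i : Fin h =>
    exists_JD (T₀ := T₀) (k := k) (M := M) (n := ℓ ^ n) (L.tb.toTS.tors n (Pi.single i 1))
  choose v hvA hv hvσ using fun i => kwQ (P := P) L.tb L.hE n (L.zn n) (L.zδ n) (lf i) (hf i) i (hX i)
  have hv0 : ∀ i, v i ≠ 0 := by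
    intro i h0
    have h1 := hv i
    rw [h0, zero_pow hN₀.ne'] at h1
    exact (fv L.g.tk (hJ i).ne').ne_zero h1.symm
  obtain ⟨V, hV⟩ : ∃ V : Fin h → Mˣ, ∀ l, V l = Units.mk0 (v l) (hv0 l) := ⟨_, fun _ => rfl⟩
  have hVN : ∀ l, V l ^ ℓ ^ n = fv L.g.tk (hJ l).ne' := by
    intro l
    refine Units.ext ?_
    rw [hV, Units.val_pow_eq_pow_val, Units.val_mk0, hv]
    rfl
  have hVσ : ∀ l, ∀ σ ∈ NN P Q,
      σ • V l = zu L n ^ (PadicInt.toZModPow n ((E.mulVec (δ σ)) l)).val * V l := by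
    intro l σ hσ
    refine Units.ext ?_
    rw [hV, smul_unit_val, Units.val_mk0, hvσ l σ hσ, Units.val_mul, Units.val_pow_eq_pow_val,
      zu_val, Units.val_mk0]
  obtain ⟨Y, hY⟩ : ∃ Y : Matrix (Fin h) (Fin h) ℤ_[ℓ], Φ = Y * E :=
    ⟨Φ * E⁻¹, by rw [Matrix.mul_assoc, Matrix.nonsing_inv_mul E L.det, Matrix.mul_one]⟩
  have hrow : ∀ i l, PadicInt.toZModPow n (Y i l) = 0 := by
    intro i
    have hq : ∀ σ ∈ NN P Q, ((ℓ ^ n : ℕ) : ℤ) ∣ ∑ l,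
        (((PadicInt.toZModPow n (Y i l)).val : ℕ) : ℤ) *
          ((PadicInt.toZModPow n ((E.mulVec (δ σ)) l)).val : ℕ) := by
      intro σ hσ
      rw [← ZMod.intCast_zmod_eq_zero_iff_dvd]
      have h1 := (tau_one L.tbA).1 (hΦ σ hσ) i
      rw [hY, ← Matrix.mulVec_mulVec, Matrix.mulVec, dotProduct, map_sum] at h1
      rw [← h1]
      push_cast
      refine Finset.sum_congr rfl fun l _ => ?_
      rw [ZMod.natCast_zmod_val, ZMod.natCast_zmod_val, map_mul]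
    have hk := kumm p L.g.sitB L.g.cvB' (ℓ ^ n) hN₀ hp (zu L n) hζ1 V
      (fun l => fv L.g.tk (hJ l).ne') hVN
      (fun l => dI ((iX (X l)).map (bc (kk_le_cl (cor P)))))
      (fun l => (sup_le_sup_right (kk_le_cl _) _ :
        AA (kk k M) (Set.range Q) ≤ AA (cl (cor P)) (Set.range Q)) (ev_mem _ _ _))
      (fun l => dv_fv (kk_le_cl (cor P)) L.g.tk L.g.symm.tp (hJ l))
      (fun l σ => (PadicInt.toZModPow n ((E.mulVec (δ σ)) l)).val) hVσ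
      (fun l => (((PadicInt.toZModPow n (Y i l)).val : ℕ) : ℤ)) hq
    have hk' : bl (kk_le_cl (cor P)) (tau n (fun l => Y i l)) = 1 := by
      rw [← hk, ← tau_prod L.tb n, map_prod]
      refine Finset.prod_congr rfl fun l _ => ?_
      rw [cD_dI (map_bot_iff (bc_inj _) (hJ l).ne), ← bl_cls _ (hJ l).ne, hX, map_pow,
        zpow_natCast]
    exact (tau_one L.tb).1 (L.injB _ hk')
  choose Y' hY' using fun i l => toZ_zero_iff.1 (hrow i l)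
  refine ⟨(Matrix.of Y') * E, ?_⟩
  have h2 : Y = (ℓ : ℤ_[ℓ]) ^ n • Matrix.of Y' := by
    ext i l
    rw [hY' i l, Matrix.smul_apply, Matrix.of_apply, smul_eq_mul]
  rw [hY, h2, Matrix.smul_mul]

theorem tri_one (D : Subgroup (M ≃ₐ[k] M)) : Tri D (fun _ _ => (1 : Mˣ)) :=
  ⟨fun _ => 1, Lc1.const _ _, fun σ _ τ _ => by rw [smul_one]⟩

theorem Lv.k0 (L : Lv P Q ℓ h tau z δ zeta E) (p : ℕ) [ExpChar M p] (n : ℕ)
    (hp : Nat.Coprime (ℓ ^ n) p) (y : ClassGroup (RF T₀ (cl (cor Q))))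
    (hy : ∀ s ∈ NN P Q, ∃ x, caF T₀ (cl (cor Q)) s y = y * bl (kk_le_cl _) (tau n x)) :
    ∃ Φ : Matrix (Fin h) (Fin h) ℤ_[ℓ], ∀ s ∈ NN P Q,
      caF T₀ (cl (cor Q)) s y = y * bl (kk_le_cl _) (tau n (Φ.mulVec (δ s))) := by
  obtain ⟨Φ, hΦ⟩ := L.unr p n hp (fun _ _ => 1) (fun σ => caF T₀ (cl (cor Q)) σ y / y)
    (rel_cob L.g.cvA' y) (by
      intro σ hσ
      obtain ⟨x, hx⟩ := hy σ hσ
      rw [hx, mul_div_cancel_left, ← map_pow, L.tb.toTS.tors, map_one])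
    (fun V _ _ => tri_one _)
  refine ⟨Φ, fun s hs => ?_⟩
  rw [← hΦ s hs, mul_div_cancel]

theorem NN_norm {γ : M ≃ₐ[k] M} (hγ : γ ∈ NN' P Q) {s : M ≃ₐ[k] M} (hs : s ∈ NN P Q) :
    γ⁻¹ * s * γ ∈ NN P Q := by
  refine ⟨(NN' P Q).mul_mem ((NN' P Q).mul_mem ((NN' P Q).inv_mem hγ) hs.1) hγ, ?_⟩
  intro x hx
  rw [AlgEquiv.mul_apply, AlgEquiv.mul_apply]
  have h1 : IsAlgebraic k (γ x) := hx.algHom (γ : M →ₐ[k] M)
  rw [hs.2 _ h1]
  exact γ.symm_apply_apply x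

theorem caF_mul {F : IntermediateField k M} [IsDedekindDomain (RF T₀ F)] {σ τ : M ≃ₐ[k] M}
    (hσ : ∀ x, σ x ∈ F ↔ x ∈ F) (hτ : ∀ x, τ x ∈ F ↔ x ∈ F) (y : ClassGroup (RF T₀ F)) :
    caF T₀ F (σ * τ) y = caF T₀ F σ (caF T₀ F τ y) := by
  refine (SUP.clm_clm (ra T₀ F τ) (ra T₀ F σ) (ra T₀ F (σ * τ)) (fun b => ?_) y).symm
  have hστ : ∀ x, (σ * τ) x ∈ F ↔ x ∈ F := fun x => by
    rw [AlgEquiv.mul_apply, hσ, hτ]
  refine WB.ext (funext fun j => ?_)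
  rw [ra_co, ra_co, ra_co, Polynomial.map_map]
  congr 1
  refine RingHom.ext fun a => Subtype.ext ?_
  refine (res_coe hστ a).trans ?_
  refine Eq.trans ?_ (res_coe hσ _).symm
  exact congrArg σ (res_coe hτ a).symm

theorem caF_one {F : IntermediateField k M} [IsDedekindDomain (RF T₀ F)]
    (y : ClassGroup (RF T₀ F)) : caF T₀ F 1 y = y := by
  refine SUP.clm_id (ra T₀ F 1) (fun b => ?_) y
  refine WB.ext (funext fun j => ?_)
  rw [ra_co]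
  have h1 : ((((res F (1 : M ≃ₐ[k] M) : F ≃ₐ[k] F) : F ≃+* F) : F →+* F)) = RingHom.id F :=
    RingHom.ext fun a => Subtype.ext (res_coe (fun x => Iff.rfl) a)
  rw [h1, Polynomial.map_id]

theorem caF_pt {γ : M ≃ₐ[k] M} (hγ : γ ∈ NN' P Q) :
    caF T₀ (cl (cor Q)) γ (SUP.cls (RingHom.ker (ptA (Q_mem Q)))) =
      SUP.cls (RingHom.ker (ptA (Q_mem Q))) := by
  have hne : RingHom.ker (ptA (Q_mem Q)) ≠ ⊥ := Pool.Agent.TIFS.ker_ne_bot' _
  rw [SUP.clm_cls _ hne]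
  congr 1
  have hst := fun x => NN'_stab hγ x
  have key : ∀ b : RF T₀ (cl (cor Q)), ra T₀ (cl (cor Q)) γ b ∈ RingHom.ker (ptA (Q_mem Q)) ↔
      b ∈ RingHom.ker (ptA (Q_mem Q)) := by
    intro b
    have h1 : ev (cl (cor Q)) Q (ra T₀ (cl (cor Q)) γ b) = γ (ev (cl (cor Q)) Q b) :=
      ev_ra hst (fun b => hγ _ (Or.inr ⟨b, rfl⟩)) b
    have h2 : ∀ c : RF T₀ (cl (cor Q)), c ∈ RingHom.ker (ptA (Q_mem Q)) ↔
        ev (cl (cor Q)) Q c = 0 := by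
      intro c
      rw [RingHom.mem_ker, ← ptA_val (Q_mem Q) c]
      exact ⟨fun h => by rw [h]; rfl, fun h => Subtype.ext h⟩
    rw [h2, h2, h1]
    exact map_eq_zero_iff γ γ.injective
  apply le_antisymm
  · rw [Ideal.map_le_iff_le_comap]
    intro b hb
    exact (key b).2 hb
  · intro b hb
    obtain ⟨c, rfl⟩ := (ra T₀ (cl (cor Q)) γ).surjective b
    exact Ideal.mem_map_of_mem _ ((key c).1 hb)

theorem Lv.lim (L : Lv P Q ℓ h tau z δ zeta E) (p : ℕ) [ExpChar M p] (hp : Nat.Coprime ℓ p)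
    (div : ∀ D : ClassGroup (RF T₀ (cl (cor Q))), ∃ E, E ^ ℓ = D) :
    LimData ℓ h (NN P Q) (NN' P Q) (caF T₀ (cl (cor Q)))
      (fun n x => bl (kk_le_cl (cor Q)) (tau n x)) z δ where
  le := NN_le P Q
  norm := fun _ hγ _ hs => NN_norm hγ hs
  ca_one := caF_one
  ca_mul := fun _ hσ _ hτ y => caF_mul (fun x => NN'_stab hσ x) (fun x => NN'_stab hτ x) y
  tb := L.tbA
  div := div
  trv := fun _ hs n x => L.trv hs n x
  zs := L.zs
  z0 := fun _ hγ => by rw [L.z0]; exact caF_pt hγ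
  zδ := L.zδ
  inj := fun n Φ hΦ => L.inj p n (hp.pow_left n) Φ hΦ
  k0 := fun n y hy => L.k0 p n (hp.pow_left n) y hy

end

end TIFL
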