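import Mathlib
import Pool.Agent.TIFL.G6

/-!
# [TIF LINK] the systems of Brauer classes
-/

set_option autoImplicit false
set_option linter.unusedSectionVars false

open Polynomial GT Pool.Agent.TBR Pool.Agent.TIFC

namespace TIFL

open Pool.Agent.TIFS (Pt bp ker_bp bcl bcl_cls iX)
open Pool.Agent.TIFB Pool.Agent.TIFA

section

variable {k M : Type} [Field k] [Field M] [Algebra k M]

theorem sys_pow {S : Set M} {ℓ : ℕ} {C : ℕ → (M ≃ₐ[k] M) → (M ≃ₐ[k] M) → Mˣ} (hC : SysU S ℓ C)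
    (n : ℕ) : Tri (Ge k S) (fun σ τ => C n σ τ ^ ℓ ^ n) := by
  induction n with
  | zero => exact hC.zero.congr fun σ _ τ _ => by rw [pow_zero, pow_one]
  | succ n ih =>
    refine (((hC.step n).pow (ℓ ^ n)).mul ih).congr fun σ _ τ _ => ?_
    rw [mul_pow, inv_pow, inv_mul_cancel_right, ← pow_mul, ← pow_succ']

theorem sys_one {S : Set M} {ℓ : ℕ} {C : ℕ → (M ≃ₐ[k] M) → (M ≃ₐ[k] M) → Mˣ} (hC : SysU S ℓ C)
    (n : ℕ) {m : ℕ} (hm : m ≡ 1 [MOD ℓ ^ n]) (hm' : 0 < m) :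
    Tri (Ge k S) (fun σ τ => C n σ τ ^ m * (C n σ τ)⁻¹) := by
  obtain ⟨c, hc⟩ := (Nat.modEq_iff_dvd' hm').1 hm.symm
  have h1 : m = ℓ ^ n * c + 1 := by omega
  refine ((sys_pow hC n).pow c).congr fun σ _ τ _ => ?_
  rw [h1, pow_succ, mul_inv_cancel_right, pow_mul]

theorem tri_conj {N : Subgroup (M ≃ₐ[k] M)} {c : (M ≃ₐ[k] M) → (M ≃ₐ[k] M) → Mˣ} {g : M ≃ₐ[k] M}
    (hg : ∀ s ∈ N, g⁻¹ * s * g ∈ N) (h : Tri N c) :
    Tri N (fun σ τ => g • c (g⁻¹ * σ * g) (g⁻¹ * τ * g)) := by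
  obtain ⟨b, hb, hcob⟩ := h
  refine ⟨fun σ => g • b (g⁻¹ * σ * g), (hb.conj g fun _ _ => Set.mem_univ _).smul g, ?_⟩
  intro σ hσ τ hτ
  have h1 := hcob _ (hg σ hσ) _ (hg τ hτ)
  have e1 : g⁻¹ * (σ * τ) * g = (g⁻¹ * σ * g) * (g⁻¹ * τ * g) := by group
  show g • c (g⁻¹ * σ * g) (g⁻¹ * τ * g) * g • b (g⁻¹ * (σ * τ) * g) =
    g • b (g⁻¹ * σ * g) * σ • g • b (g⁻¹ * τ * g)
  have e2 : g * (g⁻¹ * σ * g) = σ * g := by group
  rw [e1, ← smul_mul', h1, smul_mul', ← mul_smul, ← mul_smul, e2]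

theorem pow_root' {J : Type} [CommGroup J] {ℓ : ℕ} (div : ∀ D : J, ∃ E, E ^ ℓ = D) (n : ℕ) (D : J) :
    ∃ E, E ^ ℓ ^ n = D := by
  induction n with
  | zero => exact ⟨D, by rw [pow_zero, pow_one]⟩
  | succ n ih =>
    obtain ⟨E, hE⟩ := ih
    obtain ⟨E', hE'⟩ := div E
    exact ⟨E', by rw [pow_succ', pow_mul, hE', hE]⟩

end

section

variable {k M : Type} [Field k] [Field M] [Algebra k M] [IsAlgClosed M] {d : ℕ} [NeZero d]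
  {T₀ : Tab k d} {P Q : WB T₀ →ₐ[k] M} [IsDedekindDomain (RF T₀ (kk k M))]
    [IsDedekindDomain (RF T₀ (cl (cor Q)))] [IsDedekindDomain (RF T₀ (cl (cor P)))]
    {ℓ : ℕ} [Fact ℓ.Prime] {h : ℕ}
    {tau : ℕ → (Fin h → ℤ_[ℓ]) → ClassGroup (RF T₀ (kk k M))}
    {z : ℕ → ClassGroup (RF T₀ (cl (cor Q)))} {δ : (M ≃ₐ[k] M) → Fin h → ℤ_[ℓ]}
    {zeta : ℕ → kk k M} {E : Matrix (Fin h) (Fin h) ℤ_[ℓ]}

/-- `Rel` for the package of `P` over `cl (cor Q)` -/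
abbrev RelA (P Q : WB T₀ →ₐ[k] M) [IsDedekindDomain (RF T₀ (cl (cor Q)))]
    (a : (M ≃ₐ[k] M) → (M ≃ₐ[k] M) → Mˣ) (b : (M ≃ₐ[k] M) → ClassGroup (RF T₀ (cl (cor Q)))) :
    Prop :=
  Rel (cl (cor Q)) (AA (cl (cor Q)) (Set.range P)) (NN P Q) (xaF T₀ (cl (cor Q)))
      (dvF (cl (cor Q)) P) cD a b

/-- the class `b` represents the `n`-th class of the system -/
def Qp (P Q : WB T₀ →ₐ[k] M) [IsDedekindDomain (RF T₀ (cl (cor Q)))]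
    (C : ℕ → (M ≃ₐ[k] M) → (M ≃ₐ[k] M) → Mˣ) (n : ℕ)
    (b : (M ≃ₐ[k] M) → ClassGroup (RF T₀ (cl (cor Q)))) : Prop :=
  ∃ a, RelA P Q a b ∧ Tri (NN P Q) (fun σ τ => C n σ τ * (a σ τ)⁻¹)

theorem Gpt.tri (g : Gpt P Q) {a : (M ≃ₐ[k] M) → (M ≃ₐ[k] M) → Mˣ}
    {b : (M ≃ₐ[k] M) → ClassGroup (RF T₀ (cl (cor Q)))} (hab : RelA P Q a b)
    (y : ClassGroup (RF T₀ (cl (cor Q))))
    (hy : ∀ σ ∈ NN P Q, b σ * y = caF T₀ (cl (cor Q)) σ y) : Tri (NN P Q) a :=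
  tri_of_rel (kk k M) (kk_le_cl _) (fun σ hσ => NN_fixk hσ) (Q (WB.x T₀))
    (Q_mem Q _) (fun x hx => by
      refine isAlg_mono ?_ (mem_cl.1 (cl_le_cl (cor_le_cl Q) hx))
      exact le_sup_right) g.sit g.cvA' hab y hy

theorem Lv.Q1 (L : Lv P Q ℓ h tau z δ zeta E) (p : ℕ) [ExpChar M p] (hp : Nat.Coprime ℓ p)
    (div : ∀ D : ClassGroup (RF T₀ (cl (cor Q))), ∃ E, E ^ ℓ = D)
    {C : ℕ → (M ≃ₐ[k] M) → (M ≃ₐ[k] M) → Mˣ} (hC : SysU (Set.range P ∪ Set.range Q) ℓ C) (n : ℕ) :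
    ∃ Φ : Matrix (Fin h) (Fin h) ℤ_[ℓ],
      Qp P Q C n (fun σ => bl (kk_le_cl _) (tau n (Φ.mulVec (δ σ)))) := by
  have hpp : 0 < p := expChar_pos M p
  have hcp : Nat.Coprime p (ℓ ^ n) := (hp.pow_left n).symm
  obtain ⟨r, a, b, hab, htri⟩ := exists_rel p L.g.sit L.g.cvA' (C n) (hC.lc n) (hC.coc n)
    (fun V hV hV' => hC.unr n V (fun x => hV _ ((cl (cor Q)).algebraMap_mem x)) hV')
  -- exponents congruent to one
  have key : ∀ (r : ℕ) (a : (M ≃ₐ[k] M) → (M ≃ₐ[k] M) → Mˣ)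
      (b : (M ≃ₐ[k] M) → ClassGroup (RF T₀ (cl (cor Q)))), RelA P Q a b →
      Tri (NN P Q) (fun σ τ => C n σ τ ^ p ^ r * (a σ τ)⁻¹) → ∃ t : ℕ,
      Tri (NN P Q) (fun σ τ => C n σ τ * (a σ τ ^ p ^ t)⁻¹) := by
    intro r a b hab htri
    obtain ⟨t', ht', ht''⟩ := exists_pow_one hcp r
    obtain ⟨t, rfl⟩ := Nat.exists_eq_add_of_le ht'
    refine ⟨t, ?_⟩
    have h1 := htri.pow (p ^ t)
    have h2 := (sys_one hC n ht'' (pow_pos hpp _)).inv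
    refine (h2.mul h1).congr fun σ _ τ _ => ?_
    rw [mul_inv_rev, inv_inv, mul_pow, inv_pow, ← pow_mul, ← pow_add, mul_assoc,
      inv_mul_cancel_left]
  obtain ⟨t, ht⟩ := key r a b hab htri
  have hab1 := Rel.pow L.g.cvA' hab (p ^ t)
  -- the torsion
  have h1 : Tri (NN P Q) (fun σ τ => (a σ τ ^ p ^ t) ^ ℓ ^ n) := by
    refine ((sys_pow hC n).mul (ht.pow (ℓ ^ n)).inv).congr fun σ _ τ _ => ?_
    rw [mul_pow, mul_inv_rev, inv_pow, inv_inv, mul_comm ((a σ τ ^ p ^ t) ^ ℓ ^ n),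
      mul_inv_cancel_left]
  obtain ⟨s, y, hy⟩ := rel_of_tri p L.g.sit L.g.cvA' (Rel.pow L.g.cvA' hab1 (ℓ ^ n)) h1
  obtain ⟨s', hs', hs''⟩ := exists_pow_one hcp s
  obtain ⟨s₁, rfl⟩ := Nat.exists_eq_add_of_le hs'
  obtain ⟨y', hy'⟩ := pow_root' div n (y ^ p ^ s₁)
  have hab2 := Rel.pow L.g.cvA' hab1 (p ^ (s + s₁))
  have hab3 := Rel.mul L.g.cvA' hab2 (Rel.inv L.g.cvA' (rel_cob L.g.cvA' y'))
  have htri2 : Tri (NN P Q) (fun σ τ => C n σ τ * ((a σ τ ^ p ^ t) ^ p ^ (s + s₁))⁻¹) := by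
    refine ((sys_one hC n hs'' (pow_pos hpp _)).inv.mul (ht.pow (p ^ (s + s₁)))).congr
      fun σ _ τ _ => ?_
    rw [mul_inv_rev, inv_inv, mul_pow, inv_pow, mul_assoc, inv_mul_cancel_left]
  have htri3 : Tri (NN P Q) (fun σ τ => C n σ τ *
      ((a σ τ ^ p ^ t) ^ p ^ (s + s₁) * (1 : Mˣ)⁻¹)⁻¹) :=
    htri2.congr fun σ _ τ _ => by rw [inv_one, mul_one]
  obtain ⟨Φ, hΦ⟩ := L.unr p n (hp.pow_left n) _ _ hab3 (by
    intro σ hσ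
    have h2 := hy σ hσ
    have h3 : ((b σ ^ p ^ t) ^ p ^ (s + s₁)) ^ ℓ ^ n * y' ^ ℓ ^ n =
        caF T₀ (cl (cor Q)) σ y' ^ ℓ ^ n := by
      rw [hy', ← map_pow, hy', map_pow, ← h2, mul_pow]
      congr 1
      rw [← pow_mul, ← pow_mul, ← pow_mul, ← pow_mul, ← pow_mul, pow_add]
      congr 1
      ring
    rw [mul_pow, inv_pow, div_pow, inv_div, ← h3, mul_comm (((b σ ^ p ^ t) ^ p ^ (s + s₁)) ^ ℓ ^ n)
      (y' ^ ℓ ^ n), ← div_div, div_self', one_div, mul_inv_cancel]) (by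
    intro V hV hV'
    have h2 := hC.unr n V hV hV'
    have h3 := htri3.mono (inf_le_left : NN P Q ⊓ St k V ≤ NN P Q)
    refine (h2.mul h3.inv).congr fun σ _ τ _ => ?_
    rw [mul_inv_rev, inv_inv, mul_comm ((a σ τ ^ p ^ t) ^ p ^ (s + s₁) * (1 : Mˣ)⁻¹),
      mul_inv_cancel_left])
  exact ⟨Φ, _, Rel.congr hab3 (fun _ _ _ _ => rfl) hΦ, htri3⟩

theorem Lv.main (L : Lv P Q ℓ h tau z δ zeta E) (p : ℕ) [ExpChar M p] (hp : Nat.Coprime ℓ p)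
    (div : ∀ D : ClassGroup (RF T₀ (cl (cor Q))), ∃ E, E ^ ℓ = D)
    {g : M ≃ₐ[k] M} (hg : g ∈ NN' P Q)
    {R R' : Matrix (Fin h) (Fin h) ℤ_[ℓ]} (hRR : R' * R = 1)
    (hR : ∀ n x, caF T₀ (cl (cor Q)) g (bl (kk_le_cl _) (tau n x)) =
      bl (kk_le_cl _) (tau n (R.mulVec x)))
    (hfix : ∀ y, (∀ s ∈ NN P Q, caF T₀ (cl (cor Q)) s y = y) →
      ∃ r > 0, caF T₀ (cl (cor Q)) (g ^ r) y = y)
    (semi : ∀ r > 0, ∀ Φ : Matrix (Fin h) (Fin h) ℤ_[ℓ],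
      (R ^ r * Φ - Φ * R ^ r) * R ^ r = R ^ r * (R ^ r * Φ - Φ * R ^ r) →
        R ^ r * Φ = Φ * R ^ r)
    (tate : ∀ r > 0, ∀ Φ : Matrix (Fin h) (Fin h) ℤ_[ℓ], R ^ r * Φ = Φ * R ^ r →
      ∃ (s m : ℕ) (v : Fin m → ClassGroup (RF T₀ (cl (cor Q))) →* ClassGroup (RF T₀ (cl (cor Q))))
        (A : Fin m → Matrix (Fin h) (Fin h) ℤ_[ℓ])
        (a : Fin m → ℤ_[ℓ]), (∀ i, ∀ σ ∈ NN P Q, ∀ y,
          v i (caF T₀ (cl (cor Q)) σ y) = caF T₀ (cl (cor Q)) σ (v i y)) ∧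
        (∀ i n x, v i (bl (kk_le_cl _) (tau n x)) = bl (kk_le_cl _) (tau n ((A i).mulVec x))) ∧
        (ℓ : ℤ_[ℓ]) ^ s • Φ = ∑ i, a i • A i)
    {C : ℕ → (M ≃ₐ[k] M) → (M ≃ₐ[k] M) → Mˣ} (hC : SysU (Set.range P ∪ Set.range Q) ℓ C) (n : ℕ) :
    Tri (NN P Q) (C n) := by
  have hkey := (L.lim p hp div).lim hg hRR hR hfix semi tate (Qp P Q C)
    (by
      rintro n b b' hbb ⟨a, hab, htri⟩
      exact ⟨a, Rel.congr hab (fun _ _ _ _ => rfl) hbb, htri⟩)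
    (fun n => L.Q1 p hp div hC n)
    (by
      rintro n b b' ⟨a, hab, htri⟩ ⟨a', hab', htri'⟩
      have h1 := Rel.mul L.g.cvA' hab (Rel.inv L.g.cvA' hab')
      have h2 : Tri (NN P Q) (fun σ τ => a σ τ * (a' σ τ)⁻¹) := by
        refine (htri.inv.mul htri').congr fun σ _ τ _ => ?_
        rw [mul_inv_rev, inv_inv, mul_assoc, inv_mul_cancel_left]
      obtain ⟨r, y, hy⟩ := rel_of_tri p L.g.sit L.g.cvA' h1 h2
      refine ⟨p ^ r, ?_, y, fun s hs => ?_⟩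
      · intro hdvd
        have h3 : Nat.Coprime ℓ (p ^ r) := hp.pow_right r
        exact (Fact.out : ℓ.Prime).one_lt.ne' (Nat.Coprime.eq_one_of_dvd h3 hdvd)
      · rw [← hy s hs, div_eq_mul_inv])
    (by
      rintro n b ⟨a, hab, htri⟩
      refine ⟨_, Rel.pow L.g.cvA' hab ℓ, ?_⟩
      refine ((hC.step n).inv.mul (htri.pow ℓ)).congr fun σ _ τ _ => ?_
      rw [mul_inv_rev, inv_inv, mul_pow, inv_pow, mul_assoc, inv_mul_cancel_left])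
    (by
      rintro n b ⟨a, hab, htri⟩
      have h1 := Rel.conj (NN' P Q) (NN_le P Q) (fun γ hγ s hs => NN_norm hγ hs)
        (fun γ hγ x => NN'_stab hγ x) (fun γ hγ x hx => by
          refine AA_stab (fun x hx => (NN'_stab hγ x).2 hx) (fun x hx => ?_) x hx
          rw [hγ x (Or.inl hx)]
          exact subset_AA _ _ hx) L.g.cvA hab g hg
      refine ⟨_, h1, ?_⟩
      have h2 := hC.inv n g hg
      have h3 := tri_conj (fun s hs => NN_norm hg hs) htri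
      refine (h2.inv.mul h3).congr fun σ _ τ _ => ?_
      rw [mul_inv_rev, inv_inv, smul_mul', smul_inv', mul_assoc, inv_mul_cancel_left])
  obtain ⟨y, a, hab, htri⟩ := hkey n
  have h1 : Tri (NN P Q) a := L.g.tri hab y (fun σ _ => by rw [div_mul_cancel])
  refine (htri.mul h1).congr fun σ _ τ _ => ?_
  rw [inv_mul_cancel_right]

end

end TIFL
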