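import Mathlib
import Pool.Agent.TIFL.G7

/-!
# [TIF LINK] automorphisms
-/

set_option autoImplicit false
set_option linter.unusedSectionVars false

open Polynomial GT Pool.Agent.TBR Pool.Agent.TIFC

namespace TIFL

/-- automorphisms of a domain extend to an algebraic closure of its quotient field -/
theorem ext_aut {R : Type} [CommRing R] [IsDomain R] {L : Type} [Field L] [IsAlgClosed L]
    {ι : R →+* L} (hι : Function.Injective ι) (S : Subfield L)
    (hS : ∀ x ∈ S, ∃ u w : R, w ≠ 0 ∧ ι u = x * ι w) (halg : ∀ x : L, IsAlgebraic S x)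
    (ψ : R ≃+* R) : ∃ τ : L ≃+* L, ∀ r, τ (ι r) = ι (ψ r) := by
  let K := FractionRing R
  let f : K →+* L := IsFractionRing.lift hι
  have hf : ∀ r : R, f (algebraMap R K r) = ι r := fun r => IsFractionRing.lift_algebraMap hι r
  let _ : Algebra K L := f.toAlgebra
  have hfS : ∀ x ∈ S, x ∈ Set.range f := by
    intro x hx
    obtain ⟨u, w, hw, h⟩ := hS x hx
    have hw' : ι w ≠ 0 := (map_ne_zero_iff ι hι).2 hw
    refine ⟨algebraMap R K u / algebraMap R K w, ?_⟩
    rw [map_div₀, hf, hf, h, mul_div_cancel_right₀ _ hw']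
  have hA : Algebra.IsAlgebraic K L := by
    refine ⟨fun x => ?_⟩
    obtain ⟨p, hp0, hp⟩ := halg x
    have h1 : p.map (algebraMap S L) ∈ Polynomial.lifts f := by
      rw [Polynomial.lifts_iff_coeff_lifts]
      intro n
      rw [coeff_map]
      exact hfS _ (p.coeff n).2
    obtain ⟨p', hp'⟩ := (Polynomial.mem_lifts _).1 h1
    refine ⟨p', ?_, ?_⟩
    · rintro rfl
      rw [Polynomial.map_zero] at hp'
      exact (Polynomial.map_ne_zero_iff (algebraMap S L).injective).2 hp0 hp'.symm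
    · have h2 : Polynomial.eval x (p'.map f) = 0 := by
        rw [hp', Polynomial.eval_map]
        exact hp
      rw [Polynomial.eval_map] at h2
      exact h2
  have hC : IsAlgClosure K L := ⟨inferInstance, hA⟩
  let e : K ≃+* K := IsFractionRing.ringEquivOfRingEquiv ψ
  refine ⟨IsAlgClosure.equivOfEquiv L L e, fun r => ?_⟩
  have h1 := IsAlgClosure.equivOfEquiv_algebraMap L L e (algebraMap R K r)
  have h2 : e (algebraMap R K r) = algebraMap R K (ψ r) :=
    IsFractionRing.ringEquivOfRingEquiv_algebraMap ψ r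
  rw [h2] at h1
  have h3 : ∀ s : R, algebraMap K L (algebraMap R K s) = ι s := hf
  rw [h3, h3] at h1
  exact h1

section

variable {k M : Type} [Field k] [Field M] [Algebra k M] [IsAlgClosed M] {d : ℕ} [NeZero d]
  {T₀ : Tab k d} {P Q : WB T₀ →ₐ[k] M}

/-- the evaluation with values in a subfield -/
noncomputable def evS {F L : IntermediateField k M} (hF : F ≤ L) {P : WB T₀ →ₐ[k] M}
    (hP : ∀ b, P b ∈ L) : RF T₀ F →+* L where
  toFun b := ⟨ev F P b, by
    rw [ev_apply]
    exact sum_mem fun j _ => mul_mem (eval₂_mem _ (fun a => hF a.2) (hP _) _) (hP _)⟩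
  map_one' := Subtype.ext (map_one (ev F P))
  map_zero' := Subtype.ext (map_zero (ev F P))
  map_mul' a b := Subtype.ext (map_mul (ev F P) a b)
  map_add' a b := Subtype.ext (map_add (ev F P) a b)

theorem evS_val {F L : IntermediateField k M} (hF : F ≤ L) {P : WB T₀ →ₐ[k] M}
    (hP : ∀ b, P b ∈ L) (b : RF T₀ F) : ((evS hF hP b : L) : M) = ev F P b := rfl

/-- the conjugation of functions -/
noncomputable def cj {F : IntermediateField k M} (φ : F ≃ₐ[k] F) : RF T₀ F ≃+* RF T₀ F :=
  bE (φ : F ≃+* F) (TF_map φ)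

theorem cj_b0 {F : IntermediateField k M} (φ : F ≃ₐ[k] F) (b : WB T₀) : cj φ (b0 F b) = b0 F b := by
  refine WB.ext (funext fun j => ?_)
  unfold cj b0
  rw [bE_co, bmap_co, Polynomial.map_map]
  congr 1
  ext a
  exact congrArg Subtype.val (φ.commutes a)

theorem cj_const {F : IntermediateField k M} (φ : F ≃ₐ[k] F) (a : F) :
    cj (T₀ := T₀) φ (algebraMap F (RF T₀ F) a) = algebraMap F (RF T₀ F) (φ a) :=
  bmap_algebraMap' ((φ : F ≃+* F) : F →+* F) (TF_map φ) a

/-- extension of an automorphism over a generic point -/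
theorem exists_ext {F L : IntermediateField k M} [IsAlgClosed L] (hF : F ≤ L)
    (hP : ∀ b, P b ∈ L) (hgen : Transcendental F (P (WB.x T₀)))
    (halg : ∀ x ∈ L, IsAlgebraic (AA F (Set.range P)) x) (φ : F ≃ₐ[k] F) :
    ∃ τ : L ≃ₐ[k] L, (∀ x : F, ((τ ⟨x, hF x.2⟩ : L) : M) = φ x) ∧
      ∀ b, ((τ ⟨P b, hP b⟩ : L) : M) = P b := by
  have hinj : Function.Injective (evS hF hP) := by
    intro a b h
    exact ev_inj hgen (congrArg Subtype.val h)
  let S : Subfield L := (AA F (Set.range P)).toSubfield.comap (algebraMap L M)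
  have hS : ∀ x : L, x ∈ S ↔ (x : M) ∈ AA F (Set.range P) := fun x => Iff.rfl
  obtain ⟨τ, hτ⟩ := ext_aut (ι := evS hF hP) hinj S (by
    intro x hx
    obtain ⟨u, w, hw, h⟩ := ev_quo hgen (x : M) ((hS x).1 hx)
    exact ⟨u, w, hw, Subtype.ext h⟩) (by
    intro x
    obtain ⟨p, hp0, hp⟩ := halg x x.2
    have hle : AA F (Set.range P) ≤ L := by
      refine sup_le hF ?_
      rw [IntermediateField.adjoin_le_iff]
      rintro _ ⟨b, rfl⟩
      exact hP b
    let j : AA F (Set.range P) →+* S :=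
      { toFun := fun y => ⟨⟨y, hle y.2⟩, (hS _).2 y.2⟩
        map_one' := rfl
        map_zero' := rfl
        map_mul' := fun _ _ => rfl
        map_add' := fun _ _ => rfl }
    refine ⟨p.map j, (Polynomial.map_ne_zero_iff j.injective).2 hp0, ?_⟩
    rw [Polynomial.aeval_def, Polynomial.eval₂_map]
    refine Subtype.ext ?_
    have h1 := Polynomial.hom_eval₂ p ((algebraMap S L).comp j) (algebraMap L M) x
    refine h1.trans ?_
    exact hp) (cj φ)
  have hconst : ∀ x : F, ((τ ⟨x, hF x.2⟩ : L) : M) = φ x := by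
    intro x
    have h1 : evS hF hP (algebraMap F (RF T₀ F) x) = ⟨x, hF x.2⟩ := Subtype.ext (by
      rw [evS_val, AlgHom.commutes]
      rfl)
    rw [← h1, hτ, cj_const, evS_val, AlgHom.commutes]
    rfl
  refine ⟨AlgEquiv.ofRingEquiv (f := τ) fun a => ?_, hconst, ?_⟩
  · refine Subtype.ext ?_
    have h1 := hconst (algebraMap k F a)
    rw [φ.commutes] at h1
    exact h1
  · intro b
    have h1 : evS hF hP (b0 F b) = ⟨P b, hP b⟩ := Subtype.ext (by rw [evS_val, ev_b0])
    show ((τ ⟨P b, hP b⟩ : L) : M) = P b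
    rw [← h1, hτ, cj_b0, h1]

end

section

variable {k M : Type} [Field k] [Field M] [Algebra k M] [IsAlgClosed M] {d : ℕ} [NeZero d]
  {T₀ : Tab k d} {P Q : WB T₀ →ₐ[k] M}

/-- the Frobenius automorphism of the constants extends to an automorphism which fixes the
coordinates -/
theorem Gpt.exists_frob [Finite k] (h : Gpt P Q) : ∃ g ∈ NN' P Q,
    ∀ x, IsAlgebraic k x → g x = x ^ Nat.card k := by
  have _ : Fintype k := Fintype.ofFinite k
  have hkalg : Algebra.IsAlgebraic k (kk k M) := algebraicClosure.isAlgebraic k M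
  let φ : kk k M ≃ₐ[k] kk k M := FiniteField.frobeniusAlgEquivOfAlgebraic k (kk k M)
  have hφ : ∀ x, φ x = x ^ Nat.card k := by
    intro x
    rw [Nat.card_eq_fintype_card]
    rfl
  obtain ⟨τ, h1, h2⟩ := exists_ext (P := P) (F := kk k M) (L := cl (cor P)) (kk_le_cl _)
    (Q_mem P) h.symm.tk (fun x hx => isAlg_mono (cor_le_AA _ _) (mem_cl.1 hx)) φ
  have htop : IsAlgClosed (⊤ : IntermediateField k M) :=
    IsAlgClosed.of_ringEquiv M (⊤ : IntermediateField k M)
      (IntermediateField.topEquiv.symm : M ≃ₐ[k] (⊤ : IntermediateField k M)).toRingEquiv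
  obtain ⟨g, h3, h4⟩ := exists_ext (P := Q) (F := cl (cor P)) (L := ⊤) le_top
    (fun _ => IntermediateField.mem_top) h.symm.tp (fun x _ => h.sitB.alg x) τ
  let e : (⊤ : IntermediateField k M) ≃ₐ[k] M := IntermediateField.topEquiv
  have he : ∀ x : (⊤ : IntermediateField k M), e x = x := fun _ => rfl
  let G : M ≃ₐ[k] M := (e.symm.trans g).trans e
  have hG : ∀ x : M, G x = g ⟨x, IntermediateField.mem_top⟩ := fun x => rfl
  have hGB : ∀ x : cl (cor P), G x = τ x := by
    intro x
    rw [hG]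
    exact h3 x
  refine ⟨G, ?_, ?_⟩
  · rintro x (⟨b, rfl⟩ | ⟨b, rfl⟩)
    · have := hGB ⟨P b, Q_mem P b⟩
      exact this.trans (h2 b)
    · rw [hG]
      exact h4 b
  · intro x hx
    have hxk : x ∈ kk k M := mem_algebraicClosure_iff.2 hx
    have h5 := hGB ⟨x, kk_le_cl _ hxk⟩
    refine h5.trans ?_
    have h6 := h1 ⟨x, hxk⟩
    refine h6.trans ?_
    rw [hφ]
    rfl

end

end TIFL
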