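import Mathlib
import Pool.Agent.TIFL.H1

/-!
# [TIF LINK] finite orbits of classes; limits
-/

set_option autoImplicit false
set_option linter.unusedSectionVars false

open Polynomial GT Pool.Agent.TBR Pool.Agent.TIFC

namespace TIFL

open Pool.Agent.TIFB Pool.Agent.TIFA

section

variable {k M : Type} [Field k] [Field M] [Algebra k M]

/-- among the powers of `g` two agree on a finite set -/
theorem exists_ag {N : Subgroup (M ≃ₐ[k] M)} (horb : Orb N Set.univ) {g : M ≃ₐ[k] M} (hg : g ∈ N)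
    (S : Finset M) : ∃ i j : ℕ, i < j ∧ Ag (S : Set M) (g ^ i) (g ^ j) := by
  have hfin : (Set.pi Set.univ (fun x : S => {y : M | ∃ σ ∈ N, σ x = y})).Finite :=
    Set.Finite.pi fun x => horb x (Set.mem_univ _)
  let F : ℕ → (Set.pi Set.univ (fun x : S => {y : M | ∃ σ ∈ N, σ x = y}) : Set (S → M)) :=
    fun i => ⟨fun x => (g ^ i) x, fun x _ => ⟨g ^ i, N.pow_mem hg i, rfl⟩⟩
  have := hfin.to_subtype
  obtain ⟨i, j, hij, h⟩ := Finite.exists_ne_map_eq_of_infinite F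
  have key : ∀ i j, F i = F j → Ag (S : Set M) (g ^ i) (g ^ j) := by
    intro i j h x hx
    exact congrFun (congrArg Subtype.val h) ⟨x, hx⟩
  rcases lt_or_gt_of_ne hij with hlt | hlt
  · exact ⟨i, j, hlt, key i j h⟩
  · exact ⟨j, i, hlt, key j i h.symm⟩

end

section

variable {k M : Type} [Field k] [Field M] [Algebra k M] [IsAlgClosed M] {d : ℕ} [NeZero d]
  {T₀ : Tab k d} {P Q : WB T₀ →ₐ[k] M} [IsDedekindDomain (RF T₀ (kk k M))]
  [IsDedekindDomain (RF T₀ (cl (cor Q)))] [IsDedekindDomain (RF T₀ (cl (cor P)))]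

theorem Gpt.hfix (h : Gpt P Q) {g : M ≃ₐ[k] M} (hg : g ∈ NN' P Q)
    (y : ClassGroup (RF T₀ (cl (cor Q)))) : ∃ r > 0, caF T₀ (cl (cor Q)) (g ^ r) y = y := by
  classical
  obtain ⟨Y, rfl⟩ := h.cvA.cD_sur y
  choose S hS hS' using h.cvA.xa_lc
  have horb : Orb (NN' P Q) Set.univ := orb_of (NN'_le_Fx P Q) fun x _ => h.alg x
  obtain ⟨i, j, hij, hag⟩ := exists_ag horb hg (Y.support.biUnion S)
  have h1 : Y.mapDomain (xaF T₀ (cl (cor Q)) (g ^ i)) = Y.mapDomain (xaF T₀ (cl (cor Q)) (g ^ j)) := by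
    refine mapDomain_congr' fun q hq => hS' q _ ((NN' P Q).pow_mem hg i) _
      ((NN' P Q).pow_mem hg j) fun x hx => ?_
    exact hag x (Finset.mem_biUnion.2 ⟨q, hq, hx⟩)
  have h2 : caF T₀ (cl (cor Q)) (g ^ i) (cD Y) = caF T₀ (cl (cor Q)) (g ^ j) (cD Y) := by
    rw [← h.cvA.cD_act _ ((NN' P Q).pow_mem hg i), ← h.cvA.cD_act _ ((NN' P Q).pow_mem hg j), h1]
  refine ⟨j - i, Nat.sub_pos_of_lt hij, ?_⟩
  have hst : ∀ m : ℕ, ∀ x, (g ^ m) x ∈ cl (cor Q) ↔ x ∈ cl (cor Q) := fun m x =>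
    NN'_stab ((NN' P Q).pow_mem hg m) x
  have hst' : ∀ x, ((g ^ i)⁻¹ : M ≃ₐ[k] M) x ∈ cl (cor Q) ↔ x ∈ cl (cor Q) := fun x =>
    NN'_stab ((NN' P Q).inv_mem ((NN' P Q).pow_mem hg i)) x
  have h3 : g ^ j = g ^ i * g ^ (j - i) := by rw [← pow_add]; congr 1; omega
  rw [h3, caF_mul (hst i) (hst (j - i))] at h2
  have h4 := congrArg (caF T₀ (cl (cor Q)) (g ^ i)⁻¹) h2
  rw [← caF_mul hst' (hst i), ← caF_mul hst' (hst i), inv_mul_cancel, caF_one, caF_one] at h4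
  exact h4.symm

end

section

variable {J : Type} [CommGroup J] {ℓ : ℕ} [Fact ℓ.Prime] {h : ℕ}
  {tau : ℕ → (Fin h → ℤ_[ℓ]) → J}

theorem toZ_cast (n : ℕ) (c : ℤ_[ℓ]) : (PadicInt.toZModPow (n + 1) c).val ≡
    (PadicInt.toZModPow n c).val [MOD ℓ ^ n] := by
  have : NeZero (ℓ ^ n) := ⟨pow_ne_zero n (Fact.out : ℓ.Prime).ne_zero⟩
  rw [← ZMod.natCast_eq_natCast_iff, ZMod.natCast_zmod_val,
    ← PadicInt.cast_toZModPow n (n + 1) (Nat.le_succ n) c, ZMod.cast_eq_val]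

/-- limits of compatible systems of torsion elements -/
theorem exists_tau_lim (tb : TBs ℓ h tau) (t : ℕ → J) (ht : ∀ n, t n ^ ℓ ^ n = 1)
    (hs : ∀ n, t (n + 1) ^ ℓ = t n) : ∃ x : Fin h → ℤ_[ℓ], ∀ n, t n = tau n x := by
  choose x hx using fun n => tb.sur n (t n) (ht n)
  have hstep : ∀ n i, PadicInt.toZModPow n (x (n + 1) i) = PadicInt.toZModPow n (x n i) := by
    intro n
    refine (tau_eq_iff tb).1 ?_
    rw [← tb.step, hx, hs, hx]
  have hlim : ∀ i, ∃ a : ℤ_[ℓ], ∀ n, PadicInt.toZModPow n a =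
      (((PadicInt.toZModPow n (x n i)).val : ℕ) : ZMod (ℓ ^ n)) := by
    intro i
    refine exists_limit _ fun n => ?_
    refine (toZ_cast n _).trans ?_
    rw [hstep]
  choose a ha using hlim
  refine ⟨a, fun n => ?_⟩
  rw [← hx n]
  refine (tau_eq_iff tb).2 fun i => ?_
  have : NeZero (ℓ ^ n) := ⟨pow_ne_zero n (Fact.out : ℓ.Prime).ne_zero⟩
  rw [ha, ZMod.natCast_zmod_val]

/-- compatible systems of roots -/
theorem exists_roots (div : ∀ D : J, ∃ E, E ^ ℓ = D) (D : J) :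
    ∃ z : ℕ → J, z 0 = D ∧ ∀ n, z (n + 1) ^ ℓ = z n := by
  choose rt hrt using div
  refine ⟨fun n => Nat.rec D (fun _ y => rt y) n, rfl, fun n => hrt _⟩

end

end TIFL
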