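import Mathlib
import Pool.Agent.TIFL.H2
import Pool.Agent.TIFS.D8
import Pool.Agent.TIFB.E3
import Pool.Agent.TIFP.Bcl

/-!
# [TIF LINK] the data of the endgame exist; the core
-/

set_option autoImplicit false
set_option linter.unusedSectionVars false

open Polynomial GT Pool.Agent.TBR Pool.Agent.TIFC

namespace TIFL

open Pool.Agent.TIFS (Pt bp ker_bp bcl bcl_cls iX rig cl_dvd lpair card_tors_eq tors_JK)
open Pool.Agent.TIFB Pool.Agent.TIFA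

section

variable {k M : Type} [Field k] [Field M] [Algebra k M] [IsAlgClosed M] {d : ℕ} [NeZero d]
  {T₀ : Tab k d} {P Q : WB T₀ →ₐ[k] M}

theorem bl_inj {F F' : IntermediateField k M} [IsAlgClosed F'] [IsDedekindDomain (RF T₀ F)]
    [IsDedekindDomain (RF T₀ F')] (h : F ≤ F') : Function.Injective (bl (T₀ := T₀) h) := by
  let _ : Algebra F F' := (jF h).toAlgebra
  exact Pool.Agent.TIFP.bcl_inj (A := F) (Ω := F') (TF_incl (T₀ := T₀) h)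

theorem cast_ne {ℓ : ℕ} (hℓ : (ℓ : k) ≠ 0) (F : Type) [Field F] [Algebra k F] : (ℓ : F) ≠ 0 := by
  rw [← map_natCast (algebraMap k F)]
  exact (_root_.map_ne_zero _).2 hℓ

variable [IsDedekindDomain (RF T₀ (kk k M))]
    [IsDedekindDomain (RF T₀ (cl (cor Q)))] [IsDedekindDomain (RF T₀ (cl (cor P)))]
    {ℓ : ℕ} [Fact ℓ.Prime]

theorem exists_Lv [Finite k] (g : Gpt P Q) (hℓ : (ℓ : k) ≠ 0) :
    ∃ (h : ℕ) (tau : ℕ → (Fin h → ℤ_[ℓ]) → ClassGroup (RF T₀ (kk k M)))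
      (z : ℕ → ClassGroup (RF T₀ (cl (cor Q)))) (δ : (M ≃ₐ[k] M) → Fin h → ℤ_[ℓ])
      (zeta : ℕ → kk k M) (E : Matrix (Fin h) (Fin h) ℤ_[ℓ]), Lv P Q ℓ h tau z δ zeta E := by
  have hℓκ : (ℓ : kk k M) ≠ 0 := cast_ne hℓ _
  have hℓA : (ℓ : cl (cor Q)) ≠ 0 := cast_ne hℓ _
  obtain ⟨tau, tb⟩ := exists_TBs (J := ClassGroup (RF T₀ (kk k M))) (ℓ := ℓ) (h := 2 * gp (TF T₀ (kk k M)))
    (cl_dvd hℓκ) (card_tors_eq (k := k) ⟨T₀, rfl⟩ ℓ hℓ)
  obtain ⟨zeta, hs, hz⟩ := exists_zeta (Ω := kk k M) hℓκ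
  obtain ⟨E, hdet, -, hE⟩ := gram hz hs tb (lpair (T := TF T₀ (kk k M)) hℓκ)
  have tbA : TBs ℓ _ (fun n x => bl (kk_le_cl (cor Q)) (tau n x)) := by
    refine ⟨⟨fun n x y => by rw [tb.add, map_mul], fun n x => by rw [← map_pow, tb.step], ?_⟩, ?_⟩
    · intro n x
      rw [← tb.ker, ← map_one (bl (kk_le_cl (cor Q)))]
      exact (bl_inj _).eq_iff
    · intro n D hD
      obtain ⟨t, ht, rfl⟩ := rig (jF (kk_le_cl (cor Q))) d (TF T₀ (kk k M)) _ (TF_incl _) (ℓ ^ n)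
        (by rw [Nat.cast_pow]; exact pow_ne_zero n hℓκ) D hD
      obtain ⟨x, hx⟩ := tb.sur n t ht
      exact ⟨x, by rw [hx]⟩
  obtain ⟨z, hz0, hzs⟩ := exists_roots (cl_dvd (T := TF T₀ (cl (cor Q))) hℓA)
    (SUP.cls (RingHom.ker (ptA (Q_mem Q))))
  have hzn : ∀ n, z n ^ ℓ ^ n = z 0 := by
    intro n
    induction n with
    | zero => rw [pow_zero, pow_one]
    | succ n ih => rw [pow_succ', pow_mul, hzs, ih]
  have hδ : ∀ σ : M ≃ₐ[k] M, ∃ x : Fin (2 * gp (TF T₀ (kk k M))) → ℤ_[ℓ], σ ∈ NN P Q → ∀ n,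
      caF T₀ (cl (cor Q)) σ (z n) = z n * bl (kk_le_cl (cor Q)) (tau n x) := by
    intro σ
    by_cases hσ : σ ∈ NN P Q
    · obtain ⟨x, hx⟩ := exists_tau_lim tbA (fun n => caF T₀ (cl (cor Q)) σ (z n) / z n)
        (fun n => by
          rw [div_pow, ← map_pow, hzn, hz0, caF_pt hσ.1, div_self'])
        (fun n => by rw [div_pow, ← map_pow, hzs])
      exact ⟨x, fun _ n => by rw [← hx n, mul_div_cancel]⟩
    · exact ⟨0, fun h => absurd h hσ⟩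
  choose δ hδ using hδ
  exact ⟨_, tau, z, δ, zeta, E, g, tb, tbA, fun D hD => bl_inj _ (hD.trans (map_one _).symm),
    hz0, hzs, fun n σ hσ => hδ σ hσ n, hz, hE, hdet⟩

variable {Ω : Type} [Field Ω] [Algebra k Ω] [Algebra M Ω] [IsScalarTower k M Ω] [IsAlgClosed Ω]
  {T : Tab Ω d} [IsDedekindDomain (WB T)]

/-- the core of LINK -/
theorem Gpt.core [Finite k] (g : Gpt P Q) (hℓ : (ℓ : k) ≠ 0) (hT₀ : T₀.map (algebraMap k Ω) = T)
    (hTate : ∀ (k' : Type) [Field k'] [Finite k'] [Algebra k k'] [Algebra k' Ω]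
      [IsScalarTower k k' Ω] (hT' : TIF.Tk k' T), TIF.Tate k' T hT' ℓ ∧ TIF.Semi k' T hT' ℓ)
    {C : ℕ → (M ≃ₐ[k] M) → (M ≃ₐ[k] M) → Mˣ} (hC : SysU (Set.range P ∪ Set.range Q) ℓ C) (n : ℕ) :
    Tri (NN P Q) (C n) := by
  obtain ⟨p, hpk⟩ := CharP.exists k
  have hpp : p.Prime := by
    rcases CharP.char_is_prime_or_zero k p with h | h
    · exact h
    · exfalso
      rw [h] at hpk
      have : CharZero k := CharP.charP_to_charZero k
      exact not_finite k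
  have hpM : CharP M p := charP_of_injective_algebraMap (algebraMap k M).injective p
  have hexp : ExpChar M p := ExpChar.prime hpp
  have hcop : Nat.Coprime ℓ p := by
    rw [Nat.coprime_primes (Fact.out : ℓ.Prime) hpp]
    rintro rfl
    exact hℓ (CharP.cast_eq_zero k ℓ)
  have hℓA : (ℓ : cl (cor Q)) ≠ 0 := cast_ne hℓ _
  obtain ⟨h, tau, z, δ, zeta, E, L⟩ := exists_Lv g hℓ
  obtain ⟨γ, hγ, hγF⟩ := g.exists_frob
  have hst : ∀ x, γ x ∈ cl (cor Q) ↔ x ∈ cl (cor Q) := fun x => NN'_stab hγ x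
  have hst' : ∀ x, (γ⁻¹ : M ≃ₐ[k] M) x ∈ cl (cor Q) ↔ x ∈ cl (cor Q) := fun x =>
    NN'_stab ((NN' P Q).inv_mem hγ) x
  obtain ⟨R, hR⟩ := exists_matZ L.tbA L.tbA (caF T₀ (cl (cor Q)) γ)
  obtain ⟨R', hR'⟩ := exists_matZ L.tbA L.tbA (caF T₀ (cl (cor Q)) γ⁻¹)
  have hRR : R' * R = 1 := by
    refine matZ_unique L.tbA.toTS fun n x => ?_
    rw [← Matrix.mulVec_mulVec, ← hR', ← hR, ← caF_mul hst' hst, inv_mul_cancel, caF_one,
      Matrix.one_mulVec]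
  have hTA : (TF T₀ (cl (cor Q))).map (algebraMap (cl (cor Q)) Ω) = T := by
    rw [Tab.map_map, ← hT₀]
    congr 1
    exact (IsScalarTower.algebraMap_eq k (cl (cor Q)) Ω).symm
  have hkT : TIF.Tk k T := ⟨T₀, hT₀⟩
  have hst2 := semi_tate (k := k) (A := cl (cor Q)) (Ω := Ω) hTA ⟨T₀, rfl⟩
    (fun n D hD => tors_JK hkT (by rw [Nat.cast_pow]; exact pow_ne_zero n hℓ) hD) hTate L.tbA
    (res (cl (cor Q)) γ) (fun x hx => Subtype.ext (by
      rw [res_coe hst, hγF x (by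
        have := hx.algHom (cl (cor Q)).val
        exact this)]
      rfl)) hR
  refine L.main p hcop (cl_dvd hℓA) hγ hRR hR (fun y _ => g.hfix hγ y) hst2.1 ?_ hC n
  intro r hr Φ hΦ
  obtain ⟨s, m, v, X, a, h1, h2, h3⟩ := hst2.2 r hr Φ hΦ
  refine ⟨s, m, v, X, a, fun i σ hσ y => ?_, h2, h3⟩
  refine h1 i (res (cl (cor Q)) σ) (fun x hx => Subtype.ext ?_) y
  rw [res_coe (fun x => NN'_stab hσ.1 x)]
  exact hσ.2 _ (hx.algHom (cl (cor Q)).val)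

end

end TIFL
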