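import Mathlib
import Pool.Agent.TIFL.H3
import Pool.Agent.TIF.Stmt
import Pool.Agent.T1B.Dominated
import Pool.Agent.TBM.Br

/-!
# [TIF LINK] the block LINK
-/

set_option autoImplicit false
set_option linter.unusedSectionVars false

open Polynomial GT Pool.Agent.TBR Pool.Agent.TIFC

namespace TIFL

section transfer

variable {k Ω : Type} [Field k] [Field Ω] [Algebra k Ω] {L : IntermediateField k Ω}

theorem isAlg_map (K : IntermediateField k L) (x : L) :
    IsAlgebraic K x ↔ IsAlgebraic (K.map L.val) (x : Ω) := by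
  let e : K ≃ₐ[k] K.map L.val := K.equivMap L.val
  have he : ∀ y : K, ((e y : K.map L.val) : Ω) = ((y : L) : Ω) := fun y => rfl
  constructor
  · rintro ⟨p, hp0, hp⟩
    refine ⟨p.map ((e : K ≃+* K.map L.val) : K →+* K.map L.val),
      (Polynomial.map_ne_zero_iff (e : K ≃+* K.map L.val).injective).2 hp0, ?_⟩
    rw [Polynomial.aeval_def, Polynomial.eval₂_map]
    have h1 := Polynomial.hom_eval₂ p (algebraMap K L) (algebraMap L Ω) x
    have h2 : Polynomial.eval₂ (algebraMap K L) x p = 0 := hp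
    rw [h2, _root_.map_zero] at h1
    exact h1.symm
  · rintro ⟨p, hp0, hp⟩
    refine ⟨p.map ((e.symm : K.map L.val ≃+* K) : K.map L.val →+* K),
      (Polynomial.map_ne_zero_iff (e.symm : K.map L.val ≃+* K).injective).2 hp0, ?_⟩
    rw [Polynomial.aeval_def, Polynomial.eval₂_map]
    apply (algebraMap L Ω).injective
    rw [_root_.map_zero, Polynomial.hom_eval₂]
    have h2 : (algebraMap L Ω).comp ((algebraMap K L).comp
        ((e.symm : K.map L.val ≃+* K) : K.map L.val →+* K)) = algebraMap (K.map L.val) Ω := by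
      refine RingHom.ext fun y => ?_
      have h3 := he (e.symm y)
      rw [e.apply_symm_apply] at h3
      exact h3.symm
    rw [h2]
    exact hp

end transfer

section

variable {k Ω : Type} [Field k] [Field Ω] [Algebra k Ω] {d : ℕ} [NeZero d] {T₀ : Tab k d}
  {T : Tab Ω d}

theorem ptM_mem (hT : T₀.map (algebraMap k Ω) = T) (P : WB T →ₐ[Ω] Ω) (b : WB T₀) :
    P (bmap (algebraMap k Ω) hT b) ∈ TIF.kP k P :=
  IntermediateField.subset_adjoin k _
    ⟨_, fun j n => ⟨(b.co j).coeff n, by rw [bmap_co, coeff_map]⟩, rfl⟩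

/-- the restriction of a point to the functions over `k` -/
noncomputable def ptM (hT : T₀.map (algebraMap k Ω) = T) (P : WB T →ₐ[Ω] Ω)
    {L : IntermediateField k Ω} (hL : TIF.kP k P ≤ L) : WB T₀ →ₐ[k] L where
  toFun b := ⟨P (bmap (algebraMap k Ω) hT b), hL (ptM_mem hT P b)⟩
  map_one' := Subtype.ext (by
    show P (bmap (algebraMap k Ω) hT 1) = 1
    rw [map_one, map_one])
  map_zero' := Subtype.ext (by
    show P (bmap (algebraMap k Ω) hT 0) = 0
    rw [_root_.map_zero, _root_.map_zero])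
  map_mul' a b := Subtype.ext (by
    show P (bmap (algebraMap k Ω) hT (a * b)) =
      P (bmap (algebraMap k Ω) hT a) * P (bmap (algebraMap k Ω) hT b)
    rw [map_mul, map_mul])
  map_add' a b := Subtype.ext (by
    show P (bmap (algebraMap k Ω) hT (a + b)) =
      P (bmap (algebraMap k Ω) hT a) + P (bmap (algebraMap k Ω) hT b)
    rw [map_add, map_add])
  commutes' r := Subtype.ext (by
    show P (bmap (algebraMap k Ω) hT (algebraMap k (WB T₀) r)) = algebraMap k Ω r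
    rw [bmap_algebraMap', P.commutes]
    rfl)

theorem ptM_val (hT : T₀.map (algebraMap k Ω) = T) (P : WB T →ₐ[Ω] Ω)
    {L : IntermediateField k Ω} (hL : TIF.kP k P ≤ L) (b : WB T₀) :
    ((ptM hT P hL b : L) : Ω) = P (bmap (algebraMap k Ω) hT b) := rfl

theorem exists_b0 (hT : T₀.map (algebraMap k Ω) = T) {b : WB T}
    (hb : TIF.Cf (Set.range (algebraMap k Ω)) b) : ∃ b₀ : WB T₀, bmap (algebraMap k Ω) hT b₀ = b := by
  have h1 : ∀ j, ∃ p : k[X], p.map (algebraMap k Ω) = b.co j := by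
    intro j
    have h2 : b.co j ∈ Polynomial.lifts (algebraMap k Ω) := by
      rw [Polynomial.lifts_iff_coeff_lifts]
      exact fun n => hb j n
    exact (Polynomial.mem_lifts _).1 h2
  choose p hp using h1
  exact ⟨⟨p⟩, WB.ext (funext fun j => hp j)⟩

theorem cor_ptM (hT : T₀.map (algebraMap k Ω) = T) (P : WB T →ₐ[Ω] Ω)
    {L : IntermediateField k Ω} (hL : TIF.kP k P ≤ L) :
    (cor (ptM hT P hL)).map L.val = TIF.kP k P := by
  unfold cor TIF.kP
  rw [IntermediateField.adjoin_map]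
  congr 1
  ext x
  constructor
  · rintro ⟨_, ⟨b, rfl⟩, rfl⟩
    exact ⟨_, fun j n => ⟨(b.co j).coeff n, by rw [bmap_co, coeff_map]⟩, rfl⟩
  · rintro ⟨b, hb, rfl⟩
    obtain ⟨b₀, rfl⟩ := exists_b0 hT hb
    exact ⟨_, ⟨b₀, rfl⟩, rfl⟩

theorem gpt_ptM (hT : T₀.map (algebraMap k Ω) = T) (P Q : WB T →ₐ[Ω] Ω)
    (hP : TIF.GenP k ⊥ P) (hQ : TIF.GenP k (TIF.kP k P) Q) :
    Gpt (ptM hT P ((le_sup_left).trans (le_cl (TIF.kP k P ⊔ TIF.kP k Q))))
      (ptM hT Q ((le_sup_right).trans (le_cl (TIF.kP k P ⊔ TIF.kP k Q)))) := by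
  obtain ⟨P₀, hP₀⟩ : ∃ P₀, P₀ = ptM hT P ((le_sup_left).trans
    (le_cl (TIF.kP k P ⊔ TIF.kP k Q))) := ⟨_, rfl⟩
  obtain ⟨Q₀, hQ₀⟩ : ∃ Q₀, Q₀ = ptM hT Q ((le_sup_right).trans
    (le_cl (TIF.kP k P ⊔ TIF.kP k Q))) := ⟨_, rfl⟩
  have hcP : (cor P₀).map (cl (TIF.kP k P ⊔ TIF.kP k Q)).val = TIF.kP k P := by
    rw [hP₀]; exact cor_ptM hT P _
  have hcQ : (cor Q₀).map (cl (TIF.kP k P ⊔ TIF.kP k Q)).val = TIF.kP k Q := by
    rw [hQ₀]; exact cor_ptM hT Q _
  rw [← hP₀, ← hQ₀]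
  refine ⟨?_, ?_, ?_⟩
  · intro h
    obtain ⟨b, hb, hbt⟩ := hP
    obtain ⟨b₀, rfl⟩ := exists_b0 hT hb
    apply hbt
    have h1 : P₀ b₀ ∈ cl (⊥ : IntermediateField k (cl (TIF.kP k P ⊔ TIF.kP k Q))) := by
      refine cl_of_le (L' := cor P₀) ?_ (isAlgebraic_algebraMap (⟨_, mem_cor P₀ b₀⟩ : cor P₀))
      refine (cor_le_cl P₀).trans (cl_le_cl ?_)
      rw [IntermediateField.adjoin_le_iff, Set.singleton_subset_iff]
      exact mem_cl.2 (isAlg_bot h _)
    have h2 := (isAlg_map _ _).1 (mem_cl.1 h1)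
    rw [IntermediateField.map_bot] at h2
    rw [hP₀] at h2
    exact h2
  · intro h
    obtain ⟨b, hb, hbt⟩ := hQ
    obtain ⟨b₀, rfl⟩ := exists_b0 hT hb
    apply hbt
    have h1 : Q₀ b₀ ∈ cl (cor P₀) := by
      refine cl_of_le (L' := cor Q₀) ?_ (isAlgebraic_algebraMap (⟨_, mem_cor Q₀ b₀⟩ : cor Q₀))
      refine (cor_le_cl Q₀).trans (cl_le_cl ?_)
      rw [IntermediateField.adjoin_le_iff, Set.singleton_subset_iff]
      exact mem_cl.2 h
    have h2 := (isAlg_map _ _).1 (mem_cl.1 h1)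
    rw [hcP, hQ₀] at h2
    exact h2
  · intro x
    rw [isAlg_map, IntermediateField.map_sup, hcP, hcQ]
    exact mem_cl.1 x.2

/-- the points generate the same groups as their coordinates -/
theorem Fx_cor {M : Type} [Field M] [Algebra k M] (P Q : WB T₀ →ₐ[k] M) :
    Fx k ((cor P ⊔ cor Q : IntermediateField k M) : Set M) = NN' P Q := by
  apply le_antisymm
  · rintro σ hσ x (⟨b, rfl⟩ | ⟨b, rfl⟩)
    · exact hσ _ ((le_sup_left : cor P ≤ cor P ⊔ cor Q) (mem_cor P b))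
    · exact hσ _ ((le_sup_right : cor Q ≤ cor P ⊔ cor Q) (mem_cor Q b))
  · exact NN'_le_Fx P Q

theorem Ge_cor {M : Type} [Field M] [Algebra k M] (P Q : WB T₀ →ₐ[k] M) :
    Ge k ((cor P ⊔ cor Q : IntermediateField k M) : Set M) = NN P Q := by
  unfold Ge
  rw [Fx_cor]
  rfl

theorem sys_cor {M : Type} [Field M] [Algebra k M] {P Q : WB T₀ →ₐ[k] M} {ℓ : ℕ}
    {C : ℕ → (M ≃ₐ[k] M) → (M ≃ₐ[k] M) → Mˣ}
    (hC : SysU ((cor P ⊔ cor Q : IntermediateField k M) : Set M) ℓ C) :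
    SysU (Set.range P ∪ Set.range Q) ℓ C := by
  have e1 : Ge k ((cor P ⊔ cor Q : IntermediateField k M) : Set M) =
    Ge k (Set.range P ∪ Set.range Q) := Ge_cor P Q
  have e2 : Fx k ((cor P ⊔ cor Q : IntermediateField k M) : Set M) =
    Fx k (Set.range P ∪ Set.range Q) := Fx_cor P Q
  obtain ⟨h1, h2, h3, h4, h5, h6⟩ := hC
  rw [e1] at h3
  simp only [e1, e2] at h2 h4 h5 h6
  exact ⟨h1, h2, h3, h4, h5, h6⟩

end

/-- the relative theorem for the algebraic closure of a composite of two generic points -/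
theorem t1_sub {k M : Type} [Field k] [Field M] [Algebra k M] [IsAlgClosed M] {ℓ : ℕ}
    (K : IntermediateField k M) (halg : ∀ x : M, IsAlgebraic K x)
    (hcore : ∀ C : ℕ → (M ≃ₐ[k] M) → (M ≃ₐ[k] M) → Mˣ, SysU (K : Set M) ℓ C → ∀ n,
      Tri (Ge k (K : Set M)) (C n)) : Pool.Agent.T1B.T1 k K ℓ := by
  have halg' : Algebra.IsAlgebraic K M := ⟨halg⟩
  rw [t1_iff k K M ℓ]
  intro c hc n
  obtain ⟨C, hC, hCc⟩ := sysK K halg ℓ c hc
  have h1 : Tri (Ge k (K : Set M)) (C n) := hcore C hC n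
  have h2 := (tri_iff K halg (Ge k (K : Set M)) inf_le_left (C n)).1 h1
  rw [sysK_aux4] at h2
  refine h2.congr (fun σ _ τ _ => hCc n σ τ)

/-- transport along an isomorphism -/
theorem t1_equiv {k F F' : Type} [Field k] [Field F] [Field F'] [Algebra k F] [Algebra k F']
    {ℓ : ℕ} (hℓ : ℓ.Prime) (e : F ≃ₐ[k] F') (h : Pool.Agent.T1B.T1 k F' ℓ) :
    Pool.Agent.T1B.T1 k F ℓ := by
  let _ : Algebra F F' := (e : F →ₐ[k] F').toRingHom.toAlgebra
  have _ : IsScalarTower k F F' := IsScalarTower.of_algebraMap_eq (fun x => (e.commutes x).symm)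
  have hsur : Function.Surjective (algebraMap F F') := e.surjective
  have hfin : FiniteDimensional F F' := by
    refine ⟨⟨{1}, ?_⟩⟩
    rw [eq_top_iff]
    rintro y -
    obtain ⟨x, rfl⟩ := hsur y
    rw [Algebra.algebraMap_eq_smul_one]
    exact Submodule.smul_mem _ _ (Submodule.subset_span (by simp))
  exact Pool.Agent.T1B.T1.descend (F' := F') hℓ h

theorem link : TIF.LinkStmt := by
  intro k Ω _ _ _ _ _ hU d _ T _ hT ℓ _ hℓ hTate P Q hP hQ
  obtain ⟨T₀, hT₀⟩ := hT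
  have hg := gpt_ptM hT₀ P Q hP hQ
  obtain ⟨P₀, hP₀⟩ : ∃ P₀, P₀ = ptM hT₀ P ((le_sup_left).trans
    (le_cl (TIF.kP k P ⊔ TIF.kP k Q))) := ⟨_, rfl⟩
  obtain ⟨Q₀, hQ₀⟩ : ∃ Q₀, Q₀ = ptM hT₀ Q ((le_sup_right).trans
    (le_cl (TIF.kP k P ⊔ TIF.kP k Q))) := ⟨_, rfl⟩
  rw [← hP₀, ← hQ₀] at hg
  have hmap : (cor P₀ ⊔ cor Q₀).map (cl (TIF.kP k P ⊔ TIF.kP k Q)).val =
      TIF.kP k P ⊔ TIF.kP k Q := by
    rw [IntermediateField.map_sup, hP₀, hQ₀, cor_ptM, cor_ptM]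
  -- the coordinate rings are Dedekind
  have hded : ∀ F : IntermediateField k (cl (TIF.kP k P ⊔ TIF.kP k Q)),
      IsDedekindDomain (RF T₀ F) := by
    intro F
    have h1 : (TF T₀ F).map (algebraMap F Ω) = T := by
      rw [Tab.map_map]
      refine Eq.trans ?_ hT₀
      congr 1
    have h2 : IsDedekindDomain (WB ((TF T₀ F).map (algebraMap F Ω))) := by
      rw [h1]
      infer_instance
    exact TIFCRV.ded_down (TF T₀ F) (algebraMap F Ω)
  have h1 := hded (kk k _)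
  have h2 := hded (cl (cor Q₀))
  have h3 := hded (cl (cor P₀))
  have hacl : IsAlgClosed (cl (TIF.kP k P ⊔ TIF.kP k Q)) := cl_isAlgClosed _
  have hK : Pool.Agent.T1B.T1 k (cor P₀ ⊔ cor Q₀ : IntermediateField k
      (cl (TIF.kP k P ⊔ TIF.kP k Q))) ℓ := by
    refine t1_sub (cor P₀ ⊔ cor Q₀) hg.alg fun C hC n => ?_
    rw [Ge_cor]
    exact hg.core hℓ hT₀ hTate (sys_cor hC) n
  have e : (TIF.kP k P ⊔ TIF.kP k Q : IntermediateField k Ω) ≃ₐ[k]
      (cor P₀ ⊔ cor Q₀ : IntermediateField k (cl (TIF.kP k P ⊔ TIF.kP k Q))) :=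
    (IntermediateField.equivOfEq hmap.symm).trans
      ((cor P₀ ⊔ cor Q₀).equivMap (cl (TIF.kP k P ⊔ TIF.kP k Q)).val).symm
  exact t1_equiv (Fact.out : ℓ.Prime) e hK

end TIFL
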